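import Pool.Agent.Lib.MP_200139_nt.Smooth

set_option autoImplicit false

namespace Pool.Agent.Lib.VPal

open Finset

/-- The two-digit number `x b + y`. -/
def NN (b : ℕ) (e : ℕ × ℕ) : ℕ := e.1 * b + e.2

/-- The pairs `(x, y)` with `x b + y` and `y b + x` in `S`. -/
def EE (Y S : Finset ℕ) (b : ℕ) : Finset (ℕ × ℕ) :=
  (Y ×ˢ Y).filter fun e => e.1 ≠ e.2 ∧ NN b e ∈ S ∧ NN b e.swap ∈ S

/-- The weight `1 / (x y)`. -/
noncomputable def wt (e : ℕ × ℕ) : ℝ := 1 / (e.1 : ℝ) * (1 / (e.2 : ℝ))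

/-- The neighbours of a pair. -/
def nb (Y S : Finset ℕ) (b : ℕ) (e : ℕ × ℕ) : Finset (ℕ × ℕ) :=
  (EE Y S b).filter fun e' => e' ≠ e ∧ ¬ (NN b e).Coprime (NN b e')

noncomputable def mu (Y S : Finset ℕ) (b : ℕ) : ℝ := ∑ e ∈ EE Y S b, wt e

noncomputable def kap (Y S : Finset ℕ) (b : ℕ) : ℝ :=
  ∑ e ∈ EE Y S b, wt e * ∑ e' ∈ nb Y S b e, wt e'

noncomputable def eta (Y S : Finset ℕ) (b : ℕ) : ℝ :=
  ∑ e ∈ (EE Y S b).filter (fun e => e.swap ∈ nb Y S b e), wt e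

/-- The multiples of `W` up to `K`. -/
def BB (W K : ℕ) : Finset ℕ := (Icc 1 K).filter (W ∣ ·)

lemma wt_nonneg (e : ℕ × ℕ) : 0 ≤ wt e := by unfold wt; positivity

lemma mem_EE {Y S : Finset ℕ} {b : ℕ} {e : ℕ × ℕ} : e ∈ EE Y S b ↔
    (e.1 ∈ Y ∧ e.2 ∈ Y) ∧ e.1 ≠ e.2 ∧ NN b e ∈ S ∧ NN b e.swap ∈ S := by
  simp [EE]

lemma mem_BB {W K b : ℕ} : b ∈ BB W K ↔ (1 ≤ b ∧ b ≤ K) ∧ W ∣ b := by simp [BB]

lemma sum_wt (Y : Finset ℕ) : ∑ e ∈ Y ×ˢ Y, wt e = (∑ y ∈ Y, (1 / y : ℝ)) ^ 2 := by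
  rw [sq, sum_mul_sum, sum_product]
  rfl

lemma sum_le_of_inj {α β : Type*} (A : Finset α) (B : Finset β) (φ : α → β) (f : α → ℝ)
    (g : β → ℝ) (h1 : ∀ a ∈ A, φ a ∈ B) (h2 : Set.InjOn φ A) (h3 : ∀ a ∈ A, f a ≤ g (φ a))
    (h4 : ∀ b ∈ B, 0 ≤ g b) : ∑ a ∈ A, f a ≤ ∑ b ∈ B, g b := by
  classical
  refine (sum_le_sum h3).trans ?_
  rw [← sum_image h2]
  exact sum_le_sum_of_subset_of_nonneg (image_subset_iff.2 h1) fun b hb _ => h4 b hb

lemma sum_swap {α β : Type*} [DecidableEq β] (A : Finset α) (B : Finset β) (C : α → Finset β)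
    (h : ∀ a ∈ A, C a ⊆ B) (f : α → β → ℝ) :
    ∑ a ∈ A, ∑ b ∈ C a, f a b = ∑ b ∈ B, ∑ a ∈ A.filter (fun a => b ∈ C a), f a b := by
  apply sum_comm'
  intro a b
  simp only [mem_filter]
  exact ⟨fun k => ⟨k, h a k.1 k.2⟩, fun k => k.1⟩

theorem second_moment {Y S : Finset ℕ} {W K U : ℕ} {lam Λ t : ℝ}
    (hY : ∀ y ∈ Y, y.Prime ∧ y.Coprime W ∧ y ≤ U) (hS : ∀ n ∈ S, U < n ∧ n * U ≤ K)
    (hcls : ∀ y ∈ Y, lam ≤ ∑ n ∈ S.filter (fun n : ℕ => (n : ZMod W) = y), (1 / n : ℝ))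
    (hΛ : ∑ k ∈ BB W K, (1 / k : ℝ) ≤ Λ) (ht : 2 ≤ t) (htl : t * Λ ≤ (∑ y ∈ Y, (1 / y : ℝ)) * lam) :
    t ^ 2 * Λ / 2 ≤ ∑ b ∈ BB W K, mu Y S b * (1 / b : ℝ) := by
  set F : ℕ → Finset ℕ := fun k => Y.filter fun y => y ∣ k ∧ k / y + y ∈ S with hF
  have M1 : t * Λ ≤ ∑ k ∈ BB W K, (F k).card * (1 / k : ℝ) := by
    refine htl.trans ?_
    simp only [← nsmul_eq_mul, ← sum_const]
    rw [sum_swap _ Y F (fun k _ => filter_subset _ _), sum_mul]
    apply sum_le_sum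
    intro y hy
    obtain ⟨h1, h2, h3⟩ := hY y hy
    refine (mul_le_mul_of_nonneg_left (hcls y hy) (by positivity)).trans ?_
    rw [mul_sum]
    apply sum_le_of_inj _ _ (fun n => y * (n - y))
    · intro n hn
      obtain ⟨hn, hc⟩ := mem_filter.1 hn
      obtain ⟨k1, k2⟩ := hS n hn
      rw [ZMod.natCast_eq_natCast_iff] at hc
      refine mem_filter.2 ⟨mem_BB.2 ⟨⟨Nat.mul_pos h1.pos (by omega), ?_⟩,
        Dvd.dvd.mul_left ((Nat.modEq_iff_dvd' (by omega)).1 hc.symm) _⟩,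
        mem_filter.2 ⟨hy, Dvd.intro _ rfl, ?_⟩⟩
      · rw [mul_comm]
        exact (Nat.mul_le_mul (Nat.sub_le _ _) h3).trans k2
      · rwa [Nat.mul_div_cancel_left _ h1.pos, Nat.sub_add_cancel (by omega)]
    · intro n hn n' hn' h
      have k1 := (hS n (mem_filter.1 hn).1).1
      have k2 := (hS n' (mem_filter.1 hn').1).1
      have := Nat.eq_of_mul_eq_mul_left h1.pos h
      omega
    · intro n hn
      have k1 := (hS n (mem_filter.1 hn).1).1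
      rw [one_div_mul_one_div]
      apply one_div_le_one_div_of_le
      · exact_mod_cast Nat.mul_pos h1.pos (by omega)
      · exact_mod_cast Nat.mul_le_mul_left y (Nat.sub_le n y)
    · intro _ _
      positivity
  have M2 : ∑ k ∈ BB W K, (F k).offDiag.card * (1 / k : ℝ) ≤
      ∑ b ∈ BB W K, mu Y S b * (1 / b : ℝ) := by
    simp only [← nsmul_eq_mul, ← sum_const, mu, sum_mul]
    rw [sum_swap _ (Y ×ˢ Y) (fun k => (F k).offDiag), sum_swap _ (Y ×ˢ Y) (EE Y S)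
      (fun k _ => filter_subset _ _)]
    · apply sum_le_sum
      rintro ⟨x, y⟩ he
      obtain ⟨hx, hy⟩ := mem_product.1 he
      obtain ⟨x1, x2, -⟩ := hY x hx
      obtain ⟨y1, y2, -⟩ := hY y hy
      have key : ∀ k ∈ (BB W K).filter (fun k => (x, y) ∈ (F k).offDiag), ∃ b, k = x * y * b := by
        intro k hk
        obtain ⟨h1, h2, h3⟩ := mem_offDiag.1 (mem_filter.1 hk).2
        exact ((Nat.coprime_primes x1 y1).2 h3).mul_dvd_of_dvd_of_dvd (mem_filter.1 h1).2.1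
          (mem_filter.1 h2).2.1
      have hxy : 0 < x * y := Nat.mul_pos x1.pos y1.pos
      apply sum_le_of_inj _ _ (fun k => k / (x * y))
      · intro k hk
        obtain ⟨b, rfl⟩ := key k hk
        obtain ⟨h0, h1⟩ := mem_filter.1 hk
        obtain ⟨h1, h2, h3⟩ := mem_offDiag.1 h1
        obtain ⟨⟨k1, k2⟩, k3⟩ := mem_BB.1 h0
        rw [Nat.mul_div_cancel_left _ hxy]
        refine mem_filter.2 ⟨mem_BB.2 ⟨⟨Nat.pos_of_ne_zero (by rintro rfl; omega),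
          (Nat.le_mul_of_pos_left b hxy).trans k2⟩,
          (Nat.Coprime.mul_left x2 y2).symm.dvd_of_dvd_mul_left k3⟩,
          mem_EE.2 ⟨⟨hx, hy⟩, h3, ?_, ?_⟩⟩
        · have := (mem_filter.1 h2).2.2
          rwa [mul_right_comm, Nat.mul_div_cancel _ y1.pos] at this
        · have := (mem_filter.1 h1).2.2
          rwa [mul_assoc, Nat.mul_div_cancel_left _ x1.pos] at this
      · intro k hk k' hk' h
        obtain ⟨b, rfl⟩ := key k hk
        obtain ⟨b', rfl⟩ := key k' hk'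
        simp only [Nat.mul_div_cancel_left _ hxy] at h
        rw [h]
      · intro k hk
        obtain ⟨b, rfl⟩ := key k hk
        rw [Nat.mul_div_cancel_left _ hxy, wt, one_div_mul_one_div, one_div_mul_one_div]
        push_cast
        exact le_rfl
      · intro b _
        have := wt_nonneg (x, y)
        positivity
    · intro k _ e he
      obtain ⟨h1, h2, -⟩ := mem_offDiag.1 he
      exact mem_product.2 ⟨(mem_filter.1 h1).1, (mem_filter.1 h2).1⟩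
  refine le_trans ?_ M2
  have h1 : ∑ k ∈ BB W K, ((2 * t - 1) * ((F k).card * (1 / k : ℝ)) - t ^ 2 * (1 / k : ℝ)) ≤
      ∑ k ∈ BB W K, (F k).offDiag.card * (1 / k : ℝ) := by
    apply sum_le_sum
    intro k _
    rw [offDiag_card, Nat.cast_sub (Nat.le_mul_self _)]
    push_cast
    have : (0 : ℝ) ≤ 1 / k := by positivity
    nlinarith [mul_nonneg this (sq_nonneg (((F k).card : ℝ) - t))]
  rw [sum_sub_distrib, ← mul_sum, ← mul_sum] at h1
  have h2 : 0 ≤ Λ := le_trans (sum_nonneg fun _ _ => by positivity) hΛ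
  have h3 : (2 * t - 1) * (t * Λ) ≤ (2 * t - 1) * ∑ k ∈ BB W K, (F k).card * (1 / k : ℝ) :=
    mul_le_mul_of_nonneg_left M1 (by linarith)
  have h4 : t ^ 2 * ∑ k ∈ BB W K, (1 / k : ℝ) ≤ t ^ 2 * Λ :=
    mul_le_mul_of_nonneg_left hΛ (by positivity)
  have h5 : 0 ≤ t * (t - 2) * Λ := mul_nonneg (mul_nonneg (by linarith) (by linarith)) h2
  nlinarith

lemma det_modEq {b q : ℕ} {e e' : ℕ × ℕ} (h : q ∣ NN b e) (h' : q ∣ NN b e') :
    e.1 * e'.2 ≡ e'.1 * e.2 [MOD q] := by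
  have h1 : e.1 * NN b e' ≡ e'.1 * NN b e [MOD q] :=
    ((Nat.modEq_zero_iff_dvd).2 (h'.mul_left _)).trans
      ((Nat.modEq_zero_iff_dvd).2 (h.mul_left _)).symm
  have h2 : e.1 * NN b e' = e.1 * e'.1 * b + e.1 * e'.2 := by unfold NN; ring
  have h3 : e'.1 * NN b e = e.1 * e'.1 * b + e'.1 * e.2 := by unfold NN; ring
  rw [h2, h3] at h1
  exact Nat.ModEq.add_left_cancel' _ h1

lemma common_le {Y S : Finset ℕ} {U b q : ℕ} (hY : ∀ y ∈ Y, y.Prime ∧ y ≤ U) {e e' : ℕ × ℕ}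
    (he : e ∈ EE Y S b) (he' : e' ∈ EE Y S b) (hne : e' ≠ e) (h : q ∣ NN b e)
    (h' : q ∣ NN b e') : q ≤ U ^ 2 := by
  obtain ⟨x, y⟩ := e
  obtain ⟨x', y'⟩ := e'
  obtain ⟨⟨hx, hy⟩, hxy, -⟩ := mem_EE.1 he
  obtain ⟨⟨hx', hy'⟩, -⟩ := mem_EE.1 he'
  have h1 := det_modEq h h'
  simp only at *
  by_contra hc
  have e1 : x * y' ≤ U ^ 2 := by rw [sq]; exact Nat.mul_le_mul (hY x hx).2 (hY y' hy').2
  have e2 : x' * y ≤ U ^ 2 := by rw [sq]; exact Nat.mul_le_mul (hY x' hx').2 (hY y hy).2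
  have h2 := h1.eq_of_lt_of_lt (by omega) (by omega)
  have h3 : x = x' := by
    rcases (Nat.Prime.dvd_mul (hY x hx).1).1 (Dvd.intro _ h2) with k | k
    · exact (Nat.prime_dvd_prime_iff_eq (hY x hx).1 (hY x' hx').1).1 k
    · exact absurd ((Nat.prime_dvd_prime_iff_eq (hY x hx).1 (hY y hy).1).1 k) hxy
  subst h3
  exact hne (by rw [Nat.eq_of_mul_eq_mul_left (hY x hx).1.pos h2])

section conflicts

variable {Y S : Finset ℕ} {W K U w B0 : ℕ} {Λ : ℝ} {β : ℕ → ℝ}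

lemma pair_sum (hY : ∀ y ∈ Y, y.Prime ∧ y ≤ U) (hS : ∀ n ∈ S, ∀ q, q.Prime → q ∣ n → w < q)
    (hB : ∀ b e, e ∈ EE Y S b → B0 ≤ b)
    (hb : ∀ q ∈ PS w (U ^ 2), ∀ A ⊆ BB W K, (∀ b ∈ A, B0 ≤ b) →
      (∀ b ∈ A, ∀ b' ∈ A, b ≡ b' [MOD q]) → ∑ b ∈ A, (1 / b : ℝ) ≤ Λ / q) (e e' : ℕ × ℕ) :
    ∑ b ∈ (BB W K).filter (fun b => e ∈ EE Y S b ∧ e' ∈ nb Y S b e), (1 / b : ℝ) ≤
      ∑ q ∈ PS w (U ^ 2), if q.Coprime e.1 ∧ e.1 * e'.2 ≡ e'.1 * e.2 [MOD q] then Λ / q else 0 := by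
  rw [← sum_filter]
  refine (sum_le_cover _ ((PS w (U ^ 2)).filter fun q =>
    q.Coprime e.1 ∧ e.1 * e'.2 ≡ e'.1 * e.2 [MOD q]) (fun q b => q ∣ NN b e) _
    (fun _ _ => by positivity) ?_).trans (sum_le_sum ?_)
  · intro b hb
    obtain ⟨-, h1, h2⟩ := mem_filter.1 hb
    obtain ⟨h2, h3, h4⟩ := mem_filter.1 h2
    obtain ⟨q, hq, k1, k2⟩ := Nat.Prime.not_coprime_iff_dvd.1 h4
    obtain ⟨⟨hx, hy⟩, hxy, h5, -⟩ := mem_EE.1 h1
    refine ⟨q, mem_filter.2 ⟨mem_PS.2 ⟨⟨hS _ h5 q hq k1, common_le hY h1 h2 h3 k1 k2⟩, hq⟩, ?_,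
      det_modEq k1 k2⟩, k1⟩
    rw [Nat.Prime.coprime_iff_not_dvd hq]
    intro hd
    have k3 : q ∣ e.2 := (Nat.dvd_add_right (hd.mul_right b)).1 k1
    exact hxy (((Nat.prime_dvd_prime_iff_eq hq (hY _ hx).1).1 hd).symm.trans
      ((Nat.prime_dvd_prime_iff_eq hq (hY _ hy).1).1 k3))
  · intro q hq
    obtain ⟨hq, h1, -⟩ := mem_filter.1 hq
    apply hb q hq _ ((filter_subset _ _).trans (filter_subset _ _))
    · intro b hb
      exact hB b e (mem_filter.1 (mem_filter.1 hb).1).2.1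
    · intro b hb b' hb'
      have h2 := ((Nat.modEq_zero_iff_dvd).2 (mem_filter.1 hb).2).trans
        ((Nat.modEq_zero_iff_dvd).2 (mem_filter.1 hb').2).symm
      exact Nat.ModEq.cancel_left_of_coprime h1 (Nat.ModEq.add_right_cancel' _ h2)

theorem kap_avg (hY : ∀ y ∈ Y, y.Prime ∧ y ≤ U) (hS : ∀ n ∈ S, ∀ q, q.Prime → q ∣ n → w < q)
    (hB : ∀ b e, e ∈ EE Y S b → B0 ≤ b) (hΛ : 0 ≤ Λ)
    (hb : ∀ q ∈ PS w (U ^ 2), ∀ A ⊆ BB W K, (∀ b ∈ A, B0 ≤ b) →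
      (∀ b ∈ A, ∀ b' ∈ A, b ≡ b' [MOD q]) → ∑ b ∈ A, (1 / b : ℝ) ≤ Λ / q)
    (hβ : ∀ q ∈ PS w (U ^ 2), ∀ A ⊆ Y, (∀ a ∈ A, ∀ a' ∈ A, a ≡ a' [MOD q]) →
      ∑ a ∈ A, (1 / a : ℝ) ≤ β q) :
    ∑ b ∈ BB W K, kap Y S b * (1 / b : ℝ) ≤
      (∑ y ∈ Y, (1 / y : ℝ)) ^ 3 * (Λ * ∑ q ∈ PS w (U ^ 2), β q / q) := by
  simp only [kap, sum_mul]
  rw [sum_swap _ (Y ×ˢ Y) (EE Y S) (fun k _ => filter_subset _ _), pow_succ, ← sum_wt, mul_assoc,
    sum_mul]
  apply sum_le_sum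
  intro e _
  simp only [mul_assoc]
  rw [← mul_sum]
  refine mul_le_mul_of_nonneg_left ?_ (wt_nonneg e)
  simp only [sum_mul]
  rw [sum_swap _ (Y ×ˢ Y) (fun b => nb Y S b e)
    (fun k _ => (filter_subset _ _).trans (filter_subset _ _)), sum_product]
  apply sum_le_sum
  intro x' _
  calc _ ≤ ∑ y' ∈ Y, 1 / (x' : ℝ) * ∑ q ∈ PS w (U ^ 2), Λ / q *
        (if q.Coprime e.1 ∧ e.1 * y' ≡ x' * e.2 [MOD q] then (1 / y' : ℝ) else 0) := by
        apply sum_le_sum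
        intro y' _
        rw [← mul_sum, filter_filter, wt, mul_assoc]
        refine mul_le_mul_of_nonneg_left ?_ (by positivity)
        refine (mul_le_mul_of_nonneg_left (pair_sum hY hS hB hb e (x', y'))
          (by positivity)).trans (le_of_eq ?_)
        rw [mul_sum]
        apply sum_congr rfl
        intro q _
        split_ifs
        · exact mul_comm _ _
        · simp
    _ ≤ _ := by
        rw [← mul_sum, sum_comm, mul_sum _ _ Λ]
        refine mul_le_mul_of_nonneg_left (sum_le_sum fun q hq => ?_) (by positivity)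
        rw [← mul_sum, ← sum_filter, mul_div_assoc', mul_div_right_comm]
        refine mul_le_mul_of_nonneg_left (hβ q hq _ (filter_subset _ _) ?_) (by positivity)
        intro a ha a' ha'
        obtain ⟨-, h1, h2⟩ := mem_filter.1 ha
        exact Nat.ModEq.cancel_left_of_coprime h1 (h2.trans (mem_filter.1 ha').2.2.symm)

theorem eta_avg (hY : ∀ y ∈ Y, y.Prime ∧ y ≤ U) (hS : ∀ n ∈ S, ∀ q, q.Prime → q ∣ n → w < q)
    (hB : ∀ b e, e ∈ EE Y S b → B0 ≤ b) (hΛ : 0 ≤ Λ)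
    (hb : ∀ q ∈ PS w (U ^ 2), ∀ A ⊆ BB W K, (∀ b ∈ A, B0 ≤ b) →
      (∀ b ∈ A, ∀ b' ∈ A, b ≡ b' [MOD q]) → ∑ b ∈ A, (1 / b : ℝ) ≤ Λ / q)
    (hβ : ∀ q ∈ PS w (U ^ 2), ∀ A ⊆ Y, (∀ a ∈ A, ∀ a' ∈ A, a ≡ a' [MOD q]) →
      ∑ a ∈ A, (1 / a : ℝ) ≤ β q) :
    ∑ b ∈ BB W K, eta Y S b * (1 / b : ℝ) ≤
      2 * (∑ y ∈ Y, (1 / y : ℝ)) * (Λ * ∑ q ∈ PS w (U ^ 2), β q / q) := by
  simp only [eta, sum_mul]
  rw [sum_swap _ (Y ×ˢ Y) (fun b => (EE Y S b).filter (fun e => e.swap ∈ nb Y S b e))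
    (fun k _ => (filter_subset _ _).trans (filter_subset _ _)), sum_product, mul_comm 2, mul_assoc,
    sum_mul]
  apply sum_le_sum
  intro x _
  calc _ ≤ ∑ y ∈ Y, 1 / (x : ℝ) * ∑ q ∈ PS w (U ^ 2), Λ / q *
        (if x * x ≡ y * y [MOD q] then (1 / y : ℝ) else 0) := by
        apply sum_le_sum
        intro y _
        rw [← mul_sum, wt, mul_assoc]
        refine mul_le_mul_of_nonneg_left ?_ (by positivity)
        simp only [mem_filter]
        refine (mul_le_mul_of_nonneg_left (pair_sum hY hS hB hb (x, y) (y, x))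
          (by positivity)).trans ?_
        rw [mul_sum]
        apply sum_le_sum
        intro q _
        split_ifs with h1 h2
        · exact le_of_eq (mul_comm _ _)
        · exact absurd h1.2 h2
        · simp only [mul_zero]; positivity
        · simp
    _ ≤ _ := by
        rw [← mul_sum, sum_comm, mul_sum _ _ Λ, mul_sum _ _ 2]
        refine mul_le_mul_of_nonneg_left (sum_le_sum fun q hq => ?_) (by positivity)
        rw [← mul_sum, ← sum_filter, mul_div_assoc' Λ, mul_div_right_comm, mul_left_comm]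
        refine mul_le_mul_of_nonneg_left ?_ (by positivity)
        have hq' := (mem_PS.1 hq).2
        have hsub : Y.filter (fun y => x * x ≡ y * y [MOD q]) ⊆
            Y.filter (fun y => x ≡ y [MOD q]) ∪ Y.filter (fun y => x + y ≡ 0 [MOD q]) := by
          intro y hy
          obtain ⟨hy, h⟩ := mem_filter.1 hy
          have := Fact.mk hq'
          rw [← ZMod.natCast_eq_natCast_iff] at h
          push_cast at h
          simp only [mem_union, mem_filter, hy, true_and, ← ZMod.natCast_eq_natCast_iff]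
          push_cast
          rcases mul_self_eq_mul_self_iff.1 h with k | k
          · exact Or.inl k
          · exact Or.inr (by rw [k, neg_add_cancel])
        refine (sum_le_sum_of_subset_of_nonneg hsub fun _ _ _ => by positivity).trans ?_
        have h0 := sum_union_inter (s₁ := Y.filter (fun y => x ≡ y [MOD q]))
          (s₂ := Y.filter (fun y => x + y ≡ 0 [MOD q])) (f := fun y : ℕ => (1 / y : ℝ))
        have h1 := hβ q hq (Y.filter (fun y => x ≡ y [MOD q])) (filter_subset _ _)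
          fun a ha a' ha' => (mem_filter.1 ha).2.symm.trans (mem_filter.1 ha').2
        have h2 := hβ q hq (Y.filter (fun y => x + y ≡ 0 [MOD q])) (filter_subset _ _)
          fun a ha a' ha' => Nat.ModEq.add_left_cancel' x
            ((mem_filter.1 ha).2.trans (mem_filter.1 ha').2.symm)
        have h3 : 0 ≤ ∑ y ∈ Y.filter (fun y => x ≡ y [MOD q]) ∩
            Y.filter (fun y => x + y ≡ 0 [MOD q]), (1 / y : ℝ) :=
          sum_nonneg fun _ _ => by positivity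
        linarith

end conflicts

end Pool.Agent.Lib.VPal
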