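import Mathlib

set_option autoImplicit false

namespace Pool.Agent.Lib.VPal

/-- The base `b` digit reversal of `n`. -/
def rev (b n : ℕ) : ℕ := Nat.ofDigits b (Nat.digits b n).reverse

/-- The sum of the primes dividing `n` and of their exponents larger than one. -/
def vv (n : ℕ) : ℕ :=
  ∑ p ∈ n.primeFactors, if n.factorization p = 1 then p else p + n.factorization p

/-- `n` is a `v`-palindrome in base `b`. -/
def IsVPal (b n : ℕ) : Prop := 0 < n ∧ ¬ b ∣ n ∧ n ≠ rev b n ∧ vv n = vv (rev b n)

/-- The base `b` has infinitely many `v`-palindromes `n` with `n` and its reversal squarefree. -/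
def SqfBase (b : ℕ) : Prop :=
  {n : ℕ | IsVPal b n ∧ Squarefree n ∧ Squarefree (rev b n)}.Infinite

end Pool.Agent.Lib.VPal
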