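import Pool.Agent.Lib.MP_200139_nt.Pal

set_option autoImplicit false

namespace Pool.Agent.Lib.VPal

open Finset Filter Topology

/-- The weight of the digit `j` of the first half. -/
def cc (B l : ℕ) (j : Fin (l + 1)) : ℕ :=
  ∑ i ∈ (range (2 * l + 1)).filter (fun i => mir l i = j), B ^ i

lemma pv_eq (B l : ℕ) (A : Fin (l + 1) → ℕ) : pv B l A = ∑ j, A j * cc B l j := by
  unfold pv cc
  rw [← sum_fiberwise (range (2 * l + 1)) (mir l)]
  apply sum_congr rfl
  intro j _
  rw [mul_sum]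
  apply sum_congr rfl
  intro i hi
  rw [(mem_filter.1 hi).2]

lemma cc_eq (B l : ℕ) (j : Fin (l + 1)) (hj : (j : ℕ) < l) :
    cc B l j = B ^ (j : ℕ) + B ^ (2 * l - j) := by
  unfold cc
  rw [← sum_pair (f := fun i => B ^ i) (show (j : ℕ) ≠ 2 * l - j by omega)]
  congr 1
  ext i
  simp only [mem_filter, mem_range, mem_insert, mem_singleton, mir, Fin.ext_iff]
  omega

lemma two_consec {Q B : ℕ} (hQ : Q.Coprime (2 * B)) (h : ZMod Q) (j m : ℕ)
    (h1 : h * ((B : ZMod Q) ^ j + B ^ (j + 2 * m + 2)) = 0)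
    (h2 : h * ((B : ZMod Q) ^ (j + 1) + B ^ (j + 2 * m + 1)) = 0) : h = 0 := by
  have hB : IsUnit (B : ZMod Q) :=
    (ZMod.isUnit_iff_coprime B Q).2 (Nat.Coprime.coprime_mul_left_right hQ).symm
  have h2' : IsUnit ((2 : ℕ) : ZMod Q) :=
    (ZMod.isUnit_iff_coprime 2 Q).2 (Nat.Coprime.coprime_mul_right_right hQ).symm
  have e1 : h * (1 + (B : ZMod Q) ^ (2 * m + 2)) = 0 := by
    apply (hB.pow j).mul_left_cancel
    rw [mul_zero, ← h1]
    ring
  have e2 : h * (1 + (B : ZMod Q) ^ (2 * m)) = 0 := by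
    apply (hB.pow (j + 1)).mul_left_cancel
    rw [mul_zero, ← h2]
    ring
  have e3 : h * (B : ZMod Q) ^ 2 = h := by
    apply (hB.pow (2 * m)).mul_left_cancel
    linear_combination e1 - e2
  have e4 : ∀ n : ℕ, h * (B : ZMod Q) ^ (2 * n) = h := by
    intro n
    induction n with
    | zero => simp
    | succ n ih =>
      rw [show 2 * (n + 1) = 2 + 2 * n by ring, pow_add, ← mul_assoc, e3, ih]
  apply h2'.mul_left_cancel
  push_cast
  linear_combination e2 - e4 m

lemma norm_std {Q : ℕ} [NeZero Q] (t : ZMod Q) : ‖ZMod.stdAddChar t‖ = 1 := by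
  rw [ZMod.stdAddChar_apply, Circle.norm_coe]

lemma char_sum_le {Q : ℕ} [NeZero Q] (s : Finset ℕ) (t : ZMod Q) :
    ‖∑ a ∈ s, ZMod.stdAddChar (t * (a : ZMod Q))‖ ≤ s.card := by
  refine (norm_sum_le _ _).trans ?_
  simp

lemma char_sum_lt {Q : ℕ} [NeZero Q] {d : ℕ} (hd : 2 ≤ d) {t : ZMod Q} (ht : t ≠ 0) :
    ‖∑ a ∈ range d, ZMod.stdAddChar (t * (a : ZMod Q))‖ < d := by
  obtain ⟨m, rfl⟩ : ∃ m, d = m + 2 := ⟨d - 2, by omega⟩
  rw [sum_range_succ', sum_range_succ', add_assoc]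
  refine (norm_add_le _ _).trans_lt ?_
  have h1 : ‖∑ a ∈ range m, ZMod.stdAddChar (t * ((a + 1 + 1 : ℕ) : ZMod Q))‖ ≤ m := by
    refine (norm_sum_le _ _).trans ?_
    simp
  have h2 : ‖ZMod.stdAddChar (t * ((0 + 1 : ℕ) : ZMod Q)) +
      ZMod.stdAddChar (t * ((0 : ℕ) : ZMod Q))‖ < 2 := by
    refine lt_of_le_of_ne ((norm_add_le _ _).trans (by rw [norm_std, norm_std]; norm_num)) ?_
    intro h
    have h3 := eq_of_norm_eq_of_norm_add_eq (E := ℂ)
      ((norm_std _).trans (norm_std _).symm) (by rw [h, norm_std, norm_std]; norm_num)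
    have h4 := ZMod.injective_stdAddChar h3
    simp only [zero_add, Nat.cast_one, mul_one, Nat.cast_zero, mul_zero] at h4
    exact ht h4
  push_cast at *
  linarith

lemma char_sum_unif (Q : ℕ) [NeZero Q] {d : ℕ} (hd : 2 ≤ d) : ∃ θ : ℝ, 0 ≤ θ ∧ θ < 1 ∧
    ∀ t : ZMod Q, t ≠ 0 → ‖∑ a ∈ range d, ZMod.stdAddChar (t * (a : ZMod Q))‖ ≤ d * θ := by
  classical
  have hd' : (0 : ℝ) < d := by exact_mod_cast (by omega : 0 < d)
  obtain ⟨t0, -, h0⟩ := exists_max_image (univ : Finset (ZMod Q))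
    (fun t => if t = 0 then 0 else ‖∑ a ∈ range d, ZMod.stdAddChar (t * (a : ZMod Q))‖ / d) univ_nonempty
  refine ⟨if t0 = 0 then 0 else ‖∑ a ∈ range d, ZMod.stdAddChar (t0 * (a : ZMod Q))‖ / d,
    ?_, ?_, fun t ht => ?_⟩
  · split_ifs
    · exact le_rfl
    · positivity
  · split_ifs with h
    · exact one_pos
    · rw [div_lt_one hd']
      exact char_sum_lt hd h
  · have := h0 t (mem_univ _)
    rw [if_neg ht, div_le_iff₀ hd', mul_comm] at this
    exact this

lemma char_prod {Q : ℕ} [NeZero Q] {ι : Type*} (s : Finset ι) (f : ι → ZMod Q) :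
    ZMod.stdAddChar (∑ i ∈ s, f i) = ∏ i ∈ s, ZMod.stdAddChar (f i) := by
  classical
  induction s using Finset.induction_on with
  | empty => simp
  | insert a s ha ih => rw [sum_insert ha, prod_insert ha, AddChar.map_add_eq_mul, ih]

lemma fam_char {Q B d : ℕ} [NeZero Q] (hQ : Q.Coprime (2 * B)) {θ : ℝ} (h0 : 0 ≤ θ) (h1 : θ ≤ 1)
    (hθ : ∀ t : ZMod Q, t ≠ 0 → ‖∑ a ∈ range d, ZMod.stdAddChar (t * (a : ZMod Q))‖ ≤ d * θ)
    (l : ℕ) {h : ZMod Q} (hh : h ≠ 0) :
    ‖∑ A ∈ fam l d, ZMod.stdAddChar (h * (pv B l A : ZMod Q))‖ ≤ (fam l d).card * θ ^ ((l - 1) / 2) := by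
  classical
  have e1 : ∀ A : Fin (l + 1) → ℕ, ZMod.stdAddChar (h * (pv B l A : ZMod Q)) =
      ∏ j, ZMod.stdAddChar ((h * (cc B l j : ZMod Q)) * (A j : ZMod Q)) := by
    intro A
    rw [← char_prod, pv_eq]
    congr 1
    push_cast
    rw [mul_sum]
    apply sum_congr rfl
    intro j _
    ring
  simp only [e1]
  unfold fam
  rw [← prod_univ_sum _ (fun j a => ZMod.stdAddChar ((h * (cc B l j : ZMod Q)) * ((a : ℕ) : ZMod Q))), norm_prod,
    Fintype.card_piFinset]
  set Bad : Finset (Fin (l + 1)) :=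
    univ.filter fun j => ¬ ((j : ℕ) = 0 ∨ (j : ℕ) = l) ∧ h * (cc B l j : ZMod Q) ≠ 0 with hBad
  have e2 : ∏ j : Fin (l + 1), ‖∑ a ∈ (if (j : ℕ) = 0 ∨ (j : ℕ) = l then {1} else range d),
      ZMod.stdAddChar ((h * (cc B l j : ZMod Q)) * ((a : ℕ) : ZMod Q))‖ ≤
      ∏ j : Fin (l + 1), (((if (j : ℕ) = 0 ∨ (j : ℕ) = l then ({1} : Finset ℕ) else range d).card
        : ℝ) * if j ∈ Bad then θ else 1) := by
    apply prod_le_prod (fun _ _ => norm_nonneg _)
    intro j _
    by_cases hj : j ∈ Bad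
    · rw [if_pos hj]
      have := (mem_filter.1 hj).2
      rw [if_neg this.1, card_range]
      exact hθ _ this.2
    · rw [if_neg hj, mul_one]
      exact char_sum_le _ _
  refine e2.trans ?_
  rw [prod_mul_distrib, prod_ite_mem, univ_inter, prod_const]
  push_cast
  apply mul_le_mul_of_nonneg_left _ (prod_nonneg fun _ _ => Nat.cast_nonneg _)
  apply pow_le_pow_of_le_one h0 h1
  rw [← card_range ((l - 1) / 2)]
  apply card_le_card_of_surjOn (fun j : Fin (l + 1) => ((j : ℕ) - 1) / 2)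
  intro t ht
  rw [mem_coe, mem_range] at ht
  by_contra hcon
  apply hh
  have k1 : h * (cc B l ⟨2 * t + 1, by omega⟩ : ZMod Q) = 0 := by
    by_contra hne
    refine hcon ⟨⟨2 * t + 1, by omega⟩, mem_coe.2 (mem_filter.2 ⟨mem_univ _, ?_, hne⟩), ?_⟩
    · simp only
      omega
    · simp only
      omega
  have k2 : h * (cc B l ⟨2 * t + 2, by omega⟩ : ZMod Q) = 0 := by
    by_contra hne
    refine hcon ⟨⟨2 * t + 2, by omega⟩, mem_coe.2 (mem_filter.2 ⟨mem_univ _, ?_, hne⟩), ?_⟩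
    · simp only
      omega
    · simp only
      omega
  rw [cc_eq _ _ _ (by simp only; omega)] at k1 k2
  push_cast at k1 k2
  apply two_consec hQ h (2 * t + 1) (l - 2 * t - 2)
  · rw [← k1]
    congr 3
    omega
  · rw [← k2]
    congr 3
    omega

theorem equi {Q B d : ℕ} (hQ0 : 0 < Q) (hQ : Q.Coprime (2 * B)) (hd : 2 ≤ d) (r : ZMod Q) :
    Tendsto (fun l => ((((fam l d).filter fun A => (pv B l A : ZMod Q) = r).card : ℝ) /
      (fam l d).card)) atTop (𝓝 (1 / Q)) := by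
  classical
  have : NeZero Q := ⟨hQ0.ne'⟩
  obtain ⟨θ, h0, h1, hθ⟩ := char_sum_unif Q hd
  have hQr : (0 : ℝ) < Q := by exact_mod_cast hQ0
  have key : ∀ l, 1 ≤ l → |((((fam l d).filter fun A => (pv B l A : ZMod Q) = r).card : ℝ) /
      (fam l d).card) - 1 / Q| ≤ θ ^ ((l - 1) / 2) := by
    intro l hl
    have hF : (0 : ℝ) < (fam l d).card := by
      rw [card_fam l d hl]
      have : 0 < d := by omega
      positivity
    set c : ℕ := ((fam l d).filter fun A => (pv B l A : ZMod Q) = r).card with hc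
    have e1 : (Q : ℂ) * c = ∑ h : ZMod Q, ZMod.stdAddChar (-(h * r)) *
        ∑ A ∈ fam l d, ZMod.stdAddChar (h * (pv B l A : ZMod Q)) := by
      simp only [mul_sum, ← AddChar.map_add_eq_mul]
      rw [sum_comm, hc, card_filter]
      push_cast
      rw [mul_sum]
      apply sum_congr rfl
      intro A _
      have := AddChar.sum_mulShift ((pv B l A : ZMod Q) - r) (ZMod.isPrimitive_stdAddChar Q)
      rw [ZMod.card] at this
      simp only [sub_eq_zero] at this
      rw [show (∑ h : ZMod Q, ZMod.stdAddChar (-(h * r) + h * (pv B l A : ZMod Q))) =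
        ∑ h : ZMod Q, ZMod.stdAddChar (h * ((pv B l A : ZMod Q) - r)) from
          sum_congr rfl fun h _ => by congr 1; ring, this]
      split_ifs <;> simp
    rw [← add_sum_erase _ _ (mem_univ 0)] at e1
    simp only [zero_mul, neg_zero, AddChar.map_zero_eq_one, sum_const, nsmul_eq_mul, mul_one,
      one_mul] at e1
    have e2 : ‖(Q : ℂ) * c - (fam l d).card‖ ≤ Q * ((fam l d).card * θ ^ ((l - 1) / 2)) := by
      rw [e1, add_sub_cancel_left]
      refine (norm_sum_le _ _).trans ?_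
      refine (sum_le_card_nsmul _ _ ((fam l d).card * θ ^ ((l - 1) / 2)) ?_).trans ?_
      · intro h hh
        rw [norm_mul, norm_std, one_mul]
        exact fam_char hQ h0 h1.le hθ l (ne_of_mem_erase hh)
      · rw [nsmul_eq_mul]
        apply mul_le_mul_of_nonneg_right _ (by positivity)
        have := card_erase_le (s := (univ : Finset (ZMod Q))) (a := 0)
        rw [card_univ, ZMod.card] at this
        exact_mod_cast this
    have e3 : |(Q : ℝ) * c - (fam l d).card| ≤ Q * ((fam l d).card * θ ^ ((l - 1) / 2)) := by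
      rw [← Real.norm_eq_abs, ← Complex.norm_real]
      push_cast
      exact e2
    have e4 : (c : ℝ) / (fam l d).card - 1 / Q =
        ((Q : ℝ) * c - (fam l d).card) / (Q * (fam l d).card) := by
      field_simp
    rw [e4, abs_div, abs_of_pos (mul_pos hQr hF), div_le_iff₀ (mul_pos hQr hF)]
    linarith
  have hlim : Tendsto (fun l : ℕ => θ ^ ((l - 1) / 2)) atTop (𝓝 0) := by
    apply (tendsto_pow_atTop_nhds_zero_of_lt_one h0 h1).comp
    rw [tendsto_atTop_atTop]
    intro n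
    exact ⟨2 * n + 1, fun l hl => by omega⟩
  rw [← tendsto_sub_nhds_zero_iff]
  apply squeeze_zero_norm' _ hlim
  filter_upwards [eventually_ge_atTop 1] with l hl
  exact key l hl

end Pool.Agent.Lib.VPal
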