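import Pool.Agent.Lib.MP_ce1fc8_nt.Sieve2

set_option autoImplicit false

namespace Pool.Agent.Lib.VPal

open Finset Pool.Agent.Lib.MP_ce1fc8_nt

lemma harm_le (n : ℕ) : ∑ i ∈ Icc 1 n, (1 / i : ℝ) ≤ 1 + Real.log n := by
  have h1 := harmonic_le_one_add_log n
  rw [harmonic_eq_sum_Icc] at h1
  push_cast at h1
  simpa [one_div] using h1

lemma le_harm (n : ℕ) : Real.log (n + 1) ≤ ∑ i ∈ Icc 1 n, (1 / i : ℝ) := by
  have h1 := log_add_one_le_harmonic n
  rw [harmonic_eq_sum_Icc] at h1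
  push_cast at h1
  simpa [one_div] using h1

lemma spaced_sum (A : Finset ℕ) (Q B0 B1 : ℕ) (hQ : 0 < Q) (hB0 : 0 < B0)
    (hA : ∀ a ∈ A, B0 ≤ a ∧ a ≤ B1) (hc : ∀ a ∈ A, ∀ a' ∈ A, a ≡ a' [MOD Q]) :
    ∑ a ∈ A, (1 / a : ℝ) ≤ 1 / B0 + (1 + Real.log B1) / Q := by
  have hl := Real.log_natCast_nonneg B1
  have hQ' : (0 : ℝ) < Q := by exact_mod_cast hQ
  rcases A.eq_empty_or_nonempty with rfl | hne
  · simp only [sum_empty]
    positivity
  set a0 := A.min' hne with ha0
  have h0 := A.min'_mem hne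
  rw [← add_sum_erase _ _ h0]
  apply add_le_add
  · have : (B0 : ℝ) ≤ a0 := by exact_mod_cast (hA _ h0).1
    have : (0 : ℝ) < B0 := by exact_mod_cast hB0
    gcongr
  · have key : ∀ a ∈ A.erase a0, a = a0 + Q * ((a - a0) / Q) ∧ 1 ≤ (a - a0) / Q := by
      intro a ha
      obtain ⟨h1, h2⟩ := mem_erase.1 ha
      have h3 : a0 ≤ a := A.min'_le a h2
      have h4 : Q ∣ a - a0 := (Nat.modEq_iff_dvd' h3).1 (hc _ h0 _ h2)
      have h5 := Nat.mul_div_cancel' h4
      refine ⟨by omega, ?_⟩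
      by_contra h
      have : (a - a0) / Q = 0 := Nat.lt_one_iff.1 (not_le.1 h)
      rw [this] at h5
      omega
    calc ∑ a ∈ A.erase a0, (1 / a : ℝ)
        ≤ ∑ a ∈ A.erase a0, (1 / (((a - a0) / Q : ℕ) : ℝ)) / Q := by
          apply sum_le_sum
          intro a ha
          obtain ⟨h1, h2⟩ := key a ha
          have h3 : (1 : ℝ) ≤ ((a - a0) / Q : ℕ) := by exact_mod_cast h2
          have h4 : (((a - a0) / Q : ℕ) : ℝ) * Q ≤ a := by
            have : (a - a0) / Q * Q ≤ a := by rw [mul_comm]; omega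
            exact_mod_cast this
          rw [div_div]
          gcongr
      _ = (∑ i ∈ (A.erase a0).image (fun a => (a - a0) / Q), (1 / i : ℝ)) / Q := by
          rw [sum_image, sum_div]
          intro a ha a' ha' h
          have h1 := (key a ha).1
          have h2 := (key a' ha').1
          simp only at h
          rw [h] at h1
          omega
      _ ≤ (∑ i ∈ Icc 1 B1, (1 / i : ℝ)) / Q := by
          gcongr
          intro i hi
          obtain ⟨a, ha, rfl⟩ := mem_image.1 hi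
          refine mem_Icc.2 ⟨(key a ha).2, ?_⟩
          exact (Nat.div_le_self _ _).trans ((Nat.sub_le _ _).trans (hA a (mem_erase.1 ha).2).2)
      _ ≤ _ := by gcongr; exact harm_le B1

lemma class_sum_ge (W n : ℕ) [NeZero W] (c : ZMod W) :
    (Real.log (n + 1) - 1) / W ≤
      ∑ m ∈ (Icc 1 (W * n)).filter (fun m : ℕ => (m : ZMod W) = c), (1 / m : ℝ) := by
  have hW : 0 < W := NeZero.pos W
  have hW' : (0 : ℝ) < W := by exact_mod_cast hW
  have hc := ZMod.val_lt c
  rcases Nat.eq_zero_or_pos n with rfl | hn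
  · simp only [Nat.cast_zero, zero_add, Real.log_one, zero_sub, mul_zero]
    exact le_trans (div_nonpos_of_nonpos_of_nonneg (by norm_num) hW'.le)
      (sum_nonneg fun _ _ => by positivity)
  have h1 : Real.log (n + 1) - 1 ≤ ∑ i ∈ Icc 2 n, (1 / i : ℝ) := by
    have h2 := le_harm n
    rw [← insert_Icc_add_one_left_eq_Icc hn, sum_insert (by simp)] at h2
    simp only [Nat.cast_one, div_one] at h2
    linarith
  calc _ ≤ (∑ i ∈ Icc 2 n, (1 / i : ℝ)) / W := by gcongr
    _ ≤ ∑ i ∈ Icc 2 n, (1 / ((W * (i - 1) + c.val : ℕ) : ℝ)) := by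
        rw [sum_div]
        apply sum_le_sum
        intro i hi
        rw [mem_Icc] at hi
        obtain ⟨j, rfl⟩ : ∃ j, i = j + 1 := ⟨i - 1, by omega⟩
        rw [div_div, Nat.add_sub_cancel]
        have h3 : 0 < W * j + c.val := by
          have : 0 < W * j := Nat.mul_pos hW (by omega)
          omega
        have h4 : W * j + c.val ≤ (j + 1) * W := by nlinarith
        apply one_div_le_one_div_of_le (by exact_mod_cast h3)
        exact_mod_cast h4
    _ = ∑ m ∈ (Icc 2 n).image (fun i => W * (i - 1) + c.val), (1 / m : ℝ) := by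
        rw [sum_image]
        intro i hi i' hi' h
        rw [mem_coe, mem_Icc] at hi hi'
        have := Nat.eq_of_mul_eq_mul_left hW (Nat.add_right_cancel h)
        omega
    _ ≤ _ := by
        apply sum_le_sum_of_subset_of_nonneg _ (fun _ _ _ => by positivity)
        intro m hm
        obtain ⟨i, hi, rfl⟩ := mem_image.1 hm
        rw [mem_Icc] at hi
        obtain ⟨j, rfl⟩ : ∃ j, i = j + 1 := ⟨i - 1, by omega⟩
        rw [Nat.add_sub_cancel, mem_filter, mem_Icc]
        have h3 : 0 < W * j := Nat.mul_pos hW (by omega)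
        have h4 : W * (j + 1) ≤ W * n := Nat.mul_le_mul_left _ hi.2
        refine ⟨⟨by omega, by nlinarith⟩, ?_⟩
        simp

/-- The primes in `(a, b]`. -/
def PS (a b : ℕ) : Finset ℕ := (Ioc a b).filter Nat.Prime

lemma mem_PS {a b p : ℕ} : p ∈ PS a b ↔ (a < p ∧ p ≤ b) ∧ p.Prime := by simp [PS]

/-- The sum of the reciprocals of the primes in `(a, b]`. -/
noncomputable def rs (a b : ℕ) : ℝ := ∑ p ∈ PS a b, (1 / p : ℝ)

lemma rs_nonneg (a b : ℕ) : 0 ≤ rs a b := sum_nonneg fun _ _ => by positivity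

lemma rs_add {a b c : ℕ} (h1 : a ≤ b) (h2 : b ≤ c) : rs a c = rs a b + rs b c := by
  unfold rs PS
  rw [← Ioc_union_Ioc_eq_Ioc h1 h2, filter_union, sum_union]
  exact disjoint_filter_filter (Ioc_disjoint_Ioc_of_le le_rfl)

lemma rs_step {x : ℕ} (hx : 10 ^ 8 ≤ x) : 1 / (2 * Real.log ((16 * x : ℕ) : ℝ)) ≤ rs x (16 * x) := by
  have hx' : (10 : ℝ) ^ 8 ≤ x := by exact_mod_cast hx
  set n := 16 * x with hn
  have hn' : (n : ℝ) = 16 * x := by rw [hn]; push_cast; ring
  have h1 := Chebyshev.theta_ge n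
  have h2 := Chebyshev.theta_le_log4_mul_x (x := x) (by positivity)
  have h3 : Chebyshev.theta n = Chebyshev.theta x + ∑ p ∈ PS x n, Real.log p := by
    unfold Chebyshev.theta PS
    rw [Nat.floor_natCast, Nat.floor_natCast, ← Ioc_union_Ioc_eq_Ioc (Nat.zero_le x)
      (show x ≤ n by omega), filter_union, sum_union]
    exact disjoint_filter_filter (Ioc_disjoint_Ioc_of_le le_rfl)
  set s := (n : ℝ) ^ (1 / 4 : ℝ) with hs
  have hn0 : (0 : ℝ) < n := by rw [hn']; positivity
  have hs0 : 0 < s := by positivity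
  have hs4 : s ^ 4 = n := by
    rw [hs, ← Real.rpow_natCast, ← Real.rpow_mul hn0.le]; norm_num
  have hs2 : √(n : ℝ) = s ^ 2 := by
    rw [← hs4, show s ^ 4 = (s ^ 2) ^ 2 by ring, Real.sqrt_sq (by positivity)]
  have hs100 : 100 ≤ s := by
    by_contra hc
    push Not at hc
    have := pow_lt_pow_left₀ hc hs0.le (show 4 ≠ 0 by norm_num)
    rw [hs4, hn'] at this
    linarith
  have h4 : Real.log n ≤ 4 * s := by
    have := Real.log_le_rpow_div hn0.le (show (0 : ℝ) < 1 / 4 by norm_num)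
    linarith
  have h5 : Real.log (n + 1) ≤ 1 + 4 * s := by
    have e1 : Real.log (n + 1) ≤ Real.log (2 * n) := by
      apply Real.log_le_log (by positivity)
      rw [hn']
      linarith
    rw [Real.log_mul two_ne_zero hn0.ne'] at e1
    linarith [Real.log_two_lt_d9]
  have h6 : Real.log 4 = 2 * Real.log 2 := by
    rw [show (4 : ℝ) = 2 ^ 2 by norm_num, Real.log_pow]; norm_num
  have h7 : 2 * s ^ 2 * Real.log n ≤ 8 * s ^ 3 := by nlinarith [sq_nonneg s]
  have h8 : 8 * s ^ 3 + 1 + 4 * s ≤ s ^ 4 / 10 := by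
    have : 100 * s ^ 3 ≤ s ^ 4 := by nlinarith [pow_pos hs0 3]
    have : 10000 * s ≤ s ^ 3 := by nlinarith [mul_pos hs0 hs0]
    nlinarith
  have h9 : 8 * (x : ℝ) ≤ ∑ p ∈ PS x n, Real.log p := by
    rw [hs2] at h1
    rw [hs4] at h8
    have := Real.log_two_gt_d9
    rw [h6] at h2
    nlinarith
  have hl : 0 < Real.log n := Real.log_pos (by rw [hn']; linarith)
  have h10 : ∑ p ∈ PS x n, Real.log p ≤ (n * Real.log n) * rs x n := by
    unfold rs
    rw [mul_sum]
    apply sum_le_sum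
    intro p hp
    obtain ⟨⟨-, h⟩, hp⟩ := mem_PS.1 hp
    have hp0 : (0 : ℝ) < p := by exact_mod_cast hp.pos
    have hpn : (p : ℝ) ≤ n := by exact_mod_cast h
    rw [mul_one_div, le_div_iff₀ hp0, mul_comm]
    have := Real.log_le_log hp0 hpn
    have := Real.log_natCast_nonneg p
    gcongr
  rw [div_le_iff₀ (by positivity)]
  rw [hn'] at h10
  rw [hn']
  have hx0 : (0 : ℝ) < x := by linarith
  apply le_of_mul_le_mul_left _ (show (0 : ℝ) < 8 * x by positivity)
  linarith

lemma rs_iter {A : ℕ} (hA : 10 ^ 8 ≤ A) (s X : ℕ) (hX : 16 ^ s * A ≤ X) :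
    s / (2 * Real.log X) ≤ rs A (16 ^ s * A) := by
  induction s with
  | zero => simp [rs_nonneg]
  | succ s ih =>
    have h0 : A ≤ 16 ^ s * A := Nat.le_mul_of_pos_left _ (by positivity)
    have h1 : 16 ^ (s + 1) * A = 16 * (16 ^ s * A) := by ring
    rw [h1] at hX ⊢
    rw [rs_add h0 (show 16 ^ s * A ≤ 16 * (16 ^ s * A) by omega)]
    have h2 := ih (by omega)
    have h3 := rs_step (hA.trans h0)
    have h4 : (1 : ℝ) < ((16 * (16 ^ s * A) : ℕ) : ℝ) := by exact_mod_cast (by omega)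
    have h5 : 1 / (2 * Real.log X) ≤ 1 / (2 * Real.log ((16 * (16 ^ s * A) : ℕ) : ℝ)) := by
      have := Real.log_pos h4
      gcongr
    push_cast at *
    rw [add_div]
    linarith

lemma rs_pow {t : ℕ} (ht : 7 ≤ t) {a : ℕ} (ha : 1 ≤ a) (c : ℕ) :
    c / (6 * ((a : ℝ) + c)) ≤ rs ((16 ^ t) ^ a) ((16 ^ t) ^ (a + c)) := by
  have h1 : 10 ^ 8 ≤ (16 ^ t) ^ a :=
    le_trans (le_trans (by norm_num) (Nat.pow_le_pow_right (by norm_num) ht))
      (Nat.le_self_pow (by omega) _)
  have h2 : (16 ^ t) ^ (a + c) = 16 ^ (t * c) * (16 ^ t) ^ a := by ring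
  have h3 := rs_iter h1 (t * c) _ h2.ge
  rw [← h2] at h3
  refine le_trans ?_ h3
  push_cast
  rw [Real.log_pow, Real.log_pow, show (16 : ℝ) = 2 ^ 4 by norm_num, Real.log_pow]
  push_cast
  have ht' : (7 : ℝ) ≤ t := by exact_mod_cast ht
  have ha' : (1 : ℝ) ≤ a := by exact_mod_cast ha
  have hc' : (0 : ℝ) ≤ c := by positivity
  have hl := Real.log_two_lt_d9
  have hl' := Real.log_two_gt_d9
  rw [div_le_div_iff₀ (by positivity) (by positivity)]
  have : 0 ≤ (c : ℝ) * t * (a + c) := by positivity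
  nlinarith

lemma card_root (p q a : ℕ) (hp : 0 < p) (h : p.Coprime q) :
    ((range p).filter (fun r => p ∣ q * r + a)).card = 1 := by
  have : NeZero p := ⟨hp.ne'⟩
  have hu : IsUnit (q : ZMod p) := (ZMod.isUnit_iff_coprime q p).2 h.symm
  obtain ⟨u, hu⟩ := hu
  rw [card_eq_one]
  refine ⟨((u⁻¹ : (ZMod p)ˣ) * (-(a : ZMod p))).val, ?_⟩
  ext r
  rw [mem_filter, mem_range, mem_singleton, ← ZMod.natCast_eq_zero_iff]
  push_cast
  rw [← hu]
  constructor
  · rintro ⟨h1, h2⟩
    rw [← ZMod.val_cast_of_lt h1]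
    congr 1
    rw [eq_comm, Units.inv_mul_eq_iff_eq_mul]
    linear_combination -h2
  · rintro rfl
    refine ⟨ZMod.val_lt _, ?_⟩
    rw [ZMod.natCast_zmod_val, Units.mul_inv_cancel_left]
    ring

lemma eul_le {q : ℕ} (hq : q.Prime) : eul (2 * q) ≤ 4 := by
  unfold eul
  have h1 : (2 * q).primeFactors.card ≤ 2 := by
    rw [Nat.primeFactors_mul two_ne_zero hq.ne_zero, Nat.prime_two.primeFactors, hq.primeFactors]
    exact (card_union_le _ _).trans (by simp)
  refine (prod_le_prod (g := fun _ => (2 : ℝ)) ?_ ?_).trans ?_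
  · intro p hp
    have hp2 : (2 : ℝ) ≤ p := by exact_mod_cast (Nat.prime_of_mem_primeFactors hp).two_le
    have h1 : 1 / (p : ℝ) ≤ 1 / 2 := by gcongr
    exact inv_nonneg.2 (by linarith)
  · intro p hp
    have hp2 : (2 : ℝ) ≤ p := by exact_mod_cast (Nat.prime_of_mem_primeFactors hp).two_le
    have h1 : 1 / (p : ℝ) ≤ 1 / 2 := by gcongr
    rw [inv_le_comm₀ (by linarith) two_pos]
    linarith
  · rw [prod_const]
    calc (2 : ℝ) ^ _ ≤ 2 ^ 2 := pow_le_pow_right₀ (by norm_num) h1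
      _ = 4 := by norm_num

theorem brun_titch {q : ℕ} (hq : q.Prime) (a z X : ℕ) (hz : 1 ≤ z) (E : Finset ℕ)
    (hE : E ⊆ range X) (hEp : ∀ n ∈ E, (q * n + a).Prime ∧ z < q * n + a) :
    (E.card : ℝ) ≤ 4 * X / Real.log (z + 1) + 2 * (z : ℝ) ^ 4 := by
  classical
  set P := (range (z + 1)).filter (fun p => p.Prime ∧ ¬ p ∣ 2 * q) with hP
  set hh : ℕ → ℝ := fun p => 1 / ((p : ℝ) - 1) with hhh
  have hPp : ∀ p ∈ P, p.Prime := fun p hp => (mem_filter.mp hp).2.1
  have hP2 : ∀ p ∈ P, (2 : ℝ) ≤ p := fun p hp => by exact_mod_cast (hPp p hp).two_le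
  have hcount : ∀ p ∈ P, ∀ u v : ℝ, ∑ r ∈ range p, (if p ∣ q * r + a then u else v) =
      u + ((p : ℝ) - 1) * v := by
    intro p hp u v
    have h1 := card_root p q a (hPp p hp).pos ((Nat.Prime.coprime_iff_not_dvd (hPp p hp)).2
      fun h => (mem_filter.mp hp).2.2 (h.mul_left 2))
    have h2 := card_filter_add_card_filter_not (s := range p) (fun r => p ∣ q * r + a)
    rw [h1, card_range] at h2
    have h3 : (((range p).filter (fun r => ¬ p ∣ q * r + a)).card : ℝ) = p - 1 := by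
      have h4 := congrArg (Nat.cast : ℕ → ℝ) h2
      push_cast at h4
      linarith
    rw [sum_ite, sum_const, sum_const, nsmul_eq_mul, nsmul_eq_mul, h1, h3]
    simp
  have hmain := sieve_abstract P hPp (fun p n => if p ∣ q * n + a then -1 else hh p) hh
    (by
      intro p _ n
      have : p ∣ q * (n + p) + a ↔ p ∣ q * n + a := by
        rw [mul_add, add_right_comm]
        exact (Nat.dvd_add_iff_left (dvd_mul_left p q)).symm
      simp only [this])
    (by
      intro p hp n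
      have := hP2 p hp
      split_ifs
      · simp
      · simp only [hhh]
        rw [abs_of_nonneg (div_nonneg (by linarith) (by linarith)), div_le_one (by linarith)]
        linarith)
    (by
      intro p hp
      have := hP2 p hp
      rw [hcount p hp]
      simp only [hhh]
      have : (p : ℝ) - 1 ≠ 0 := by linarith
      field_simp
      ring)
    (by
      intro p hp
      have := hP2 p hp
      have e : ∀ r, (if p ∣ q * r + a then (-1 : ℝ) else hh p) *
          (if p ∣ q * r + a then (-1 : ℝ) else hh p) =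
          if p ∣ q * r + a then (1 : ℝ) else hh p * hh p := by
        intro r
        split_ifs <;> simp
      simp only [e]
      rw [hcount p hp]
      simp only [hhh]
      have : (p : ℝ) - 1 ≠ 0 := by linarith
      field_simp
      ring)
    X z E hE
    (by
      intro n hn p hp
      rw [if_neg]
      intro hd
      have h1 := (Nat.prime_dvd_prime_iff_eq (hPp p hp) (hEp n hn).1).mp hd
      have h2 := mem_range.mp (mem_filter.mp hp).1
      have h3 := (hEp n hn).2
      omega)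
  have hG1 := Gsum_lower 1 (2 * q) z (mul_ne_zero two_ne_zero hq.ne_zero) le_rfl
    (fun p hp _ => hp.two_le)
  simp only [pow_one, Nat.cast_one] at hG1
  rw [← hP, ← hhh] at hG1
  have hG2 : 1 ≤ Gsum hh P z := by
    unfold Gsum
    have h1 : (∅ : Finset ℕ) ∈ P.powerset.filter (fun D => ∏ p ∈ D, p ≤ z) := by
      simp [hz]
    have h2 := single_le_sum (f := fun D : Finset ℕ => ∏ p ∈ D, hh p) (fun D hD => by
      apply prod_nonneg
      intro p hp
      have := hP2 p (mem_powerset.mp (mem_filter.mp hD).1 hp)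
      exact div_nonneg (by linarith) (by linarith)) h1
    simpa using h2
  set G := Gsum hh P z with hG
  have hlog : 0 < Real.log ((z : ℝ) + 1) := by
    apply Real.log_pos
    have : (1 : ℝ) ≤ z := by exact_mod_cast hz
    linarith
  have he1 := one_le_eul (2 * q)
  have he2 := eul_le hq
  have h1 : (E.card : ℝ) ≤ X / G + 2 * (z : ℝ) ^ 4 := by
    have h2 : (E.card : ℝ) * G ^ 2 ≤ (X / G + 2 * (z : ℝ) ^ 4) * G ^ 2 := by
      refine hmain.trans ?_
      have h3 : 1 ≤ G ^ 2 := one_le_pow₀ hG2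
      have h4 : (X / G + 2 * (z : ℝ) ^ 4) * G ^ 2 = X * G + 2 * (z : ℝ) ^ 4 * G ^ 2 := by
        field_simp
      rw [h4]
      have h5 : 2 * (z : ℝ) ^ 4 * 1 ≤ 2 * (z : ℝ) ^ 4 * G ^ 2 := by gcongr
      linarith
    exact le_of_mul_le_mul_right h2 (by positivity)
  have h2 : (X : ℝ) / G ≤ 4 * X / Real.log (z + 1) := by
    calc (X : ℝ) / G ≤ X / (Real.log ((z : ℝ) + 1) / 4) := by
          apply div_le_div_of_nonneg_left (by positivity) (by positivity)
          exact le_trans (by gcongr) hG1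
      _ = _ := by field_simp
  linarith

theorem class_primes_le {q s E : ℕ} (hq : q.Prime) (hs : 1 ≤ s) (hqz : q ≤ 2 ^ s) (A : Finset ℕ)
    (hA : A ⊆ PS (2 ^ (8 * s)) (2 ^ (8 * s * E))) (hc : ∀ a ∈ A, ∀ a' ∈ A, a ≡ a' [MOD q]) :
    ∑ a ∈ A, (1 / a : ℝ) ≤ 112 * E / q := by
  have hq0 : (0 : ℝ) < q := by exact_mod_cast hq.pos
  have hs0 : (1 : ℝ) ≤ s := by exact_mod_cast hs
  have hmap : ∀ a ∈ A, Nat.log 2 a ∈ Icc (8 * s) (8 * s * E) := by
    intro a ha
    obtain ⟨⟨h1, h2⟩, -⟩ := mem_PS.1 (hA ha)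
    refine mem_Icc.2 ⟨Nat.le_log_of_pow_le (by norm_num) h1.le, ?_⟩
    exact (Nat.log_mono_right h2).trans (Nat.log_pow (by norm_num) _).le
  rw [← sum_fiberwise_of_maps_to hmap]
  refine (sum_le_card_nsmul _ _ (14 / ((q : ℝ) * s)) ?_).trans ?_
  · intro u hu
    rw [mem_Icc] at hu
    set F := A.filter fun a => Nat.log 2 a = u with hF
    have hFr : ∀ a ∈ F, 2 ^ u ≤ a ∧ a < 2 ^ (u + 1) := by
      intro a ha
      obtain ⟨h1, rfl⟩ := mem_filter.1 ha
      exact ⟨Nat.pow_log_le_self 2 (mem_PS.1 (hA h1)).2.ne_zero,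
        Nat.lt_pow_succ_log_self (by norm_num) a⟩
    have h2u : (0 : ℝ) < 2 ^ u := by positivity
    have h1 : ∑ a ∈ F, (1 / a : ℝ) ≤ F.card * (1 / 2 ^ u) := by
      rw [← nsmul_eq_mul]
      apply sum_le_card_nsmul
      intro a ha
      apply one_div_le_one_div_of_le h2u
      exact_mod_cast (hFr a ha).1
    refine h1.trans ?_
    rcases F.eq_empty_or_nonempty with h | hne
    · rw [h]; simp only [card_empty, Nat.cast_zero, zero_mul]; positivity
    set a0 := F.min' hne with ha0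
    have h0 := F.min'_mem hne
    have key : ∀ a ∈ F, a = q * ((a - a0) / q) + a0 := by
      intro a ha
      have h3 : a0 ≤ a := F.min'_le a ha
      have h4 : q ∣ a - a0 :=
        (Nat.modEq_iff_dvd' h3).1 (hc _ (mem_filter.1 h0).1 _ (mem_filter.1 ha).1)
      have h5 := Nat.mul_div_cancel' h4
      omega
    have hsu : 2 ^ s ≤ 2 ^ u := Nat.pow_le_pow_right (by norm_num) (by omega)
    have h2 : F.card = (F.image fun a => (a - a0) / q).card := by
      rw [card_image_of_injOn]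
      intro a ha a' ha' h
      have h1 := key a ha
      have h2 := key a' ha'
      simp only at h
      rw [h] at h1
      omega
    have h3 := brun_titch hq a0 (2 ^ s) (2 ^ u / q + 1) Nat.one_le_two_pow
      (F.image fun a => (a - a0) / q) (by
        intro n hn
        obtain ⟨a, ha, rfl⟩ := mem_image.1 hn
        rw [mem_range, Nat.lt_succ_iff]
        apply Nat.div_le_div_right
        have := hFr a ha
        have := hFr a0 h0
        rw [pow_succ] at *
        omega) (by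
        intro n hn
        obtain ⟨a, ha, rfl⟩ := mem_image.1 hn
        rw [← key a ha]
        obtain ⟨⟨h1, -⟩, h2⟩ := mem_PS.1 (hA (mem_filter.1 ha).1)
        exact ⟨h2, lt_of_le_of_lt (Nat.pow_le_pow_right (by norm_num) (by omega)) h1⟩)
    rw [← h2] at h3
    have h4 : ((2 ^ u / q + 1 : ℕ) : ℝ) ≤ 2 * 2 ^ u / q := by
      have e1 : ((2 ^ u / q : ℕ) : ℝ) ≤ 2 ^ u / q := by
        have := Nat.cast_div_le (α := ℝ) (m := 2 ^ u) (n := q)
        push_cast at this
        exact this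
      have e2 : (1 : ℝ) ≤ 2 ^ u / q := by
        rw [one_le_div hq0]
        exact_mod_cast hqz.trans hsu
      push_cast
      rw [mul_div_assoc]
      linarith
    have h5 : (2 / 3 : ℝ) * s ≤ Real.log (((2 ^ s : ℕ) : ℝ) + 1) := by
      have e1 : Real.log ((2 : ℝ) ^ s) ≤ Real.log (((2 ^ s : ℕ) : ℝ) + 1) := by
        apply Real.log_le_log (by positivity)
        push_cast
        linarith
      rw [Real.log_pow] at e1
      nlinarith [Real.log_two_gt_d9]
    have h6 : 4 * ((2 ^ u / q + 1 : ℕ) : ℝ) / Real.log (((2 ^ s : ℕ) : ℝ) + 1) ≤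
        4 * (2 * 2 ^ u / q) / ((2 / 3 : ℝ) * s) := by gcongr
    have h7 : ((2 ^ s : ℕ) : ℝ) ^ 4 * (q * s) ≤ 2 ^ u := by
      have e1 : s ≤ 2 ^ s := Nat.lt_two_pow_self.le
      have e2 : (2 ^ s) ^ 4 * (q * s) ≤ 2 ^ u := by
        calc (2 ^ s) ^ 4 * (q * s) ≤ (2 ^ s) ^ 4 * (2 ^ s * 2 ^ s) := by gcongr
          _ = 2 ^ (6 * s) := by ring
          _ ≤ 2 ^ u := Nat.pow_le_pow_right (by norm_num) (by omega)
      exact_mod_cast e2
    have h8 : ((2 ^ s : ℕ) : ℝ) ^ 4 ≤ 2 ^ u / (q * s) := by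
      rw [le_div_iff₀ (by positivity)]; exact h7
    have h9 : 4 * (2 * 2 ^ u / (q : ℝ)) / ((2 / 3 : ℝ) * s) = 12 * (2 ^ u / (q * s)) := by
      field_simp; ring
    rw [mul_one_div, div_le_iff₀ h2u]
    have h10 : 14 / ((q : ℝ) * s) * 2 ^ u = 14 * (2 ^ u / (q * s)) := by ring
    linarith
  · rw [nsmul_eq_mul, Nat.card_Icc]
    have h1 : ((8 * s * E + 1 - 8 * s : ℕ) : ℝ) ≤ 8 * s * E := by
      have : 8 * s * E + 1 - 8 * s ≤ 8 * s * E := by omega
      exact_mod_cast this
    calc _ ≤ 8 * s * E * (14 / ((q : ℝ) * s)) := by gcongr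
      _ = _ := by field_simp; ring

end Pool.Agent.Lib.VPal
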