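import Pool.Agent.Lib.MP_200139_nt.Select

set_option autoImplicit false

namespace Pool.Agent.Lib.VPal

open Finset Filter Topology

lemma markov {Y S : Finset ℕ} {W K : ℕ} {Λ ρ δ γ : ℝ} (hδ : 0 < δ) (hΛ0 : 0 ≤ Λ)
    (hΛ : ∑ k ∈ BB W K, (1 / k : ℝ) ≤ Λ) (ht : 2 ≤ ρ * ∑ y ∈ Y, (1 / y : ℝ))
    (h1 : (ρ * ∑ y ∈ Y, (1 / y : ℝ)) ^ 2 * Λ / 2 ≤ ∑ b ∈ BB W K, mu Y S b * (1 / b : ℝ))
    (h2 : ∑ b ∈ BB W K, (kap Y S b + eta Y S b) * (1 / b : ℝ) ≤ γ * Λ) (h3 : γ ≤ ρ ^ 2 * δ / 8)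
    (hsel : ∀ b ∈ BB W K, 1 / 2 ≤ mu Y S b → kap Y S b + eta Y S b ≤ δ → SqfBase b) :
    ρ ^ 2 * Λ / 4 ≤ ∑ b ∈ BB W K, Set.indicator {b | SqfBase b} (fun b : ℕ => (1 / b : ℝ)) b := by
  set L := ∑ y ∈ Y, (1 / y : ℝ) with hL
  have hL0 : 0 ≤ L := sum_nonneg fun _ _ => by positivity
  have hL1 : 0 < L := by
    rcases hL0.eq_or_lt with h | h
    · rw [← h] at ht; linarith
    · exact h
  have h4 : ∀ b ∈ BB W K, mu Y S b * (1 / b : ℝ) ≤
      L ^ 2 * Set.indicator {b | SqfBase b} (fun b : ℕ => (1 / b : ℝ)) b +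
      (ρ * L) ^ 2 / 8 * (1 / b : ℝ) + L ^ 2 / δ * ((kap Y S b + eta Y S b) * (1 / b : ℝ)) := by
    intro b hb
    have k1 : mu Y S b ≤ L ^ 2 := by
      rw [← sum_wt]
      exact sum_le_sum_of_subset_of_nonneg (filter_subset _ _) fun e _ _ => wt_nonneg e
    have k0 : 0 ≤ kap Y S b + eta Y S b := add_nonneg (sum_nonneg fun e _ =>
      mul_nonneg (wt_nonneg e) (sum_nonneg fun e _ => wt_nonneg e)) (sum_nonneg fun e _ => wt_nonneg e)
    have k2 : (0 : ℝ) ≤ 1 / b := by positivity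
    have k3 : 0 ≤ (ρ * L) ^ 2 / 8 * (1 / b : ℝ) := by positivity
    have k4 : 0 ≤ L ^ 2 / δ * ((kap Y S b + eta Y S b) * (1 / b : ℝ)) := by positivity
    by_cases hs : SqfBase b
    · rw [Set.indicator_of_mem (show b ∈ {b | SqfBase b} from hs)]
      have := mul_le_mul_of_nonneg_right k1 k2
      linarith
    · rw [Set.indicator_of_notMem (show b ∉ {b | SqfBase b} from hs), mul_zero, zero_add]
      by_cases hm : 1 / 2 ≤ mu Y S b
      · have k5 : δ ≤ kap Y S b + eta Y S b := le_of_lt (not_le.1 fun h => hs (hsel b hb hm h))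
        have k6 : mu Y S b ≤ L ^ 2 / δ * (kap Y S b + eta Y S b) := by
          refine k1.trans ?_
          rw [div_mul_eq_mul_div, le_div_iff₀ hδ]
          gcongr
        have := mul_le_mul_of_nonneg_right k6 k2
        linarith
      · have k6 : mu Y S b ≤ (ρ * L) ^ 2 / 8 := by nlinarith
        have := mul_le_mul_of_nonneg_right k6 k2
        linarith
  have h5 := h1.trans (sum_le_sum h4)
  rw [sum_add_distrib, sum_add_distrib, ← mul_sum, ← mul_sum, ← mul_sum] at h5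
  have h6 : (ρ * L) ^ 2 / 8 * ∑ k ∈ BB W K, (1 / k : ℝ) ≤ (ρ * L) ^ 2 / 8 * Λ := by gcongr
  have h7 : L ^ 2 / δ * ∑ b ∈ BB W K, (kap Y S b + eta Y S b) * (1 / b : ℝ) ≤
      L ^ 2 / δ * (ρ ^ 2 * δ / 8 * Λ) :=
    mul_le_mul_of_nonneg_left (h2.trans (mul_le_mul_of_nonneg_right h3 hΛ0)) (by positivity)
  have h8 : L ^ 2 / δ * (ρ ^ 2 * δ / 8 * Λ) = (ρ * L) ^ 2 / 8 * Λ := by field_simp
  apply le_of_mul_le_mul_left _ (pow_pos hL1 2)
  nlinarith

lemma beta_sum {w z T X : ℕ} (hw : 0 < w) (hz : 0 < z) {a c : ℝ} (ha : 0 ≤ a) (hc : 0 ≤ c) :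
    ∑ q ∈ PS w X, (if q ≤ z then a / q else 1 / T + c / q) / (q : ℝ) ≤
      a / w + (1 + Real.log X) / T + c / z := by
  have h1 : ∑ q ∈ PS w X, (if q ≤ z then a / q else 1 / T + c / q) / (q : ℝ) ≤
      ∑ q ∈ PS w X, (a * (1 / (q : ℝ) ^ 2) + 1 / T * (1 / q : ℝ) +
        c * if z < q then 1 / (q : ℝ) ^ 2 else 0) := by
    apply sum_le_sum
    intro q _
    by_cases h : q ≤ z
    · rw [if_pos h, if_neg (not_lt.2 h), div_div, ← sq, mul_one_div, mul_zero, add_zero]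
      exact le_add_of_nonneg_right (by positivity)
    · rw [if_neg h, if_pos (not_le.1 h), add_div, div_div c, ← sq, mul_one_div c, add_assoc,
        mul_one_div (1 / (T : ℝ))]
      exact le_add_of_nonneg_left (by positivity)
  refine h1.trans ?_
  rw [sum_add_distrib, sum_add_distrib, ← mul_sum, ← mul_sum, ← mul_sum, ← sum_filter]
  have h2 := sum_inv_sq_le hw (PS w X) fun p hp => (mem_PS.1 hp).1.1
  have h3 := sum_inv_sq_le hz ((PS w X).filter (z < ·)) fun p hp => (mem_filter.1 hp).2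
  have h4 : ∑ q ∈ PS w X, (1 / q : ℝ) ≤ 1 + Real.log X :=
    (sum_le_sum_of_subset_of_nonneg (fun q hq => mem_Icc.2
      ⟨(mem_PS.1 hq).2.pos, (mem_PS.1 hq).1.2⟩) fun _ _ _ => by positivity).trans (harm_le X)
  rw [div_eq_mul_one_div a, div_eq_mul_one_div c, div_eq_mul_one_div (1 + Real.log X),
    mul_comm (1 + Real.log X)]
  gcongr

theorem step {F E G l s : ℕ} {ρ γ : ℝ} (hF : 1 ≤ F) (hE : E = 125 * F) (hG : G = 5 * E + 2)
    (hρ : ρ = (1 / 1500) ^ 125 / 505) (hEρ : 2 ≤ ρ * ((Real.log (E + 1) - 1) / 6))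
    (hγ : ((56 * E) ^ 3 + 2 * (56 * E)) * γ ≤ ρ ^ 2 * (1 / (1024 * (E : ℝ) ^ 2 * G)) / 8)
    (hl : 8032 * E * G ≤ l) (hl2 : 112 * E / (2 ^ l : ℕ) ≤ γ / 2)
    (hs1 : 8 * (2 ^ l).factorial + 8 ≤ s) (hs2 : 64 * E * G ≤ s)
    (hs3 : 3 * (G.factorial * (4 * E) ^ G) ≤ s) (hs4 : 26 * E * (s * (1 / 2 : ℝ) ^ s) ≤ γ / 2) :
    ρ ^ 2 * (505 * Real.log (2 ^ (8 * s * E) : ℕ) / (2 ^ l).factorial) / 4 ≤
      ∑ b ∈ Icc 2 ((2 ^ (8 * s * E)) ^ 503),
        Set.indicator {b | SqfBase b} (fun b : ℕ => (1 / b : ℝ)) b := by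
  have hE1 : 125 ≤ E := by omega
  have hEG : E ≤ E * G := Nat.le_mul_of_pos_right _ (by omega)
  have hGE : G ≤ E * G := Nat.le_mul_of_pos_left _ (by omega)
  rw [mul_assoc] at hl hs2
  set w := 2 ^ l with hw
  set W := w.factorial with hW
  have hw4 : 4 ≤ w := Nat.pow_le_pow_right (n := 2) (by norm_num) (show 2 ≤ l by omega)
  have hwW : w ≤ W := Nat.self_le_factorial w
  set T := 2 ^ (8 * s) with hT
  set U := 2 ^ (8 * s * E) with hU
  have hUT : U = T ^ E := by rw [hU, hT, ← pow_mul]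
  have hT16 : T = 16 ^ (2 * s) := by
    rw [hT, show 16 = 2 ^ 4 by norm_num, ← pow_mul]; congr 1; ring
  have hV : (16 ^ (4 * s * F)) ^ 125 = U ^ 2 := by
    rw [hU, show 16 = 2 ^ 4 by norm_num, ← pow_mul, ← pow_mul, ← pow_mul, hE]; congr 1; ring
  have hsz : s < 2 ^ s := Nat.lt_two_pow_self
  have hzT : 2 ^ s ≤ T := Nat.pow_le_pow_right (by norm_num) (by omega)
  have hTU : T ≤ U := by rw [hUT]; exact Nat.le_self_pow (by omega) T
  have hsE : s ≤ s * E := Nat.le_mul_of_pos_right _ (by omega)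
  have hU1 : 1 < U := by omega
  set L := Real.log U with hL
  have hLe : L = (8 * s * E : ℕ) * Real.log 2 := by
    rw [hL, hU, Nat.cast_pow, Real.log_pow, Nat.cast_ofNat]
  have hLs : (s : ℝ) ≤ L ∧ L ≤ 8 * s * E := by
    have e1 : (s : ℝ) ≤ s * E := by exact_mod_cast hsE
    have e2 : (0 : ℝ) ≤ s := by positivity
    have e3 := Real.log_two_gt_d9
    have e4 := Real.log_two_lt_d9
    rw [hLe]
    push_cast
    constructor <;> nlinarith
  have hsW : 8 * (W : ℝ) + 8 ≤ s := by exact_mod_cast hs1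
  have hW0 : (0 : ℝ) < W := by exact_mod_cast w.factorial_pos
  have hL2 : ∀ k : ℕ, Real.log ((U ^ k : ℕ) : ℝ) = k * L := fun k => by
    rw [Nat.cast_pow, Real.log_pow]
  obtain ⟨S, hS, hcls⟩ := exists_smooth (t := 4 * s * F) (r := 125) hw4
    (le_trans (by omega) (Nat.le_mul_of_pos_right _ hF)) (by norm_num)
    (by rw [hV, hL2]; push_cast; linarith [hLs.1]) 125 le_rfl
  rw [hV, hL2] at hcls
  have hS' : ∀ n ∈ S, Squarefree n ∧ (∀ p, p.Prime → p ∣ n → w < p ∧ p ≤ U ^ 4) ∧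
      U ^ 250 ≤ n ∧ n ≤ U ^ 502 ∧ ∃ p, p.Prime ∧ p ∣ n ∧ U ^ 2 < p := by
    intro n hn
    obtain ⟨k1, k2, k3, k4, k5, k6⟩ := hS n hn
    rw [show 125 + 125 = 125 * 2 by norm_num, pow_mul, hV, ← pow_mul] at k3
    rw [pow_mul, hV, ← pow_mul] at k4
    rw [show 125 + 2 * 125 * 125 = 125 * 251 by norm_num, pow_mul, hV, ← pow_mul] at k5
    rw [hV] at k6
    exact ⟨k1, fun p hp hd => ⟨lt_of_coprime_factorial k2 hp hd, k3 p hp hd⟩, k4, k5,
      k6 (by norm_num)⟩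
  set Y := PS T U with hY
  have hY' : ∀ y ∈ Y, y.Prime ∧ T < y ∧ y ≤ U := fun y hy =>
    ⟨(mem_PS.1 hy).2, (mem_PS.1 hy).1⟩
  have hYW : ∀ y ∈ Y, y.Coprime W := fun y hy =>
    coprime_factorial (hY' y hy).1 (by have := (hY' y hy).2.1; omega)
  have hρ0 : 0 < ρ := by rw [hρ]; positivity
  have hL' : 2 ≤ ρ * ∑ y ∈ Y, (1 / y : ℝ) := by
    have := rs_ge (t := 2 * s) (by omega) E (by omega)
    rw [← hT16, ← hUT] at this
    exact hEρ.trans (mul_le_mul_of_nonneg_left this hρ0.le)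
  have hL'' : ∑ y ∈ Y, (1 / y : ℝ) ≤ 56 * E := by
    refine (class_primes_le (q := 2) (s := s) (E := E) Nat.prime_two (by omega) (by omega) Y
      Subset.rfl fun a ha a' ha' => ?_).trans (le_of_eq (by push_cast; ring))
    have k : ∀ a ∈ Y, a % 2 = 1 := fun a ha =>
      (hY' a ha).1.eq_two_or_odd.resolve_left (by have := (hY' a ha).2.1; omega)
    exact (k a ha).trans (k a' ha').symm
  have hΛ0 : 0 ≤ 505 * L / W := by have := hLs.1; have : (0 : ℝ) ≤ s := by positivity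
                                   apply div_nonneg <;> linarith
  have hΛ : ∑ k ∈ BB W (U ^ 503), (1 / k : ℝ) ≤ 505 * L / W := by
    refine (spaced_sum _ W W (U ^ 503) w.factorial_pos w.factorial_pos (fun a ha => ?_)
      fun a ha a' ha' => ((Nat.modEq_zero_iff_dvd).2 (mem_BB.1 ha).2).trans
        ((Nat.modEq_zero_iff_dvd).2 (mem_BB.1 ha').2).symm).trans ?_
    · obtain ⟨⟨k1, k2⟩, k3⟩ := mem_BB.1 ha
      exact ⟨Nat.le_of_dvd k1 k3, k2⟩
    · rw [hL2, ← add_div]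
      push_cast
      gcongr
      linarith [hLs.1]
  have hB : ∀ b e, e ∈ EE Y S b → U ^ 248 ≤ b := by
    intro b e he
    obtain ⟨⟨k1, k2⟩, -, k3, -⟩ := mem_EE.1 he
    have f1 := (hS' _ k3).2.2.1
    by_contra hc
    have f2 : NN b e ≤ U * (b + 1) :=
      Nat.add_le_add (Nat.mul_le_mul_right b (hY' _ k1).2.2) (hY' _ k2).2.2
    have f3 : U * (b + 1) ≤ U * U ^ 248 := Nat.mul_le_mul_left _ (not_le.1 hc)
    rw [← pow_succ'] at f3
    exact absurd (f1.trans (f2.trans f3)) (not_le.2 (Nat.pow_lt_pow_right hU1 (by norm_num)))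
  have hb : ∀ q ∈ PS w (U ^ 2), ∀ A ⊆ BB W (U ^ 503), (∀ b ∈ A, U ^ 248 ≤ b) →
      (∀ b ∈ A, ∀ b' ∈ A, b ≡ b' [MOD q]) → ∑ b ∈ A, (1 / b : ℝ) ≤ 505 * L / W / q := by
    intro q hq A hA h1 h2
    obtain ⟨⟨q1, q2⟩, q3⟩ := mem_PS.1 hq
    refine (spaced_sum A (q * W) (U ^ 248) (U ^ 503) (Nat.mul_pos q3.pos w.factorial_pos)
      (by positivity) (fun a ha => ⟨h1 a ha, (mem_BB.1 (hA ha)).1.2⟩) fun a ha a' ha' => ?_).trans ?_
    · rw [← Nat.modEq_and_modEq_iff_modEq_mul (coprime_factorial q3 q1)]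
      exact ⟨h2 a ha a' ha', ((Nat.modEq_zero_iff_dvd).2 (mem_BB.1 (hA ha)).2).trans
        ((Nat.modEq_zero_iff_dvd).2 (mem_BB.1 (hA ha')).2).symm⟩
    · have f1 : q * W ≤ U ^ 248 :=
        (Nat.mul_le_mul q2 (show W ≤ U by omega)).trans (by
          rw [← pow_succ]; exact Nat.pow_le_pow_right (by omega) (by norm_num))
      have f2 : (0 : ℝ) < (q * W : ℕ) := by exact_mod_cast Nat.mul_pos q3.pos w.factorial_pos
      have f3 : (1 : ℝ) / (U ^ 248 : ℕ) ≤ 1 / (q * W : ℕ) :=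
        one_div_le_one_div_of_le f2 (by exact_mod_cast f1)
      refine (add_le_add f3 le_rfl).trans ?_
      rw [hL2, ← add_div, div_div, mul_comm (W : ℝ), ← Nat.cast_mul]
      gcongr
      push_cast
      linarith [hLs.1]
  have hβ : ∀ q ∈ PS w (U ^ 2), ∀ A ⊆ Y, (∀ a ∈ A, ∀ a' ∈ A, a ≡ a' [MOD q]) →
      ∑ a ∈ A, (1 / a : ℝ) ≤ if q ≤ 2 ^ s then 112 * E / (q : ℝ) else 1 / T + (1 + L) / q := by
    intro q hq A hA h
    have q3 := (mem_PS.1 hq).2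
    split_ifs with hc
    · exact class_primes_le q3 (by omega) hc A hA h
    · exact spaced_sum A q T U q3.pos (by omega)
        (fun a ha => ⟨(hY' a (hA ha)).2.1.le, (hY' a (hA ha)).2.2⟩) h
  have hγ' : ∑ q ∈ PS w (U ^ 2), (if q ≤ 2 ^ s then 112 * E / (q : ℝ) else 1 / T + (1 + L) / q) /
      (q : ℝ) ≤ γ := by
    have e0 : (1 : ℝ) ≤ s := by linarith
    refine (beta_sum (by omega) (by omega) (by positivity) (by linarith [hLs.1])).trans ?_
    rw [hL2]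
    have e1 : (0 : ℝ) < (2 ^ s : ℕ) := by positivity
    have e2 : (1 + (2 : ℕ) * L) / T ≤ (1 + (2 : ℕ) * L) / (2 ^ s : ℕ) := by
      apply div_le_div_of_nonneg_left _ e1 (by exact_mod_cast hzT)
      push_cast
      linarith [hLs.1]
    have e3 : (1 + (2 : ℕ) * L) / (2 ^ s : ℕ) + (1 + L) / (2 ^ s : ℕ) ≤
        26 * E * (s * (1 / 2 : ℝ) ^ s) := by
      rw [← add_div, one_div, inv_pow, ← mul_assoc, ← div_eq_mul_inv]
      push_cast
      have e4 : (s : ℝ) ≤ s * E := by exact_mod_cast hsE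
      gcongr
      linarith [hLs.2]
    linarith
  have hYU : ∀ y ∈ Y, y.Prime ∧ y ≤ U := fun y hy => ⟨(hY' y hy).1, (hY' y hy).2.2⟩
  have hSw : ∀ n ∈ S, ∀ q, q.Prime → q ∣ n → w < q := fun n hn q hq hd =>
    ((hS' n hn).2.1 q hq hd).1
  have k1 := kap_avg hYU hSw hB hΛ0 hb hβ
  have k2 := eta_avg hYU hSw hB hΛ0 hb hβ
  have k0 : 0 ≤ ∑ q ∈ PS w (U ^ 2),
      (if q ≤ 2 ^ s then 112 * E / (q : ℝ) else 1 / T + (1 + L) / q) / (q : ℝ) := by
    refine sum_nonneg fun q _ => ?_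
    have : 0 ≤ L := Real.log_natCast_nonneg _
    split_ifs <;> positivity
  have k3 : 0 ≤ ∑ y ∈ Y, (1 / y : ℝ) := sum_nonneg fun _ _ => by positivity
  refine (markov (Y := Y) (S := S) (K := U ^ 503) (δ := 1 / (1024 * (E : ℝ) ^ 2 * G))
    (by have : 0 < E := by omega
        have : 0 < G := by omega
        positivity) hΛ0 hΛ hL' ?_ ?_ hγ ?_).trans ?_
  · refine second_moment (U := U) (lam := (1 / 1500) ^ 125 * L / W)
      (fun y hy => ⟨(hY' y hy).1, hYW y hy, (hY' y hy).2.2⟩) (fun n hn => ?_) (fun y hy => ?_)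
      hΛ hL' (le_of_eq (by rw [hρ]; ring))
    · obtain ⟨-, -, f1, f2, -⟩ := hS' n hn
      refine ⟨lt_of_lt_of_le (lt_self_pow₀ hU1 (by norm_num)) f1, ?_⟩
      rw [pow_succ]
      exact Nat.mul_le_mul_right _ f2
    · refine le_trans (le_of_eq ?_) (hcls y ((ZMod.isUnit_iff_coprime y _).2 (hYW y hy)))
      rw [← hW]
      push_cast
      rw [show (12 : ℝ) * 125 = 1500 by norm_num]
      generalize ((1 : ℝ) / 1500) ^ 125 = σ
      field_simp
  · simp only [add_mul, sum_add_distrib]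
    refine add_le_add (k1.trans ?_) (k2.trans ?_)
    · rw [mul_assoc, mul_comm γ]
      gcongr
    · rw [mul_assoc _ γ, mul_comm γ]
      gcongr
  · intro b _ hmu hk
    have hb248 : U ^ 248 ≤ b := by
      obtain ⟨e, he⟩ : (EE Y S b).Nonempty := by
        rw [nonempty_iff_ne_empty]
        intro h
        rw [mu, h, sum_empty] at hmu
        linarith
      exact hB b e he
    refine select (T := T) (E := E) (G := G) (l := l) (Ω := s) (R := 502) (H := U ^ 15) (by omega)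
      (by omega) (by omega) hG (hUT ▸ hY') (fun n hn => ?_) ?_ ?_ ?_ ?_ ?_ hmu hk
    · obtain ⟨f1, f2, -, f3, f4⟩ := hS' n hn
      rw [← hUT]
      exact ⟨f1, fun p hp hd => ⟨(f2 p hp hd).1.le, (f2 p hp hd).2⟩, f3, f4⟩
    · rw [← hUT, hU, ← pow_mul, ← pow_mul]
      apply Nat.pow_le_pow_right (by norm_num)
      calc _ = 8032 * (E * G) * s := by ring
        _ ≤ _ := Nat.mul_le_mul_right _ hl
    · rw [mul_assoc]
      exact le_trans (by omega) (Nat.le_self_pow two_ne_zero T)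
    · rw [pow_add, mul_comm 4 E, pow_mul, ← hUT, mul_comm E 4]
      have f1 : 2 * (s * U ^ 4) + 1 ≤ 3 * 2 ^ s * U ^ 4 := by
        have g1 : 1 ≤ 2 ^ s * U ^ 4 := Nat.mul_pos (by omega) (by positivity)
        have g2 : s * U ^ 4 ≤ 2 ^ s * U ^ 4 := Nat.mul_le_mul_right _ hsz.le
        rw [mul_assoc]
        omega
      calc _ ≤ 3 * 2 ^ s * U ^ 4 * 2 ^ s * (G.factorial * (4 * E) ^ G) := by gcongr
        _ = U ^ 4 * (2 ^ s * 2 ^ s * (3 * (G.factorial * (4 * E) ^ G))) := by ring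
        _ < U ^ 4 * (2 ^ s * 2 ^ s * 2 ^ s) :=
          Nat.mul_lt_mul_of_pos_left (Nat.mul_lt_mul_of_pos_left (hs3.trans_lt hsz)
            (by positivity)) (by positivity)
        _ ≤ _ := by
          apply Nat.mul_le_mul_left
          rw [← pow_add, ← pow_add, hT, ← pow_mul]
          exact Nat.pow_le_pow_right (n := 2) (by norm_num) (by omega)
    · have f1 : 2 ^ G ≤ T := Nat.pow_le_pow_right (by norm_num) (show G ≤ 8 * s by omega)
      refine (Nat.pow_le_pow_left (Nat.mul_le_mul_right _ f1) 2).trans ?_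
      rw [← pow_succ', ← pow_mul T, hUT, ← pow_mul T]
      exact Nat.pow_le_pow_right (lt_of_lt_of_le (by positivity) hzT)
        (show (G + 1) * 2 ≤ E * 15 by omega)
    · refine le_trans ?_ hb248
      have f1 : 2 ^ 16 ≤ U ^ 8 := by
        rw [show 2 ^ 16 = 4 ^ 8 by norm_num]
        exact Nat.pow_le_pow_left (by omega) 8
      rw [mul_pow, ← pow_mul, show 248 = 8 + 15 * 16 by norm_num, pow_add]
      exact Nat.mul_le_mul_right _ f1
  · refine sum_le_sum_of_subset_of_nonneg (fun b hb => ?_) fun b _ _ =>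
      Set.indicator_nonneg (fun _ _ => by positivity) _
    obtain ⟨⟨f1, f2⟩, f3⟩ := mem_BB.1 hb
    have := Nat.le_of_dvd f1 f3
    exact mem_Icc.2 ⟨by omega, f2⟩

theorem exists_step : ∃ (E : ℕ) (c : ℝ), 0 < E ∧ 0 < c ∧ ∀ᶠ s : ℕ in atTop,
    c * Real.log (2 ^ (8 * s * E) : ℕ) ≤ ∑ b ∈ Icc 2 ((2 ^ (8 * s * E)) ^ 503),
      Set.indicator {b | SqfBase b} (fun b : ℕ => (1 / b : ℝ)) b := by
  obtain ⟨ρ, hρ⟩ : ∃ ρ : ℝ, ρ = (1 / 1500) ^ 125 / 505 := ⟨_, rfl⟩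
  have hρ0 : 0 < ρ := by rw [hρ]; positivity
  obtain ⟨F, hF⟩ : ∃ F : ℕ, Real.exp (12 / ρ + 1) ≤ F := exists_nat_ge _
  have hF0 : (0 : ℝ) < F := (Real.exp_pos _).trans_le hF
  have hF1 : 1 ≤ F := by exact_mod_cast hF0
  obtain ⟨E, hE⟩ : ∃ E, E = 125 * F := ⟨_, rfl⟩
  obtain ⟨G, hG⟩ : ∃ G, G = 5 * E + 2 := ⟨_, rfl⟩
  have hE0 : 0 < E := by omega
  have hG0 : 0 < G := by omega
  have hEρ : 2 ≤ ρ * ((Real.log (E + 1) - 1) / 6) := by
    have h1 : 12 / ρ + 1 ≤ Real.log (E + 1) := by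
      rw [Real.le_log_iff_exp_le (by positivity), hE]
      push_cast
      linarith
    have h2 : ρ * (12 / ρ) = 12 := by field_simp
    nlinarith
  obtain ⟨γ, hγ0, hγ⟩ : ∃ γ : ℝ, 0 < γ ∧ ((56 * E) ^ 3 + 2 * (56 * E)) * γ ≤
      ρ ^ 2 * (1 / (1024 * (E : ℝ) ^ 2 * G)) / 8 :=
    ⟨ρ ^ 2 * (1 / (1024 * (E : ℝ) ^ 2 * G)) / 8 / ((56 * E) ^ 3 + 2 * (56 * E)), by positivity,
      le_of_eq (mul_div_cancel₀ _ (by positivity))⟩
  obtain ⟨l0, hl0⟩ := exists_nat_ge (224 * E / γ)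
  set l := max l0 (8032 * E * G) with hl
  have hl2 : 112 * E / (2 ^ l : ℕ) ≤ γ / 2 := by
    have h1 : (l0 : ℝ) ≤ (2 ^ l : ℕ) := by
      exact_mod_cast (le_max_left _ _).trans Nat.lt_two_pow_self.le
    rw [div_le_iff₀ hγ0] at hl0
    rw [div_le_iff₀ (by positivity)]
    nlinarith
  have hlim : Tendsto (fun s : ℕ => 26 * E * (s * (1 / 2 : ℝ) ^ s)) atTop (𝓝 0) := by
    simpa using (tendsto_self_mul_const_pow_of_lt_one (r := (1 / 2 : ℝ)) (by norm_num)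
      (by norm_num)).const_mul (26 * (E : ℝ))
  refine ⟨E, ρ ^ 2 * (505 / (2 ^ l).factorial) / 4, hE0, by positivity, ?_⟩
  filter_upwards [eventually_ge_atTop (8 * (2 ^ l).factorial + 8), eventually_ge_atTop (64 * E * G),
    eventually_ge_atTop (3 * (G.factorial * (4 * E) ^ G)),
    hlim.eventually (ge_mem_nhds (half_pos hγ0))] with s h1 h2 h3 h4
  exact le_trans (le_of_eq (by ring)) (step hF1 hE hG hρ hEρ hγ (le_max_right _ _) hl2 h1 h2 h3 h4)

theorem pos_log_density : ∃ c : ℝ, 0 < c ∧ ∀ᶠ N : ℕ in atTop, c * Real.log N ≤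
    ∑ b ∈ Icc 2 N, Set.indicator {b | SqfBase b} (fun b : ℕ => (1 / b : ℝ)) b := by
  obtain ⟨E, c, hE, hc, h⟩ := exists_step
  obtain ⟨s0, hs0⟩ := eventually_atTop.1 h
  set A := 2 ^ (8 * E * 503) with hA
  have hA1 : 1 < A := Nat.one_lt_two_pow (by omega)
  refine ⟨c / 1006, by positivity, ?_⟩
  filter_upwards [eventually_ge_atTop (A ^ (s0 + 1))] with N hN
  have hN0 : N ≠ 0 := by
    have : 0 < A ^ (s0 + 1) := by positivity
    omega
  set s := Nat.log A N with hs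
  have h1 : s0 + 1 ≤ s := Nat.le_log_of_pow_le hA1 hN
  have h2 : A ^ s = (2 ^ (8 * s * E)) ^ 503 := by
    rw [hA, ← pow_mul, ← pow_mul]; congr 1; ring
  have h3 : N ≤ (2 ^ (8 * s * E)) ^ 1006 := by
    rw [show 1006 = 503 * 2 by norm_num, pow_mul, ← h2, ← pow_mul]
    exact (Nat.lt_pow_succ_log_self hA1 N).le.trans (Nat.pow_le_pow_right (by omega) (by omega))
  have h4 : Real.log N ≤ 1006 * Real.log (2 ^ (8 * s * E) : ℕ) := by
    refine (Real.log_le_log (by positivity) ((Nat.cast_le (α := ℝ)).2 h3)).trans (le_of_eq ?_)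
    rw [Nat.cast_pow, Real.log_pow, Nat.cast_ofNat]
  refine le_trans ?_ ((hs0 s (by omega)).trans (sum_le_sum_of_subset_of_nonneg
    (Icc_subset_Icc_right (h2 ▸ Nat.pow_log_le_self A hN0)) fun b _ _ =>
      Set.indicator_nonneg (fun _ _ => by positivity) _))
  nlinarith

end Pool.Agent.Lib.VPal
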