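import Pool.Agent.Lib.MP_200139_nt.Defs

set_option autoImplicit false

namespace Pool.Agent.Lib.VPal

open Finset

/-- A block of signed digits. -/
def seg (B : ℤ) (D : ℕ → ℤ) (s n : ℕ) : ℤ := ∑ i ∈ range n, D (s + i) * B ^ i

lemma seg_add (B : ℤ) (D : ℕ → ℤ) (s n m : ℕ) :
    seg B D s (n + m) = seg B D s n + B ^ n * seg B D (s + n) m := by
  unfold seg
  rw [sum_range_add, mul_sum]
  congr 1
  apply sum_congr rfl
  intro i _
  rw [add_assoc, pow_add]
  ring

lemma seg_succ (B : ℤ) (D : ℕ → ℤ) (s n : ℕ) :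
    seg B D s (n + 1) = seg B D s n + D (s + n) * B ^ n := by
  unfold seg
  rw [sum_range_succ]

lemma seg_abs_lt {B : ℤ} {D : ℕ → ℤ} (hD : ∀ i, |D i| < B) (s n : ℕ) : |seg B D s n| < B ^ n := by
  have hB : 0 < B := lt_of_le_of_lt (abs_nonneg _) (hD 0)
  induction n with
  | zero => simp [seg]
  | succ n ih =>
    rw [seg_succ]
    have h1 : |D (s + n) * B ^ n| ≤ (B - 1) * B ^ n := by
      rw [abs_mul, abs_of_pos (pow_pos hB n)]
      exact mul_le_mul_of_nonneg_right (by have := hD (s + n); omega) (pow_pos hB n).le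
    have h2 := abs_add_le (seg B D s n) (D (s + n) * B ^ n)
    rw [pow_succ]
    linarith

lemma seg_eq_zero {B : ℤ} {D : ℕ → ℤ} (hD : ∀ i, |D i| < B) (s n : ℕ) (h : seg B D s n = 0) :
    ∀ i < n, D (s + i) = 0 := by
  have hB : 0 < B := lt_of_le_of_lt (abs_nonneg _) (hD 0)
  induction n with
  | zero => intro i hi; omega
  | succ n ih =>
    rw [seg_succ] at h
    have h0 : D (s + n) = 0 := by
      by_contra hne
      have h1 := seg_abs_lt hD s n
      have h2 : seg B D s n = -(D (s + n) * B ^ n) := by linarith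
      rw [h2, abs_neg, abs_mul, abs_of_pos (pow_pos hB n)] at h1
      have h3 : 1 ≤ |D (s + n)| := Int.one_le_abs hne
      nlinarith [pow_pos hB n]
    rw [h0, zero_mul, add_zero] at h
    intro i hi
    rcases Nat.lt_succ_iff_lt_or_eq.1 hi with h1 | h1
    · exact ih h i h1
    · rw [h1]; exact h0

lemma seg_zero {B : ℤ} {D : ℕ → ℤ} {s n : ℕ} (h : ∀ i < n, D (s + i) = 0) : seg B D s n = 0 := by
  unfold seg
  apply sum_eq_zero
  intro i hi
  rw [h i (mem_range.1 hi), zero_mul]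

/-- The pairs (low layer, top layer) of a symmetric string of signed digits. -/
noncomputable def lay (B : ℤ) (d S : ℕ) : Finset (ℤ × ℤ) :=
  (Fintype.piFinset fun _ : Fin S => Ioo (-(d : ℤ)) d).image
    fun e => (∑ i : Fin S, e i * B ^ (i : ℕ), ∑ i : Fin S, e i.rev * B ^ (i : ℕ))

lemma card_lay (B d S : ℕ) (h : 2 * d ≤ B) : (lay B d S).card ≤ B ^ S := by
  refine card_image_le.trans ?_
  rw [Fintype.card_piFinset, prod_const, card_univ, Fintype.card_fin, Int.card_Ioo]
  apply Nat.pow_le_pow_left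
  omega

lemma decomp (B : ℤ) (d l t S v : ℕ) (hdB : (d : ℤ) ≤ B) (D : ℕ → ℤ) (hD : ∀ i, |D i| < d)
    (hsym : ∀ i ≤ 2 * l, D (2 * l - i) = D i) (h0 : ∀ i < t, D i = 0)
    (hl : 2 * l + 1 = 2 * t + 2 * S + v) :
    ∃ x ∈ lay B d S, ∃ w : ℤ, |x.1| < B ^ S ∧ |w| < B ^ v ∧
      |x.1 + B ^ S * w + B ^ (S + v) * x.2| < B ^ (2 * S + v) ∧
      seg B D 0 (2 * l + 1) = B ^ t * (x.1 + B ^ S * w + B ^ (S + v) * x.2) := by
  have hD' : ∀ i, |D i| < B := fun i => (hD i).trans_le hdB
  have e1 : seg B D t (2 * S + v) =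
      seg B D t S + B ^ S * seg B D (t + S) v + B ^ (S + v) * seg B D (t + S + v) S := by
    rw [show 2 * S + v = S + (v + S) by omega, seg_add, seg_add, pow_add]
    ring
  refine ⟨(seg B D t S, seg B D (t + S + v) S), ?_, seg B D (t + S) v, seg_abs_lt hD' _ _,
    seg_abs_lt hD' _ _, ?_, ?_⟩
  · refine mem_image.2 ⟨fun i => D (t + i), ?_, ?_⟩
    · rw [Fintype.mem_piFinset]
      intro i
      rw [mem_Ioo]
      exact abs_lt.1 (hD _)
    · unfold seg
      rw [← Fin.sum_univ_eq_sum_range (fun i => D (t + i) * B ^ i),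
        ← Fin.sum_univ_eq_sum_range (fun i => D (t + S + v + i) * B ^ i)]
      congr 1
      apply sum_congr rfl
      intro i _
      have hi := i.2
      rw [← hsym (t + S + v + i) (by omega)]
      simp only [Fin.val_rev]
      congr 2
      omega
  · rw [← e1]; exact seg_abs_lt hD' _ _
  · rw [← e1, show 2 * l + 1 = t + ((2 * S + v) + t) by omega, seg_add, seg_add,
      seg_zero (n := t) (s := 0) (fun i hi => by rw [zero_add]; exact h0 i hi),
      seg_zero (n := t) (s := 0 + t + (2 * S + v)), zero_add]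
    · simp
    · intro i hi
      rw [← hsym _ (by omega)]
      exact h0 _ (by omega)

/-- The position in the first half of a palindrome that determines position `i`. -/
def mir (l i : ℕ) : Fin (l + 1) := ⟨min i (2 * l - i), by omega⟩

/-- The first halves of the palindromes we use. -/
def fam (l d : ℕ) : Finset (Fin (l + 1) → ℕ) :=
  Fintype.piFinset fun j => if (j : ℕ) = 0 ∨ (j : ℕ) = l then {1} else range d

/-- The value of the palindrome with first half `A`. -/
def pv (B l : ℕ) (A : Fin (l + 1) → ℕ) : ℕ := ∑ i ∈ range (2 * l + 1), A (mir l i) * B ^ i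

lemma fam_lt {l d : ℕ} (hd : 2 ≤ d) {A : Fin (l + 1) → ℕ} (hA : A ∈ fam l d) (j : Fin (l + 1)) :
    A j < d := by
  have := Fintype.mem_piFinset.1 hA j
  split_ifs at this
  · rw [mem_singleton] at this; omega
  · exact mem_range.1 this

lemma fam_zero {l d : ℕ} {A : Fin (l + 1) → ℕ} (hA : A ∈ fam l d) : A 0 = 1 := by
  have := Fintype.mem_piFinset.1 hA 0
  simpa using this

lemma mir_sub (l i : ℕ) (hi : i ≤ 2 * l) : mir l (2 * l - i) = mir l i := by
  unfold mir
  congr 1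
  omega

lemma mir_val (l : ℕ) (j : Fin (l + 1)) : mir l j = j := by
  have := j.2
  apply Fin.ext
  show min (j : ℕ) (2 * l - j) = j
  omega

lemma pv_cast (B l : ℕ) (A : Fin (l + 1) → ℕ) :
    (pv B l A : ℤ) = seg B (fun i => (A (mir l i) : ℤ)) 0 (2 * l + 1) := by
  simp [pv, seg]

lemma pv_sub (B l : ℕ) (A A' : Fin (l + 1) → ℕ) : (pv B l A : ℤ) - pv B l A' =
    seg B (fun i => (A (mir l i) : ℤ) - A' (mir l i)) 0 (2 * l + 1) := by
  simp only [pv, seg, zero_add]
  push_cast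
  rw [← sum_sub_distrib]
  apply sum_congr rfl
  intro i _
  ring

lemma diff_lt {l d : ℕ} (hd : 2 ≤ d) {A A' : Fin (l + 1) → ℕ} (hA : A ∈ fam l d)
    (hA' : A' ∈ fam l d) (i : ℕ) : |(A (mir l i) : ℤ) - A' (mir l i)| < d := by
  have h1 := fam_lt hd hA (mir l i)
  have h2 := fam_lt hd hA' (mir l i)
  rw [abs_lt]
  constructor <;> omega

lemma pv_inj {B l d : ℕ} (hd : 2 ≤ d) (hdB : d ≤ B) {A A' : Fin (l + 1) → ℕ} (hA : A ∈ fam l d)
    (hA' : A' ∈ fam l d) (h : pv B l A = pv B l A') : A = A' := by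
  have h1 := pv_sub B l A A'
  rw [h, sub_self] at h1
  have h2 := seg_eq_zero (fun i => (diff_lt hd hA hA' i).trans_le (by exact_mod_cast hdB)) _ _
    h1.symm
  funext j
  have h3 := h2 j (by have := j.2; omega)
  simp only [zero_add, mir_val] at h3
  omega

lemma pv_diff {B l d : ℕ} (hd : 2 ≤ d) (hdB : d ≤ B) {A A' : Fin (l + 1) → ℕ} (hA : A ∈ fam l d)
    (hA' : A' ∈ fam l d) (t S v : ℕ) (hl : 2 * l + 1 = 2 * t + 2 * S + v)
    (h : ∀ j : Fin (l + 1), (j : ℕ) < t → A j = A' j) :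
    ∃ x ∈ lay B d S, ∃ w : ℤ, |x.1| < (B : ℤ) ^ S ∧ |w| < (B : ℤ) ^ v ∧
      |x.1 + B ^ S * w + B ^ (S + v) * x.2| < (B : ℤ) ^ (2 * S + v) ∧
      (pv B l A : ℤ) - pv B l A' = B ^ t * (x.1 + B ^ S * w + B ^ (S + v) * x.2) := by
  rw [pv_sub]
  apply decomp B d l t S v (by exact_mod_cast hdB) _ (diff_lt hd hA hA') _ _ hl
  · intro i hi
    simp only [mir_sub l i hi]
  · intro i hi
    have h1 := h (mir l i) (lt_of_le_of_lt (min_le_left _ _) hi)
    simp [h1]

lemma pv_decomp {B l d : ℕ} (hd : 2 ≤ d) (hdB : d ≤ B) {A : Fin (l + 1) → ℕ} (hA : A ∈ fam l d)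
    (S v : ℕ) (hl : 2 * l + 1 = 2 * S + v) :
    ∃ x ∈ lay B d S, ∃ w : ℤ, |x.1| < (B : ℤ) ^ S ∧ |w| < (B : ℤ) ^ v ∧
      |x.1 + B ^ S * w + B ^ (S + v) * x.2| < (B : ℤ) ^ (2 * S + v) ∧
      (pv B l A : ℤ) = x.1 + B ^ S * w + B ^ (S + v) * x.2 := by
  rw [pv_cast]
  obtain ⟨x, hx, w, h1, h2, h3, h4⟩ := decomp B d l 0 S v (by exact_mod_cast hdB)
    (fun i => (A (mir l i) : ℤ)) (fun i => by
      have := fam_lt hd hA (mir l i)
      rw [abs_lt]
      constructor <;> omega) (fun i hi => by simp only [mir_sub l i hi])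
    (fun i hi => by omega) (by omega)
  exact ⟨x, hx, w, h1, h2, h3, by rw [h4]; simp⟩

lemma pv_lt {B l d : ℕ} (hd : 2 ≤ d) (hdB : d ≤ B) {A : Fin (l + 1) → ℕ} (hA : A ∈ fam l d) :
    pv B l A < B ^ (2 * l + 1) := by
  obtain ⟨x, -, w, -, -, h3, h4⟩ := pv_decomp (B := B) hd hdB hA 0 (2 * l + 1) (by omega)
  rw [← h4, Nat.abs_cast] at h3
  simp only [mul_zero, zero_add] at h3
  exact_mod_cast h3

lemma pv_ge {B l d : ℕ} {A : Fin (l + 1) → ℕ} (hA : A ∈ fam l d) : B ^ (2 * l) ≤ pv B l A := by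
  unfold pv
  rw [sum_range_succ]
  have : mir l (2 * l) = 0 := by
    apply Fin.ext
    show min (2 * l) (2 * l - 2 * l) = 0
    omega
  rw [this, fam_zero hA, one_mul]
  omega

lemma pv_coprime {B l d : ℕ} {A : Fin (l + 1) → ℕ} (hA : A ∈ fam l d) :
    (pv B l A).Coprime B := by
  unfold pv
  rw [sum_range_succ']
  have : mir l 0 = 0 := by
    apply Fin.ext
    show min 0 (2 * l - 0) = 0
    omega
  rw [this, fam_zero hA, pow_zero, mul_one]
  have h : B ∣ ∑ k ∈ range (2 * l), A (mir l (k + 1)) * B ^ (k + 1) :=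
    dvd_sum fun i _ => Dvd.dvd.mul_left (dvd_pow_self _ (Nat.succ_ne_zero i)) _
  obtain ⟨c, hc⟩ := h
  rw [hc]
  simp

lemma card_le_of_outer {l d : ℕ} (hd : 2 ≤ d) (t : ℕ) (T : Finset (Fin (l + 1) → ℕ))
    (hT : T ⊆ fam l d)
    (h : ∀ A ∈ T, ∀ A' ∈ T, (∀ j : Fin (l + 1), (j : ℕ) < t → A j = A' j) → A = A') :
    T.card ≤ d ^ t := by
  have hc : (Fintype.piFinset fun _ : Fin t => range d).card = d ^ t := by
    rw [Fintype.card_piFinset]; simp
  rw [← hc]
  apply card_le_card_of_injOn (fun A (i : Fin t) => if h : (i : ℕ) < l + 1 then A ⟨i, h⟩ else 0)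
  · intro A hA
    rw [mem_coe, Fintype.mem_piFinset]
    intro i
    rw [mem_range]
    dsimp only
    split_ifs
    · exact fam_lt hd (hT hA) _
    · omega
  · intro A hA A' hA' hh
    apply h A hA A' hA'
    intro j hj
    have := congrFun hh ⟨j, hj⟩
    simpa [j.2] using this

lemma card_fam (l d : ℕ) (hl : 1 ≤ l) : (fam l d).card = d ^ (l - 1) := by
  unfold fam
  rw [Fintype.card_piFinset]
  have : ∀ j : Fin (l + 1), (if (j : ℕ) = 0 ∨ (j : ℕ) = l then ({1} : Finset ℕ) else range d).card =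
      (fun j : ℕ => if j = 0 ∨ j = l then 1 else d) j := by
    intro j
    dsimp only
    split_ifs with h <;> simp
  rw [prod_congr rfl (fun j _ => this j),
    Fin.prod_univ_eq_prod_range (fun j : ℕ => if j = 0 ∨ j = l then 1 else d), prod_range_succ]
  obtain ⟨m, rfl⟩ : ∃ m, l = m + 1 := ⟨l - 1, by omega⟩
  rw [prod_range_succ', prod_congr rfl (g := fun _ => d)]
  · simp
  · intro i hi
    rw [if_neg]
    have := mem_range.1 hi
    omega

lemma prime_pow_dvd_or {q n : ℕ} (hq : q.Prime) {k a b c : ℤ} (hc : ¬ (q : ℤ) ∣ c)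
    (hab : b - a = 2 * c) (h : (q : ℤ) ^ n ∣ k * a * b) :
    (q : ℤ) ^ n ∣ 2 * k * a ∨ (q : ℤ) ^ n ∣ 2 * k * b := by
  have hq' : Prime (q : ℤ) := Nat.prime_iff_prime_int.1 hq
  by_cases ha : (q : ℤ) ∣ a
  · by_cases hb : (q : ℤ) ∣ b
    · have h2 : (q : ℤ) ∣ 2 * c := hab ▸ dvd_sub hb ha
      have h3 : (q : ℤ) ∣ 2 := (hq'.dvd_or_dvd h2).resolve_right hc
      have h4 : q = 2 := (Nat.prime_dvd_prime_iff_eq hq Nat.prime_two).1 (by exact_mod_cast h3)
      subst h4
      obtain ⟨a', rfl⟩ := ha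
      obtain ⟨b', rfl⟩ := hb
      push_cast at *
      by_cases ha' : (2 : ℤ) ∣ a'
      · left
        have hb' : ¬ (2 : ℤ) ∣ b' := by omega
        apply hq'.pow_dvd_of_dvd_mul_right n hb'
        rwa [show 2 * k * (2 * a') * b' = k * (2 * a') * (2 * b') by ring]
      · right
        apply hq'.pow_dvd_of_dvd_mul_right n ha'
        rwa [show 2 * k * (2 * b') * a' = k * (2 * a') * (2 * b') by ring]
    · left
      have := hq'.pow_dvd_of_dvd_mul_right n hb h
      rw [mul_assoc]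
      exact this.mul_left 2
  · right
    have := hq'.pow_dvd_of_dvd_mul_right n ha (a := k * b)
      (by rwa [show k * b * a = k * a * b by ring])
    rw [mul_assoc]
    exact this.mul_left 2

lemma count_sq (B j P : ℕ) (hB : 2 ≤ B) (hP : 0 < P) (k e T : ℤ) (hk : k ≠ 0) (Y Z : ℕ)
    (hZ : 2 * Y ≤ Z * (P * B ^ j)) (C : Finset ℕ)
    (hC : ∀ p ∈ C, P ≤ p ∧ p.Coprime B ∧ (B : ℤ) ^ j ∣ k * p ^ 2 - e ∧ |k * p ^ 2 - T| < Y) :
    C.card ≤ 2 ^ B * (Z + 1) := by
  classical
  rcases C.eq_empty_or_nonempty with rfl | hne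
  · simp
  set p0 := C.min' hne with hp0
  have h0 := hC p0 (C.min'_mem hne)
  have hBj : 0 < B ^ j := by positivity
  have hc : (B.primeFactors.powerset ×ˢ range (Z + 1)).card ≤ 2 ^ B * (Z + 1) := by
    rw [card_product, card_powerset, card_range]
    apply Nat.mul_le_mul_right
    apply Nat.pow_le_pow_right (by norm_num)
    have : B.primeFactors ⊆ Ioc 0 B := fun q hq => mem_Ioc.2
      ⟨(Nat.prime_of_mem_primeFactors hq).pos, Nat.le_of_mem_primeFactors hq⟩
    simpa using card_le_card this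
  refine le_trans ?_ hc
  apply card_le_card_of_injOn (fun p : ℕ => (B.primeFactors.filter fun q : ℕ =>
      (q : ℤ) ^ ((B ^ j).factorization q) ∣ 2 * k * ((p : ℤ) - p0),
      2 * k.natAbs * (p - p0) / B ^ j))
  · intro p hp
    rw [mem_coe, mem_product, mem_powerset, mem_range]
    refine ⟨filter_subset _ _, ?_⟩
    rw [Nat.lt_succ_iff]
    apply Nat.div_le_of_le_mul
    have h1 := hC p hp
    have hle : p0 ≤ p := C.min'_le p hp
    obtain ⟨u, hu⟩ := Nat.exists_eq_add_of_le hle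
    have h2 : |k * (p : ℤ) ^ 2 - k * p0 ^ 2| < 2 * Y := by
      have := abs_sub_le (k * (p : ℤ) ^ 2) T (k * p0 ^ 2)
      rw [abs_sub_comm T] at this
      linarith [h1.2.2.2, h0.2.2.2]
    have h3 : k * (p : ℤ) ^ 2 - k * p0 ^ 2 = k * ((u * (2 * p0 + u) : ℕ) : ℤ) := by
      rw [hu]; push_cast; ring
    rw [h3, abs_mul, Nat.abs_cast, Int.abs_eq_natAbs] at h2
    have h4 : k.natAbs * (u * (2 * p0 + u)) < 2 * Y := by exact_mod_cast h2
    have h5 : p - p0 = u := by omega
    rw [h5]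
    have h6 : k.natAbs * (u * (2 * P)) ≤ k.natAbs * (u * (2 * p0 + u)) := by
      have := h0.1
      gcongr
      omega
    apply Nat.le_of_mul_le_mul_left _ hP
    nlinarith
  · intro p hp p' hp' hh
    simp only [Prod.mk.injEq] at hh
    obtain ⟨hh1, hh2⟩ := hh
    have key : ∀ r ∈ C, ∀ q ∈ B.primeFactors,
        (q : ℤ) ^ ((B ^ j).factorization q) ∣ 2 * k * ((r : ℤ) - p0) ∨
        (q : ℤ) ^ ((B ^ j).factorization q) ∣ 2 * k * ((r : ℤ) + p0) := by
      intro r hr q hq
      have hq' := Nat.prime_of_mem_primeFactors hq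
      apply prime_pow_dvd_or hq' (c := p0)
      · intro hd
        have h1 : q ∣ p0 := by exact_mod_cast hd
        have h2 := Nat.dvd_gcd h1 (Nat.dvd_of_mem_primeFactors hq)
        rw [h0.2.1] at h2
        exact hq'.one_lt.ne' (Nat.dvd_one.1 h2)
      · ring
      · have h1 : (q : ℤ) ^ ((B ^ j).factorization q) ∣ (B : ℤ) ^ j := by
          exact_mod_cast Nat.ordProj_dvd (B ^ j) q
        refine h1.trans ?_
        have := dvd_sub (hC r hr).2.2.1 h0.2.2.1
        convert this using 1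
        ring
    have hdvd : (B : ℤ) ^ j ∣ 2 * k * ((p : ℤ) - p') := by
      have h1 : B ^ j ∣ (2 * k * ((p : ℤ) - p')).natAbs := by
        rw [Nat.dvd_iff_prime_pow_dvd_dvd]
        intro q n hq hn
        rcases Nat.eq_zero_or_pos n with rfl | hn0
        · simp
        have hqB : q ∈ B.primeFactors := Nat.mem_primeFactors.2
          ⟨hq, hq.dvd_of_dvd_pow ((dvd_pow_self q hn0.ne').trans hn), by omega⟩
        have hle : n ≤ (B ^ j).factorization q := (hq.pow_dvd_iff_le_factorization hBj.ne').1 hn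
        refine (pow_dvd_pow q hle).trans ?_
        rw [← Int.natCast_dvd]
        push_cast
        have hiff : (q : ℤ) ^ ((B ^ j).factorization q) ∣ 2 * k * ((p : ℤ) - p0) ↔
            (q : ℤ) ^ ((B ^ j).factorization q) ∣ 2 * k * ((p' : ℤ) - p0) := by
          have := Finset.ext_iff.1 hh1 q
          simpa only [mem_filter, hqB, true_and] using this
        by_cases hc : (q : ℤ) ^ ((B ^ j).factorization q) ∣ 2 * k * ((p : ℤ) - p0)
        · have := dvd_sub hc (hiff.1 hc)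
          rwa [show 2 * k * ((p : ℤ) - p0) - 2 * k * ((p' : ℤ) - p0) = 2 * k * ((p : ℤ) - p') by
            ring] at this
        · have := dvd_sub ((key p hp q hqB).resolve_left hc)
            ((key p' hp' q hqB).resolve_left fun h => hc (hiff.2 h))
          rwa [show 2 * k * ((p : ℤ) + p0) - 2 * k * ((p' : ℤ) + p0) = 2 * k * ((p : ℤ) - p') by
            ring] at this
      have := Int.natCast_dvd.2 h1
      exact_mod_cast this
    have hle : p0 ≤ p := C.min'_le p hp
    have hle' : p0 ≤ p' := C.min'_le p' hp'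
    have hlt : |2 * k * ((p : ℤ) - p')| < (B : ℤ) ^ j := by
      have e1 := Nat.div_add_mod (2 * k.natAbs * (p - p0)) (B ^ j)
      have e2 := Nat.div_add_mod (2 * k.natAbs * (p' - p0)) (B ^ j)
      have e3 := Nat.mod_lt (2 * k.natAbs * (p - p0)) hBj
      have e4 := Nat.mod_lt (2 * k.natAbs * (p' - p0)) hBj
      rw [hh2] at e1
      have e5 : |2 * k * ((p : ℤ) - p')| =
          |((2 * k.natAbs * (p - p0) : ℕ) : ℤ) - ((2 * k.natAbs * (p' - p0) : ℕ) : ℤ)| := by
        push_cast [hle, hle']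
        rw [← mul_sub, abs_mul, abs_mul, abs_mul, abs_mul, abs_abs]
        congr 2
        ring
      rw [e5, ← Nat.cast_pow, abs_lt]
      generalize 2 * k.natAbs * (p - p0) = u at *
      generalize 2 * k.natAbs * (p' - p0) = u' at *
      generalize B ^ j * (u' / B ^ j) = z at *
      generalize u % B ^ j = m at *
      generalize u' % B ^ j = m' at *
      generalize B ^ j = Q at *
      constructor <;> omega
    have h0' := Int.eq_zero_of_abs_lt_dvd hdvd hlt
    have h1 : (p : ℤ) - p' = 0 := by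
      rcases mul_eq_zero.1 h0' with h | h
      · exact absurd h (mul_ne_zero two_ne_zero hk)
      · exact h
    omega

end Pool.Agent.Lib.VPal
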