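import Pool.Agent.Lib.MP_200139_nt.SqPal

set_option autoImplicit false

namespace Pool.Agent.Lib.VPal

open Finset Filter Topology Polynomial ArithmeticFunction

open Classical in
lemma tail_pow_step {B l d c : ℕ} (hd : 2 ≤ d) (hdB : d ≤ B) (h : B ≤ d ^ c) (u : ℕ) (hu : 1 ≤ u) :
    ((fam l d).filter fun A => ∃ p, B ^ u ≤ p ∧ p < B ^ (u + 1) ∧
      p ^ (2 * c + 2) ∣ pv B l A).card * 2 ^ u ≤ d ^ (c + 1) * d ^ l := by
  have hB : 2 ≤ B := by omega
  have hpow : ∀ p, B ^ u ≤ p → B ^ (2 * ((c + 1) * u)) ≤ p ^ (2 * c + 2) := by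
    intro p hp
    calc B ^ (2 * ((c + 1) * u)) = (B ^ u) ^ (2 * c + 2) := by rw [← pow_mul]; congr 1; ring
      _ ≤ _ := Nat.pow_le_pow_left hp _
  have hcu : 1 ≤ (c + 1) * u := Nat.mul_pos (by omega) hu
  by_cases hul : (c + 1) * u ≤ l + 1
  · have hsub : ((fam l d).filter fun A => ∃ p, B ^ u ≤ p ∧ p < B ^ (u + 1) ∧
        p ^ (2 * c + 2) ∣ pv B l A) ⊆ (Ico (B ^ u) (B ^ (u + 1))).biUnion
          fun p => (fam l d).filter fun A => p ^ (2 * c + 2) ∣ pv B l A := by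
      intro A hA
      obtain ⟨hA, p, h1, h2, h3⟩ := mem_filter.1 hA
      exact mem_biUnion.2 ⟨p, mem_Ico.2 ⟨h1, h2⟩, mem_filter.2 ⟨hA, h3⟩⟩
    have h1 := (card_le_card hsub).trans (card_biUnion_le_card_mul _ _ (d ^ (l + 1 - (c + 1) * u))
      (fun p hp => card_dvd_le hd hdB _ _ (2 * ((c + 1) * u) - 1) (by omega)
        ((Nat.pow_le_pow_right (by omega) (by omega)).trans (hpow p (mem_Ico.1 hp).1))))
    rw [Nat.card_Ico] at h1
    have h2 : B ^ (u + 1) - B ^ u ≤ (d ^ c) ^ (u + 1) :=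
      (Nat.sub_le _ _).trans (Nat.pow_le_pow_left h _)
    calc _ ≤ (d ^ c) ^ (u + 1) * d ^ (l + 1 - (c + 1) * u) * d ^ u := by
          apply Nat.mul_le_mul (h1.trans (Nat.mul_le_mul_right _ h2)) (Nat.pow_le_pow_left hd u)
      _ = _ := by
          rw [← pow_mul, ← pow_add, ← pow_add, ← pow_add]
          congr 1
          have : (c + 1) * u = c * u + u := by ring
          have : c * (u + 1) = c * u + c := by ring
          omega
  · rw [filter_eq_empty_iff.2]
    · simp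
    · rintro A hA ⟨p, h1, -, h3⟩
      have h4 := pv_lt (B := B) hd hdB hA
      have h5 : 0 < pv B l A := lt_of_lt_of_le (by positivity) (pv_ge hA)
      have h6 := (hpow p h1).trans (Nat.le_of_dvd h5 h3)
      have h7 : B ^ (2 * l + 1) ≤ B ^ (2 * ((c + 1) * u)) :=
        Nat.pow_le_pow_right (by omega) (by omega)
      omega

open Classical in
theorem tail_pow {B d c : ℕ} (hd : 2 ≤ d) (hdB : d ≤ B) (h : B ≤ d ^ c) {ε : ℝ} (hε : 0 < ε) :
    ∃ z : ℕ, ∀ᶠ l in atTop,
      (((fam l d).filter fun A => ∃ p, z ≤ p ∧ p ^ (2 * c + 2) ∣ pv B l A).card : ℝ) ≤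
        ε * (fam l d).card := by
  have hB : 2 ≤ B := by omega
  set K : ℝ := ((d ^ (c + 1) * d : ℕ) : ℝ) with hK
  have hK0 : 0 < K := by
    rw [hK]
    have : 0 < d := by omega
    positivity
  obtain ⟨s, hs⟩ := summable_iff_vanishing_norm.1 summable_geometric_two (ε / K) (by positivity)
  obtain ⟨u0, hu0⟩ := s.bddAbove
  refine ⟨B ^ (u0 + 1), ?_⟩
  filter_upwards [eventually_ge_atTop 1] with l hl
  have hsub : ((fam l d).filter fun A => ∃ p, B ^ (u0 + 1) ≤ p ∧ p ^ (2 * c + 2) ∣ pv B l A) ⊆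
      (Ico (u0 + 1) (2 * l + 1)).biUnion (fun u => (fam l d).filter fun A =>
        ∃ p, B ^ u ≤ p ∧ p < B ^ (u + 1) ∧ p ^ (2 * c + 2) ∣ pv B l A) := by
    intro A hA
    obtain ⟨hA, p, h1, h2⟩ := mem_filter.1 hA
    have hp0 : p ≠ 0 := by
      have : 0 < B ^ (u0 + 1) := by positivity
      omega
    have h4 := pv_lt (B := B) hd hdB hA
    have h5 : 0 < pv B l A := lt_of_lt_of_le (by positivity) (pv_ge hA)
    have h6 := Nat.le_of_dvd h5 ((dvd_pow_self p (by omega)).trans h2)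
    refine mem_biUnion.2 ⟨Nat.log B p, mem_Ico.2 ⟨?_, ?_⟩,
      mem_filter.2 ⟨hA, p, Nat.pow_log_le_self B hp0, Nat.lt_pow_succ_log_self (by omega) p, h2⟩⟩
    · exact Nat.le_log_of_pow_le (by omega) h1
    · exact Nat.log_lt_of_lt_pow hp0 (by omega)
  have hF : ((d ^ (c + 1) * d ^ l : ℕ) : ℝ) = K * (fam l d).card := by
    rw [card_fam l d hl, hK, ← Nat.cast_mul]
    congr 1
    rw [mul_assoc _ d, ← pow_succ']
    congr 2
    omega
  have hF0 : (0 : ℝ) ≤ (fam l d).card := Nat.cast_nonneg _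
  have h1 := (card_le_card hsub).trans card_biUnion_le
  have h3 : ∀ u ∈ Ico (u0 + 1) (2 * l + 1), (((fam l d).filter fun A =>
      ∃ p, B ^ u ≤ p ∧ p < B ^ (u + 1) ∧ p ^ (2 * c + 2) ∣ pv B l A).card : ℝ) ≤
      K * (fam l d).card * (1 / 2 : ℝ) ^ u := by
    intro u hu
    rw [mem_Ico] at hu
    rw [← hF]
    exact real_of_mul_pow le_rfl (tail_pow_step hd hdB h u (by omega))
  have h4 := sum_le_sum h3
  rw [← mul_sum] at h4
  have h5 := hs (Ico (u0 + 1) (2 * l + 1)) (by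
    rw [disjoint_left]
    intro u hu hus
    have := hu0 hus
    rw [mem_Ico] at hu
    omega)
  rw [Real.norm_of_nonneg (sum_nonneg fun _ _ => by positivity)] at h5
  have h6 : K * (fam l d).card * ∑ u ∈ Ico (u0 + 1) (2 * l + 1), (1 / 2 : ℝ) ^ u ≤
      K * (fam l d).card * (ε / K) := by gcongr
  have h8 : K * (fam l d).card * (ε / K) = ε * (fam l d).card := by field_simp
  have h9 := (Nat.cast_le (α := ℝ)).2 h1
  push_cast at h9
  linarith

lemma vv_mul {N m : ℕ} (hN : N ≠ 0) (hm : m ≠ 0) (h : ∀ p, p.Prime → p ∣ N → p ^ 2 ∣ m) :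
    vv (N * m) = vv m + cardFactors N := by
  have h1 : N.primeFactors ⊆ m.primeFactors := by
    intro p hp
    have hp' := Nat.prime_of_mem_primeFactors hp
    exact Nat.mem_primeFactors.2 ⟨hp', (dvd_pow_self p two_ne_zero).trans
      (h p hp' (Nat.dvd_of_mem_primeFactors hp)), hm⟩
  have h2 : cardFactors N = ∑ p ∈ m.primeFactors, N.factorization p := by
    rw [cardFactors_eq_sum_factorization, Finsupp.sum, Nat.support_factorization]
    apply sum_subset h1
    intro p _ hp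
    rwa [← Nat.support_factorization, Finsupp.notMem_support_iff] at hp
  unfold vv
  rw [Nat.primeFactors_mul hN hm, union_eq_right.2 h1, h2, ← sum_add_distrib]
  apply sum_congr rfl
  intro p hp
  have hp' := Nat.prime_of_mem_primeFactors hp
  rw [Nat.factorization_mul hN hm, Finsupp.add_apply]
  rcases Nat.eq_zero_or_pos (N.factorization p) with h0 | h0
  · rw [h0, zero_add, add_zero]
  · have h3 := (hp'.pow_dvd_iff_le_factorization hm).1 (h p hp' (Nat.dvd_of_factorization_pos h0.ne'))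
    rw [if_neg (by omega), if_neg (by omega)]
    omega

lemma expand_reverse {s : ℕ} (hs : 0 < s) {P : ℕ[X]} (hP : P.reverse = P) :
    (expand ℕ s P).reverse = expand ℕ s P := by
  ext n
  rw [coeff_reverse, natDegree_expand]
  by_cases hn : n ≤ P.natDegree * s
  · rw [revAt_le hn, coeff_expand hs, coeff_expand hs]
    have h1 : s ∣ P.natDegree * s - n ↔ s ∣ n := by
      constructor
      · intro h
        have := Nat.dvd_sub (Dvd.intro_left _ rfl : s ∣ P.natDegree * s) h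
        rwa [Nat.sub_sub_self hn] at this
      · intro h
        exact Nat.dvd_sub (Dvd.intro_left _ rfl) h
    by_cases h2 : s ∣ n
    · rw [if_pos h2, if_pos (h1.2 h2)]
      obtain ⟨k, rfl⟩ := h2
      have hk : k ≤ P.natDegree := by
        rw [mul_comm] at hn
        exact Nat.le_of_mul_le_mul_right hn hs
      rw [mul_comm s k, ← Nat.sub_mul, Nat.mul_div_cancel _ hs, Nat.mul_div_cancel _ hs]
      conv_rhs => rw [← hP, coeff_reverse, revAt_le hk]
    · rw [if_neg h2, if_neg (fun h => h2 (h1.1 h))]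
  · rw [revAt_eq_self_of_lt (by omega)]

lemma free_mul {M N m K1 K0 K : ℕ} (hM : M ≠ 0) (hN : N ∣ M) (hm : m ≡ M ^ 2 [MOD M ^ 3])
    (h1 : ∀ p, p.Prime → ¬ p ^ K1 ∣ M) (h0 : ∀ p, p.Prime → ¬ p ∣ M ^ 3 → ¬ p ^ K0 ∣ m)
    (hK1 : 3 * K1 ≤ K) (hK0 : K0 ≤ K) (p : ℕ) (hp : p.Prime) : ¬ p ^ K ∣ N * m := by
  intro h
  by_cases hpM : p ∣ M
  · have h2 : M ^ 2 ∣ m := (hm.dvd_iff (pow_dvd_pow M (by norm_num))).2 dvd_rfl
    obtain ⟨k, rfl⟩ := h2
    have h3 : k ≡ 1 [MOD M] := by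
      rw [pow_succ M 2] at hm
      conv at hm => enter [3]; rw [← mul_one (M ^ 2)]
      exact Nat.ModEq.mul_left_cancel' (pow_ne_zero 2 hM) hm
    have h4 : p.Coprime k := by
      have h5 := h3.gcd_eq
      rw [Nat.gcd_one_left] at h5
      exact (Nat.Coprime.coprime_dvd_right hpM h5).symm
    rw [← mul_assoc] at h
    have h5 : p ^ K ∣ M ^ 3 := by
      refine ((h4.pow_left K).dvd_of_dvd_mul_right h).trans ?_
      rw [pow_succ' M 2]
      exact Nat.mul_dvd_mul_right hN _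
    rw [hp.pow_dvd_iff_le_factorization (pow_ne_zero 3 hM), Nat.factorization_pow] at h5
    have h6 := h1 p hp
    rw [hp.pow_dvd_iff_le_factorization hM] at h6
    simp only [Finsupp.smul_apply, smul_eq_mul] at h5
    omega
  · have h2 : p.Coprime N := (Nat.Prime.coprime_iff_not_dvd hp).2 fun hh => hpM (hh.trans hN)
    exact h0 p hp (fun hh => hpM (hp.dvd_of_dvd_pow hh))
      ((pow_dvd_pow p hK0).trans ((h2.pow_left K).dvd_of_dvd_mul_left h))

/-- Infinitely many `v`-palindromes `n` with `n` and its reversal free of `K`-th powers. -/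
def PowBase (K b : ℕ) : Prop :=
  {n : ℕ | IsVPal b n ∧ (∀ p, p.Prime → ¬ p ^ K ∣ n) ∧ ∀ p, p.Prime → ¬ p ^ K ∣ rev b n}.Infinite

theorem powBase_of_seed {b s d c K1 K : ℕ} (hb : 2 ≤ b) (hs : 0 < s) (hd : 2 ≤ d)
    (hdB : d ≤ b ^ s) (hc : b ^ s ≤ d ^ c) (f : ℕ[X]) (hf0 : f.coeff 0 ≠ 0)
    (hcoef : ∀ P : ℕ[X], (∀ i, P.coeff i < d) → ∀ i, (f * expand ℕ s P).coeff i < b)
    (hco : (f.eval b * f.reverse.eval b).Coprime (2 * b))
    (hfree : ∀ p, p.Prime → ¬ p ^ K1 ∣ f.eval b * f.reverse.eval b)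
    (hne : f.eval b ≠ f.reverse.eval b)
    (hv : cardFactors (f.eval b) = cardFactors (f.reverse.eval b))
    (hK1 : 3 * K1 ≤ K) (hK : 2 * c + 2 ≤ K) : PowBase K b := by
  set M := f.eval b * f.reverse.eval b with hM
  have hM0 : M ≠ 0 := fun h => hfree 2 Nat.prime_two (h ▸ dvd_zero _)
  have hQ : (M ^ 3).Coprime (2 * b ^ s) :=
    Nat.Coprime.pow_left 3 (Nat.Coprime.mul_right (Nat.Coprime.coprime_mul_right_right hco)
      ((Nat.Coprime.coprime_mul_left_right hco).pow_right s))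
  apply Set.infinite_of_forall_exists_gt
  intro N
  obtain ⟨l, ⟨A, hA, h1, h2⟩, hl⟩ := ((sieve_main (K := 2 * c + 2) hd (by omega)
    (pow_pos (Nat.pos_of_ne_zero hM0) 3) hQ (M ^ 2)
    (fun ε hε => tail_pow hd hdB hc hε)).and (eventually_ge_atTop N)).exists
  set P := expand ℕ s (palP l A) with hP
  have hPe : P.eval b = pv (b ^ s) l A := by rw [hP, expand_eval, palP_eval]
  have hcf := hcoef _ (palP_lt hd hA)
  have h0 : (f * P).coeff 0 ≠ 0 := by
    rw [mul_coeff_zero, hP, coeff_expand hs, if_pos (dvd_zero _), Nat.zero_div, palP_zero hA]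
    simpa using hf0
  have hne0 : f * P ≠ 0 := fun h => h0 (by rw [h]; simp)
  have hr : rev b ((f * P).eval b) = f.reverse.eval b * pv (b ^ s) l A := by
    rw [rev_eval b hb _ hne0 hcf, reverse_mul_of_domain, hP, expand_reverse hs (palP_reverse hA),
      eval_mul, hPe]
  have he : (f * P).eval b = f.eval b * pv (b ^ s) l A := by rw [eval_mul, hPe]
  have hN : N < pv (b ^ s) l A := by
    refine lt_of_lt_of_le ?_ (pv_ge hA)
    exact lt_of_le_of_lt (by omega) (Nat.lt_pow_self (show 1 < b ^ s by omega))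
  have hM2 : M ^ 2 ∣ pv (b ^ s) l A := (h1.dvd_iff (pow_dvd_pow M (by norm_num))).2 dvd_rfl
  have e1 : f.eval b ≠ 0 := left_ne_zero_of_mul hM0
  have e2 : f.reverse.eval b ≠ 0 := right_ne_zero_of_mul hM0
  refine ⟨(f * P).eval b, ⟨⟨?_, not_dvd_eval b _ h0 (hcf 0), ?_, ?_⟩, ?_, ?_⟩, ?_⟩
  · rw [he]
    exact Nat.mul_pos (Nat.pos_of_ne_zero e1) (by omega)
  · rw [hr, he]
    intro h
    exact hne (Nat.eq_of_mul_eq_mul_right (by omega) h)
  · rw [hr, he, vv_mul e1 (by omega), vv_mul e2 (by omega), hv]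
    · intro p _ hp
      exact (pow_dvd_pow_of_dvd (hp.mul_left _) 2).trans hM2
    · intro p _ hp
      exact (pow_dvd_pow_of_dvd (hp.mul_right _) 2).trans hM2
  · rw [he]
    exact free_mul hM0 (Dvd.intro _ rfl) h1 hfree h2 hK1 hK
  · rw [hr]
    exact free_mul hM0 (Dvd.intro_left _ rfl) h1 hfree h2 hK1 hK
  · rw [he]
    have := Nat.pos_of_ne_zero e1
    nlinarith

lemma coeff_mul_expand_lt {b s : ℕ} (hs : 0 < s) (f : ℕ[X]) (hf : f.natDegree < s)
    (hc : ∀ i, f.coeff i < b) (P : ℕ[X]) (hP : ∀ i, P.coeff i < 2) (i : ℕ) :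
    (f * expand ℕ s P).coeff i < b := by
  rw [coeff_mul, sum_eq_single (i % s, s * (i / s))]
  · have h1 := hc (i % s)
    have h2 := hP (i / s)
    rw [coeff_expand_mul' hs]
    simp only
    nlinarith
  · rintro ⟨j, k⟩ hjk hne
    rw [HasAntidiagonal.mem_antidiagonal] at hjk
    simp only at hjk ⊢
    rw [coeff_expand hs]
    split_ifs with h
    · obtain ⟨t, rfl⟩ := h
      rw [coeff_eq_zero_of_natDegree_lt, zero_mul]
      by_contra hj
      apply hne
      have hjs : j < s := by omega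
      rw [← hjk, Nat.add_mul_mod_self_left, Nat.mod_eq_of_lt hjs, Nat.add_mul_div_left _ _ hs,
        Nat.div_eq_of_lt hjs, zero_add]
    · exact mul_zero _
  · intro h
    exact absurd (HasAntidiagonal.mem_antidiagonal.2 (Nat.mod_add_div i s)) h

theorem exists_powBase_of_seed {b : ℕ} (hb : 2 ≤ b) (f : ℕ[X]) (hf0 : f.coeff 0 ≠ 0)
    (hc : ∀ i, f.coeff i < b) (hco : (f.eval b * f.reverse.eval b).Coprime (2 * b))
    (hne : f.eval b ≠ f.reverse.eval b)
    (hv : cardFactors (f.eval b) = cardFactors (f.reverse.eval b)) : ∃ K, PowBase K b := by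
  set s := f.natDegree + 1 with hs
  have hM0 : f.eval b * f.reverse.eval b ≠ 0 := by
    intro h
    rw [h, Nat.coprime_zero_left] at hco
    omega
  refine ⟨_, powBase_of_seed (s := s) (d := 2) (c := b ^ s) (K1 := f.eval b * f.reverse.eval b) hb
    (by omega) le_rfl (hb.trans (Nat.le_self_pow (by omega) b)) Nat.lt_two_pow_self.le f hf0
    (coeff_mul_expand_lt (by omega) f (by omega) hc) hco ?_ hne hv (le_max_left _ _)
    (le_max_right _ _)⟩
  intro p hp h
  exact absurd (Nat.le_of_dvd (Nat.pos_of_ne_zero hM0) h) (not_le.2 (Nat.lt_pow_self hp.one_lt))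

lemma PowBase.mono {K K' b : ℕ} (h : PowBase K b) (hK : K ≤ K') : PowBase K' b :=
  Set.Infinite.mono (fun _ hn => ⟨hn.1, fun p hp hh => hn.2.1 p hp ((pow_dvd_pow p hK).trans hh),
    fun p hp hh => hn.2.2 p hp ((pow_dvd_pow p hK).trans hh)⟩) h

end Pool.Agent.Lib.VPal
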