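import Pool.Agent.Lib.MP_200139_nt.Defs

set_option autoImplicit false

namespace Pool.Agent.Lib.VPal

open Finset Polynomial

lemma ofDigits_map_range (b : ℕ) (a : ℕ → ℕ) (n : ℕ) :
    Nat.ofDigits b ((List.range n).map a) = ∑ i ∈ range n, a i * b ^ i := by
  induction n with
  | zero => simp
  | succ n ih =>
    rw [List.range_succ, List.map_append, Nat.ofDigits_append, ih, sum_range_succ]
    simp [mul_comm]

lemma reverse_map_range (a : ℕ → ℕ) (n : ℕ) :
    ((List.range n).map a).reverse = (List.range n).map (fun i => a (n - 1 - i)) := by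
  apply List.ext_getElem
  · simp
  · intro i h1 h2
    simp

lemma rev_sum (b : ℕ) (hb : 2 ≤ b) (a : ℕ → ℕ) (D : ℕ) (ha : ∀ i, a i < b) (hD : a D ≠ 0) :
    rev b (∑ i ∈ range (D + 1), a i * b ^ i) = ∑ i ∈ range (D + 1), a (D - i) * b ^ i := by
  unfold rev
  rw [← ofDigits_map_range, Nat.digits_ofDigits b hb, reverse_map_range, ofDigits_map_range]
  · simp
  · intro l hl
    obtain ⟨i, -, rfl⟩ := List.mem_map.1 hl
    exact ha i
  · intro h
    simp [List.range_succ, hD]

lemma rev_eval (b : ℕ) (hb : 2 ≤ b) (F : ℕ[X]) (hF : F ≠ 0) (hc : ∀ i, F.coeff i < b) :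
    rev b (F.eval b) = F.reverse.eval b := by
  rw [eval_eq_sum_range, rev_sum b hb _ _ hc (leadingCoeff_ne_zero.2 hF),
    eval_eq_sum_range' (Nat.lt_succ_of_le (reverse_natDegree_le F))]
  apply sum_congr rfl
  intro i hi
  rw [coeff_reverse, revAt_le (Nat.lt_succ_iff.1 (mem_range.1 hi))]

lemma coeff_mul_le (f P : ℕ[X]) (c : ℕ) (hP : ∀ i, P.coeff i ≤ c) (i : ℕ) :
    (f * P).coeff i ≤ f.eval 1 * c := by
  induction f using Polynomial.induction_on' with
  | add p q hp hq =>
    rw [add_mul, coeff_add, eval_add, add_mul]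
    omega
  | monomial n a =>
    rw [← C_mul_X_pow_eq_monomial, mul_assoc, coeff_C_mul, coeff_X_pow_mul']
    simp only [eval_mul, eval_C, eval_pow, eval_X, one_pow, mul_one]
    split_ifs
    · exact Nat.mul_le_mul_left _ (hP _)
    · simp

lemma not_dvd_eval (b : ℕ) (F : ℕ[X]) (h0 : F.coeff 0 ≠ 0) (hc : F.coeff 0 < b) :
    ¬ b ∣ F.eval b := by
  intro h
  have h1 : F = X * F.divX + C (F.coeff 0) := (X_mul_divX_add F).symm
  rw [h1] at h
  simp only [eval_add, eval_mul, eval_X, eval_C] at h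
  have h2 := (Nat.dvd_add_right (Dvd.intro _ rfl)).1 h
  exact absurd (Nat.le_of_dvd (Nat.pos_of_ne_zero h0) h2) (by omega)

/-- The sum of the distinct primes dividing `n`. -/
def sopf (n : ℕ) : ℕ := ∑ p ∈ n.primeFactors, p

lemma vv_of_squarefree {n : ℕ} (hn : Squarefree n) : vv n = sopf n := by
  unfold vv sopf
  apply sum_congr rfl
  intro p hp
  rw [if_pos]
  have h1 := hn.natFactorization_le_one p
  have h2 := (Nat.prime_of_mem_primeFactors hp).factorization_pos_of_dvd hn.ne_zero
    (Nat.dvd_of_mem_primeFactors hp)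
  omega

lemma sopf_mul {a b : ℕ} (h : a.Coprime b) : sopf (a * b) = sopf a + sopf b := by
  unfold sopf
  rw [h.primeFactors_mul, sum_union h.disjoint_primeFactors]

lemma sopf_prod {α : Type*} (A : Finset α) (N : α → ℕ)
    (h : ∀ e ∈ A, ∀ e' ∈ A, e ≠ e' → (N e).Coprime (N e')) :
    sopf (∏ e ∈ A, N e) = ∑ e ∈ A, sopf (N e) := by
  classical
  induction A using Finset.induction_on with
  | empty => simp [sopf]
  | insert a A ha ih =>
    rw [prod_insert ha, sum_insert ha, sopf_mul, ih]
    · intro e he e' he' hne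
      exact h e (mem_insert_of_mem he) e' (mem_insert_of_mem he') hne
    · apply Nat.Coprime.prod_right
      intro e he
      exact h a (mem_insert_self _ _) e (mem_insert_of_mem he) (fun hh => ha (hh ▸ he))

lemma squarefree_prod {α : Type*} (A : Finset α) (N : α → ℕ) (hs : ∀ e ∈ A, Squarefree (N e))
    (h : ∀ e ∈ A, ∀ e' ∈ A, e ≠ e' → (N e).Coprime (N e')) :
    Squarefree (∏ e ∈ A, N e) := by
  classical
  induction A using Finset.induction_on with
  | empty => simp
  | insert a A ha ih =>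
    rw [prod_insert ha, Nat.squarefree_mul]
    · refine ⟨hs a (mem_insert_self _ _), ih (fun e he => hs e (mem_insert_of_mem he)) ?_⟩
      intro e he e' he' hne
      exact h e (mem_insert_of_mem he) e' (mem_insert_of_mem he') hne
    · apply Nat.Coprime.prod_right
      intro e he
      exact h a (mem_insert_self _ _) e (mem_insert_of_mem he) (fun hh => ha (hh ▸ he))

/-- The linear polynomial `x X + y`. -/
noncomputable def lin (x y : ℕ) : ℕ[X] := C x * X + C y

lemma lin_eval (x y b : ℕ) : (lin x y).eval b = x * b + y := by simp [lin]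

lemma lin_reverse {x y : ℕ} (hx : x ≠ 0) : (lin x y).reverse = lin y x := by
  have hd : (lin x y).natDegree = 1 := natDegree_linear hx
  ext i
  rw [coeff_reverse, hd]
  rcases i with _ | _ | i
  · simp [lin]
  · simp [lin, coeff_X, coeff_C]
  · rw [revAt_eq_self_of_lt (by omega)]
    simp [lin, coeff_X, coeff_C]

lemma reverse_prod {α : Type*} (A : Finset α) (f : α → ℕ[X]) :
    (∏ e ∈ A, f e).reverse = ∏ e ∈ A, (f e).reverse := by
  classical
  induction A using Finset.induction_on with
  | empty => simp only [prod_empty]; rw [← C_1, reverse_C]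
  | insert a A ha ih => rw [prod_insert ha, prod_insert ha, reverse_mul_of_domain, ih]

/-- A seed and arbitrarily large squarefree palindromic multipliers give a good base. -/
theorem sqfBase_of_seed (b d : ℕ) (hb : 2 ≤ b) (f : ℕ[X]) (hf0 : f.coeff 0 ≠ 0)
    (hfd : f.eval 1 * d ≤ b) (hs1 : Squarefree (f.eval b)) (hs2 : Squarefree (f.reverse.eval b))
    (hne : f.eval b ≠ f.reverse.eval b) (hv : sopf (f.eval b) = sopf (f.reverse.eval b))
    (hP : ∀ N : ℕ, ∃ P : ℕ[X], P.reverse = P ∧ (∀ i, P.coeff i < d) ∧ P.coeff 0 ≠ 0 ∧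
      N < P.eval b ∧ Squarefree (P.eval b) ∧
      (P.eval b).Coprime (f.eval b * f.reverse.eval b)) : SqfBase b := by
  apply Set.infinite_of_forall_exists_gt
  intro N
  obtain ⟨P, hP1, hP2, hP3, hP4, hP5, hP6⟩ := hP N
  have hd : 1 ≤ d := by have := hP2 0; omega
  have hf1 : 1 ≤ f.eval 1 := by
    rw [eval_eq_sum_range]
    refine le_trans ?_ (single_le_sum (f := fun i => f.coeff i * 1 ^ i) (fun _ _ => Nat.zero_le _)
      (mem_range.2 (Nat.succ_pos _)))
    simp only [pow_zero, mul_one]
    omega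
  have hc : ∀ i, (f * P).coeff i < b := by
    intro i
    have h1 := coeff_mul_le f P (d - 1) (fun i => by have := hP2 i; omega) i
    have h2 : f.eval 1 * (d - 1) + f.eval 1 = f.eval 1 * d := by
      rw [← Nat.mul_succ]; congr 1; omega
    omega
  have h0 : (f * P).coeff 0 ≠ 0 := by rw [mul_coeff_zero]; exact mul_ne_zero hf0 hP3
  have hne0 : f * P ≠ 0 := fun h => h0 (by rw [h]; simp)
  have hr : rev b ((f * P).eval b) = f.reverse.eval b * P.eval b := by
    rw [rev_eval b hb _ hne0 hc, reverse_mul_of_domain, hP1, eval_mul]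
  have c1 : (f.eval b).Coprime (P.eval b) := (Nat.Coprime.coprime_mul_right_right hP6).symm
  have c2 : (f.reverse.eval b).Coprime (P.eval b) :=
    (Nat.Coprime.coprime_mul_left_right hP6).symm
  have s1 : Squarefree ((f * P).eval b) := by
    rw [eval_mul, Nat.squarefree_mul c1]; exact ⟨hs1, hP5⟩
  have s2 : Squarefree (rev b ((f * P).eval b)) := by
    rw [hr, Nat.squarefree_mul c2]; exact ⟨hs2, hP5⟩
  refine ⟨(f * P).eval b, ⟨⟨Nat.pos_of_ne_zero s1.ne_zero, not_dvd_eval b _ h0 (hc 0), ?_, ?_⟩,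
    s1, s2⟩, ?_⟩
  · rw [hr, eval_mul]
    intro h
    exact hne (Nat.eq_of_mul_eq_mul_right (by omega) h)
  · rw [vv_of_squarefree s1, vv_of_squarefree s2, hr, eval_mul, sopf_mul c1, sopf_mul c2, hv]
  · rw [eval_mul]
    have := Nat.pos_of_ne_zero hs1.ne_zero
    nlinarith

end Pool.Agent.Lib.VPal
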