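import Pool.Agent.Lib.MP_200139_nt.Pow

set_option autoImplicit false

namespace Pool.Agent.Lib.VPal

open Finset Polynomial ArithmeticFunction

/-- The polynomial `1 + x X ^ a + X ^ d`. -/
noncomputable def tri (x a d : ℕ) : ℕ[X] := 1 + C x * X ^ a + X ^ d

/-- The number `1 + x b ^ a + b ^ d`. -/
def tv (b x a d : ℕ) : ℕ := 1 + x * b ^ a + b ^ d

lemma tri_eval (b x a d : ℕ) : (tri x a d).eval b = tv b x a d := by simp [tri, tv]

lemma tri_coeff (x a d i : ℕ) : (tri x a d).coeff i =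
    (if i = 0 then 1 else 0) + (if i = a then x else 0) + if i = d then 1 else 0 := by
  simp [tri, coeff_one, coeff_X_pow]

lemma tri_reverse {x a d : ℕ} (ha : 0 < a) (had : a < d) :
    (tri x a d).reverse = tri x (d - a) d := by
  have hd : (tri x a d).natDegree = d := by
    apply natDegree_eq_of_le_of_coeff_ne_zero
    · rw [natDegree_le_iff_coeff_eq_zero]
      intro n hn
      rw [tri_coeff]
      split_ifs <;> omega
    · rw [tri_coeff, if_pos rfl]
      omega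
  ext i
  rw [coeff_reverse, hd]
  by_cases hi : i ≤ d
  · rw [revAt_le hi, tri_coeff, tri_coeff]
    split_ifs <;> omega
  · rw [revAt_eq_self_of_lt (by omega), tri_coeff, tri_coeff]
    split_ifs <;> omega

lemma tv_coprime {b x a d : ℕ} (hx : Odd x) (ha : 0 < a) (hd : 0 < d) :
    (tv b x a d).Coprime (2 * b) := by
  have h1 : (tv b x a d).Coprime b := by
    obtain ⟨a, rfl⟩ : ∃ k, a = k + 1 := ⟨a - 1, by omega⟩
    obtain ⟨d, rfl⟩ : ∃ k, d = k + 1 := ⟨d - 1, by omega⟩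
    have : tv b x (a + 1) (d + 1) = 1 + (x * b ^ a + b ^ d) * b := by unfold tv; ring
    rw [this, Nat.coprime_add_mul_right_left]
    exact Nat.coprime_one_left b
  refine Nat.Coprime.mul_right ?_ h1
  rcases Nat.even_or_odd b with hb | hb
  · exact Nat.Coprime.coprime_dvd_right hb.two_dvd h1
  · rw [Nat.coprime_two_right]
    unfold tv
    exact (odd_one.add_odd (hx.mul hb.pow)).add_odd hb.pow

lemma tv_ne_zero (b x a d : ℕ) : tv b x a d ≠ 0 := by unfold tv; omega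

lemma cardFactors_le {n c : ℕ} (hn : n ≠ 0) (h : n ≤ 2 ^ c) : cardFactors n ≤ c := by
  rw [cardFactors_apply]
  have h1 := List.pow_card_le_prod n.primeFactorsList 2
    (fun p hp => (Nat.prime_of_mem_primeFactorsList hp).two_le)
  rw [Nat.prod_primeFactorsList hn] at h1
  exact (Nat.pow_le_pow_iff_right (by norm_num)).1 (h1.trans h)

lemma pigeon {ι : Type*} (G : Finset ι) (u v : ι → ℕ) (c : ℕ)
    (h : ∀ i ∈ G, u i ≠ 0 ∧ v i ≠ 0 ∧ u i ≤ 2 ^ c ∧ v i ≤ 2 ^ c) (hG : 2 * c + 1 < G.card) :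
    ∃ i ∈ G, ∃ j ∈ G, i ≠ j ∧ cardFactors (u i * v j) = cardFactors (v i * u j) := by
  obtain ⟨i, hi, j, hj, hij, he⟩ := exists_ne_map_eq_of_card_lt_of_maps_to
    (t := range (2 * c + 1)) (by rwa [card_range])
    (f := fun i => cardFactors (u i) + (c - cardFactors (v i))) (by
      intro i hi
      obtain ⟨h1, -, h3, -⟩ := h i hi
      have := cardFactors_le h1 h3
      simp only [coe_range, Set.mem_Iio]
      omega)
  refine ⟨i, hi, j, hj, hij, ?_⟩
  obtain ⟨h1, h2, -, h4⟩ := h i hi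
  obtain ⟨h5, h6, -, h8⟩ := h j hj
  have := cardFactors_le h2 h4
  have := cardFactors_le h6 h8
  rw [cardFactors_mul h1 h6, cardFactors_mul h2 h5]
  omega

lemma pair_rev {x a d x' c e : ℕ} (ha : 0 < a) (had : a < d) (hc : 0 < c) (hce : c < e) :
    (tri x a d * tri x' (e - c) e).reverse = tri x (d - a) d * tri x' c e := by
  rw [reverse_mul_of_domain, tri_reverse ha had, tri_reverse (by omega) (by omega),
    Nat.sub_sub_self hce.le]

lemma pair_zero {x a d x' c e : ℕ} (ha : 0 < a) (had : a < d) (hc : 0 < c) (hce : c < e) :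
    (tri x a d * tri x' c e).coeff 0 ≠ 0 := by
  rw [mul_coeff_zero, tri_coeff, tri_coeff]
  simp

lemma tri_ne {b D a d c e : ℕ} (hb : 2 ≤ b) (ha : a ≤ D) (hd : 2 * D < d) (hc : c ≤ D)
    (he : 2 * D < e) (h : tv b 1 a d * tv b 1 (e - c) e = tv b 1 (d - a) d * tv b 1 c e) :
    a = c ∧ d = e := by
  have k0 : ∀ n, D < n → b ^ n ≡ 0 [MOD b ^ (D + 1)] := fun n hn =>
    (Nat.modEq_zero_iff_dvd).2 (pow_dvd_pow b hn)
  have k1 : ∀ a d, D < d → tv b 1 a d ≡ 1 + b ^ a [MOD b ^ (D + 1)] := by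
    intro a d hd
    unfold tv
    rw [one_mul]
    exact (Nat.ModEq.refl _).add (k0 d hd)
  have k2 : ∀ a d, D < a → D < d → tv b 1 a d ≡ 1 [MOD b ^ (D + 1)] := fun a d ha hd =>
    (k1 a d hd).trans ((Nat.ModEq.refl 1).add (k0 a ha))
  have h1 := (k1 a d (by omega)).mul (k2 (e - c) e (by omega) (by omega))
  have h2 := (k2 (d - a) d (by omega) (by omega)).mul (k1 c e (by omega))
  rw [h] at h1
  have h3 := h1.symm.trans h2
  rw [mul_one, one_mul] at h3
  have k3 : ∀ n, n ≤ D → b ^ n < b ^ (D + 1) := fun n hn => Nat.pow_lt_pow_right (by omega) (by omega)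
  have h4 := (Nat.ModEq.add_left_cancel' 1 h3).eq_of_lt_of_lt (k3 a ha) (k3 c hc)
  have h5 : a = c := Nat.pow_right_injective hb h4
  subst h5
  refine ⟨rfl, ?_⟩
  obtain ⟨u, rfl⟩ : ∃ u, d = a + u := ⟨d - a, by omega⟩
  obtain ⟨v, rfl⟩ : ∃ v, e = a + v := ⟨e - a, by omega⟩
  simp only [tv, Nat.add_sub_cancel_left, pow_add, one_mul] at h
  have h6 : ((b : ℤ) ^ v - b ^ u) * (1 + b ^ a + (b ^ a) ^ 2) = 0 := by
    have := congrArg (Nat.cast : ℕ → ℤ) h
    push_cast at this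
    linear_combination this
  rcases mul_eq_zero.1 h6 with h7 | h7
  · have h8 : b ^ v = b ^ u := by exact_mod_cast sub_eq_zero.1 h7
    rw [Nat.pow_right_injective hb h8]
  · exact absurd h7 (by positivity)

theorem exists_powBase_ge_four {b : ℕ} (hb : 4 ≤ b) : ∃ K, PowBase K b := by
  set D := 8 * b + 1 with hD
  have hle : ∀ a d, a ≤ d → d ≤ 3 * D → tv b 1 a d ≤ 2 ^ (b * (3 * D + 1)) := by
    intro a d h1 h2
    have e1 : b ^ a ≤ b ^ (3 * D) := Nat.pow_le_pow_right (by omega) (by omega)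
    have e2 : b ^ d ≤ b ^ (3 * D) := Nat.pow_le_pow_right (by omega) h2
    have e3 : 1 ≤ b ^ (3 * D) := Nat.one_le_pow _ _ (by omega)
    have e4 : b ^ (3 * D + 1) ≤ (2 ^ b) ^ (3 * D + 1) :=
      Nat.pow_le_pow_left Nat.lt_two_pow_self.le _
    rw [← pow_mul, pow_succ] at e4
    unfold tv
    nlinarith
  obtain ⟨⟨a, d⟩, hi, ⟨c, e⟩, hj, hij, he⟩ := pigeon (Icc 1 D ×ˢ Ioc (2 * D) (3 * D))
    (fun i => tv b 1 i.1 i.2) (fun i => tv b 1 (i.2 - i.1) i.2) (b * (3 * D + 1)) (by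
      rintro ⟨a, d⟩ hi
      simp only [mem_product, mem_Icc, mem_Ioc] at hi
      exact ⟨tv_ne_zero _ _ _ _, tv_ne_zero _ _ _ _, hle _ _ (by omega) hi.2.2,
        hle _ _ (by omega) hi.2.2⟩) (by
      rw [card_product, Nat.card_Icc, Nat.card_Ioc, show 3 * D - 2 * D = D by omega,
        Nat.add_sub_cancel]
      nlinarith)
  simp only [mem_product, mem_Icc, mem_Ioc] at hi hj he
  have hr := pair_rev (x := 1) (x' := 1) hi.1.1 (show a < d by omega) hj.1.1 (show c < e by omega)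
  apply exists_powBase_of_seed (by omega) (tri 1 a d * tri 1 (e - c) e)
    (pair_zero hi.1.1 (by omega) (by omega) (by omega))
  · intro i
    have h1 := coeff_mul_le (tri 1 a d) (tri 1 (e - c) e) 1 (by
      intro i
      rw [tri_coeff]
      split_ifs <;> omega) i
    rw [tri_eval] at h1
    simp only [tv, one_pow] at h1
    omega
  · rw [hr, eval_mul, eval_mul, tri_eval, tri_eval, tri_eval, tri_eval]
    refine Nat.Coprime.mul_left (Nat.Coprime.mul_left ?_ ?_) (Nat.Coprime.mul_left ?_ ?_) <;>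
      exact tv_coprime odd_one (by omega) (by omega)
  · rw [hr, eval_mul, eval_mul, tri_eval, tri_eval, tri_eval, tri_eval]
    intro h
    obtain ⟨h1, h2⟩ := tri_ne (D := D) (by omega) hi.1.2 hi.2.1 hj.1.2 hj.2.1 h
    exact hij (Prod.ext h1 h2)
  · rw [hr, eval_mul, eval_mul, tri_eval, tri_eval, tri_eval, tri_eval]
    exact he

theorem exists_powBase {b : ℕ} (hb : 2 ≤ b) : ∃ K, PowBase K b := by
  by_cases h4 : 4 ≤ b
  · exact exists_powBase_ge_four h4
  obtain rfl | rfl : b = 2 ∨ b = 3 := by omega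
  · have hr := tri_reverse (x := 1) (a := 1) (d := 3) (by norm_num) (by norm_num)
    apply exists_powBase_of_seed le_rfl (tri 1 1 3) (by rw [tri_coeff]; simp)
    · intro i
      rw [tri_coeff]
      split_ifs <;> omega
    · rw [hr, tri_eval, tri_eval]; decide
    · rw [hr, tri_eval, tri_eval]; decide
    · rw [hr, tri_eval, tri_eval, cardFactors_apply_prime (by norm_num [tv]),
        cardFactors_apply_prime (by norm_num [tv])]
  · have hr := lin_reverse (x := 1) (y := 2) one_ne_zero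
    apply exists_powBase_of_seed (by norm_num) (lin 1 2) (by simp [lin])
    · intro i
      rcases i with _ | _ | i <;> simp [lin, coeff_X, coeff_C]
    · rw [hr, lin_eval, lin_eval]; decide
    · rw [hr, lin_eval, lin_eval]; decide
    · rw [hr, lin_eval, lin_eval, cardFactors_apply_prime (by norm_num),
        cardFactors_apply_prime (by norm_num)]

lemma card_cong_le (F : Finset ℕ) (Y m : ℕ) (hF : F ⊆ range Y)
    (h : ∀ a ∈ F, ∀ a' ∈ F, a ≡ a' [MOD m]) : F.card ≤ Y / m + 1 := by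
  rw [← card_range (Y / m + 1)]
  apply card_le_card_of_injOn (fun a => a / m)
  · intro a ha
    simp only [coe_range, Set.mem_Iio]
    exact Nat.lt_succ_of_le (Nat.div_le_div_right (mem_range.1 (hF ha)).le)
  · intro a ha a' ha' hh
    rw [← Nat.div_add_mod a m, ← Nat.div_add_mod a' m, h a ha a' ha']
    simp only at hh
    rw [hh]

open Classical in
lemma card_bad_cub {b t a : ℕ} (ht : 12 ≤ t) (h1 : 2 ^ (8 * t) ≤ b) (h2 : b < 2 ^ (8 * t + 8))
    (ha0 : 0 < a) (ha : a ≤ 2) :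
    (((range (2 ^ t)).filter fun j => ∃ p, p.Prime ∧ p ^ 64 ∣ tv b (2 * j + 1) a 3).card : ℝ) ≤
      2 ^ t / 4 := by
  have hsub : ((range (2 ^ t)).filter fun j => ∃ p, p.Prime ∧ p ^ 64 ∣ tv b (2 * j + 1) a 3) ⊆
      (Ioc 1 (2 ^ (t - 3))).biUnion fun p => (range (2 ^ t)).filter fun j =>
        p ^ 64 ∣ tv b (2 * j + 1) a 3 := by
    intro j hj
    obtain ⟨hj, p, hp, hd⟩ := mem_filter.1 hj
    refine mem_biUnion.2 ⟨p, mem_Ioc.2 ⟨hp.one_lt, ?_⟩, mem_filter.2 ⟨hj, hd⟩⟩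
    by_contra hc
    have e1 := Nat.le_of_dvd (Nat.pos_of_ne_zero (tv_ne_zero _ _ _ _)) hd
    have e2 : (2 ^ (t - 3)) ^ 64 ≤ p ^ 64 := Nat.pow_le_pow_left (by omega) _
    have e3 : 2 ^ (t + 1) ≤ 2 ^ (8 * t) := Nat.pow_le_pow_right (by norm_num) (by omega)
    have e4 : 2 * j + 1 ≤ b := by
      rw [mem_range] at hj
      rw [pow_succ] at e3
      omega
    have e5 : 3 ≤ b := by
      have : 2 ^ 2 ≤ 2 ^ (8 * t) := Nat.pow_le_pow_right (by norm_num) (by omega)
      omega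
    have e6 : tv b (2 * j + 1) a 3 ≤ b ^ 4 := by
      have f1 : b ^ a ≤ b ^ 2 := Nat.pow_le_pow_right (by omega) ha
      have f2 : (2 * j + 1) * b ^ a ≤ b * b ^ 2 := Nat.mul_le_mul e4 f1
      have f3 : 1 ≤ b ^ 3 := Nat.one_le_pow _ _ (by omega)
      unfold tv
      nlinarith
    have e7 : b ^ 4 < (2 ^ (8 * t + 8)) ^ 4 := Nat.pow_lt_pow_left h2 (by norm_num)
    have e8 : (2 ^ (8 * t + 8)) ^ 4 ≤ (2 ^ (t - 3)) ^ 64 := by
      rw [← pow_mul, ← pow_mul]
      exact Nat.pow_le_pow_right (by norm_num) (by omega)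
    omega
  have h3 := (Nat.cast_le (α := ℝ)).2 ((card_le_card hsub).trans card_biUnion_le)
  push_cast at h3
  refine h3.trans ((sum_le_sum (g := fun p : ℕ => 2 ^ t / 8 * ((p : ℝ) ^ 2)⁻¹ + 1) ?_).trans ?_)
  · intro p hp
    have hp2 : 2 ≤ p := (mem_Ioc.1 hp).1
    have h4 := card_cong_le ((range (2 ^ t)).filter fun j => p ^ 64 ∣ tv b (2 * j + 1) a 3) (2 ^ t)
      (p ^ 64) (filter_subset _ _) (by
        intro j hj j' hj'
        have f1 := (mem_filter.1 hj).2
        have f2 := (mem_filter.1 hj').2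
        have f3 : (p ^ 64).Coprime (2 * b) := Nat.Coprime.coprime_dvd_left f1
          (tv_coprime (odd_two_mul_add_one j) ha0 (by norm_num))
        have f4 : (p ^ 64).Coprime (2 * b ^ a) :=
          Nat.Coprime.mul_right (Nat.Coprime.coprime_mul_right_right f3)
            ((Nat.Coprime.coprime_mul_left_right f3).pow_right a)
        have f5 := ((Nat.modEq_zero_iff_dvd).2 f1).trans ((Nat.modEq_zero_iff_dvd).2 f2).symm
        have f6 : ∀ j, tv b (2 * j + 1) a 3 = 2 * b ^ a * j + (1 + b ^ a + b ^ 3) := by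
          intro j; unfold tv; ring
        rw [f6, f6] at f5
        exact Nat.ModEq.cancel_left_of_coprime f4 (Nat.ModEq.add_right_cancel' _ f5))
    have h5 := (Nat.cast_le (α := ℝ)).2 h4
    have h6 := Nat.cast_div_le (α := ℝ) (m := 2 ^ t) (n := p ^ 64)
    push_cast at h5 h6
    have hp' : (2 : ℝ) ≤ p := by exact_mod_cast hp2
    have h7 : 8 * (p : ℝ) ^ 2 ≤ p ^ 64 := by
      have : (2 : ℝ) ^ 62 ≤ p ^ 62 := by gcongr
      calc 8 * (p : ℝ) ^ 2 ≤ p ^ 62 * p ^ 2 := by gcongr; linarith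
        _ = _ := by ring
    have h8 : (2 : ℝ) ^ t / p ^ 64 ≤ 2 ^ t / (8 * p ^ 2) := by gcongr
    have h9 : (2 : ℝ) ^ t / (8 * p ^ 2) = 2 ^ t / 8 * ((p : ℝ) ^ 2)⁻¹ := by field_simp
    linarith
  · rw [sum_add_distrib, ← mul_sum, sum_const, Nat.card_Ioc, nsmul_eq_mul, mul_one]
    have h4 := sum_Ioc_inv_sq_le_sub (α := ℝ) one_ne_zero
      (show 1 ≤ 2 ^ (t - 3) from Nat.one_le_two_pow)
    have h5 : (0 : ℝ) ≤ ((2 ^ (t - 3) : ℕ) : ℝ)⁻¹ := by positivity
    have h6 : ((2 ^ (t - 3) - 1 : ℕ) : ℝ) ≤ 2 ^ t / 8 := by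
      have f1 : (2 ^ (t - 3) - 1) * 8 ≤ 2 ^ t := by
        have : 2 ^ t = 2 ^ (t - 3) * 8 := by
          rw [show 8 = 2 ^ 3 by norm_num, ← pow_add]; congr 1; omega
        omega
      rw [le_div_iff₀ (by norm_num)]
      exact_mod_cast f1
    have h7 : (2 : ℝ) ^ t / 8 * ∑ p ∈ Ioc (1 : ℕ) (2 ^ (t - 3)), ((p : ℝ) ^ 2)⁻¹ ≤ 2 ^ t / 8 * 1 := by
      gcongr
      simp only [Nat.cast_one, inv_one] at h4
      linarith
    linarith

lemma not_pow_dvd_mul {p a c x y : ℕ} (hp : p.Prime) (hx : ¬ p ^ a ∣ x) (hy : ¬ p ^ c ∣ y) :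
    ¬ p ^ (a + c) ∣ x * y := by
  have hx0 : x ≠ 0 := fun h => hx (h ▸ dvd_zero _)
  have hy0 : y ≠ 0 := fun h => hy (h ▸ dvd_zero _)
  rw [hp.pow_dvd_iff_le_factorization hx0] at hx
  rw [hp.pow_dvd_iff_le_factorization hy0] at hy
  rw [hp.pow_dvd_iff_le_factorization (mul_ne_zero hx0 hy0), Nat.factorization_mul hx0 hy0,
    Finsupp.add_apply]
  omega

theorem powBase_large {b : ℕ} (hb : 2 ^ 96 ≤ b) : PowBase 768 b := by
  classical
  have hb0 : b ≠ 0 := by positivity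
  set t := Nat.log 2 b / 8 with ht
  have hl : 96 ≤ Nat.log 2 b := Nat.le_log_of_pow_le (by norm_num) hb
  have ht12 : 12 ≤ t := by omega
  have h1 : 2 ^ (8 * t) ≤ b :=
    (Nat.pow_le_pow_right (by norm_num) (by omega)).trans (Nat.pow_log_le_self 2 hb0)
  have h2 : b < 2 ^ (8 * t + 8) :=
    (Nat.lt_pow_succ_log_self (by norm_num) b).trans_le
      (Nat.pow_le_pow_right (by norm_num) (by omega))
  set G := (range (2 ^ t)).filter fun j => ∀ p, p.Prime →
    ¬ p ^ 64 ∣ tv b (2 * j + 1) 2 3 ∧ ¬ p ^ 64 ∣ tv b (2 * j + 1) 1 3 with hG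
  have hcard : 2 * (32 * t + 32) + 1 < G.card := by
    have e1 := card_bad_cub ht12 h1 h2 (a := 2) (by norm_num) le_rfl
    have e2 := card_bad_cub ht12 h1 h2 (a := 1) (by norm_num) (by norm_num)
    have hsub : range (2 ^ t) ⊆ G ∪ (((range (2 ^ t)).filter fun j =>
        ∃ p, p.Prime ∧ p ^ 64 ∣ tv b (2 * j + 1) 2 3) ∪ (range (2 ^ t)).filter fun j =>
        ∃ p, p.Prime ∧ p ^ 64 ∣ tv b (2 * j + 1) 1 3) := by
      intro j hj
      simp only [hG, mem_union, mem_filter, hj, true_and]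
      by_contra hc
      push Not at hc
      obtain ⟨⟨p, hp, h⟩, h3, h4⟩ := hc
      exact h4 p hp (h (h3 p hp))
    have e3 := (Nat.cast_le (α := ℝ)).2 ((card_le_card hsub).trans ((card_union_le _ _).trans
      (Nat.add_le_add_left (card_union_le _ _) _)))
    rw [card_range] at e3
    push_cast at e3
    have e4 : ∀ n, 12 ≤ n → 2 * (2 * (32 * n + 32) + 1) < 2 ^ n := by
      intro n hn
      induction n, hn using Nat.le_induction with
      | base => norm_num
      | succ n hn ih => rw [pow_succ]; omega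
    have e5 := (Nat.cast_lt (α := ℝ)).2 (e4 t ht12)
    rw [← Nat.cast_lt (α := ℝ)]
    push_cast at e5 ⊢
    linarith
  have hb2 : 4 ≤ b := le_trans (by norm_num) hb
  have hx : ∀ j ∈ G, 2 * j + 3 ≤ 2 ^ (t + 2) := by
    intro j hj
    have := mem_range.1 (mem_filter.1 hj).1
    rw [pow_add]
    omega
  have hle : ∀ j ∈ G, ∀ a ≤ 2, tv b (2 * j + 1) a 3 ≤ 2 ^ (32 * t + 32) := by
    intro j hj a ha
    have e3 : 2 ^ (t + 2) ≤ 2 ^ (8 * t) := Nat.pow_le_pow_right (by norm_num) (by omega)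
    have e4 : 2 * j + 1 ≤ b := by have := hx j hj; omega
    have f1 : b ^ a ≤ b ^ 2 := Nat.pow_le_pow_right (by omega) ha
    have f2 : (2 * j + 1) * b ^ a ≤ b * b ^ 2 := Nat.mul_le_mul e4 f1
    have f3 : 1 ≤ b ^ 3 := Nat.one_le_pow _ _ (by omega)
    have e7 : b ^ 4 ≤ (2 ^ (8 * t + 8)) ^ 4 := Nat.pow_le_pow_left h2.le _
    rw [← pow_mul, show (8 * t + 8) * 4 = 32 * t + 32 by ring] at e7
    unfold tv
    nlinarith
  obtain ⟨i, hi, j, hj, hij, he⟩ := pigeon G (fun j => tv b (2 * j + 1) 2 3)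
    (fun j => tv b (2 * j + 1) 1 3) (32 * t + 32) (fun j hj =>
      ⟨tv_ne_zero _ _ _ _, tv_ne_zero _ _ _ _, hle j hj 2 le_rfl, hle j hj 1 (by norm_num)⟩) hcard
  have hr := pair_rev (x := 2 * i + 1) (x' := 2 * j + 1) (a := 2) (d := 3) (c := 2) (e := 3)
    (by norm_num) (by norm_num) (by norm_num) (by norm_num)
  simp only [show 3 - 2 = 1 by norm_num] at hr
  have hd : 2 ^ (6 * t - 4) ≤ b / 2 ^ (2 * t + 4) := by
    rw [Nat.le_div_iff_mul_le (by positivity), ← pow_add]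
    exact le_trans (Nat.pow_le_pow_right (by norm_num) (by omega)) h1
  have hd2 : 2 ≤ b / 2 ^ (2 * t + 4) :=
    le_trans (Nat.le_self_pow (by omega) 2) hd
  apply powBase_of_seed (s := 1) (d := b / 2 ^ (2 * t + 4)) (c := 2) (K1 := 256) (by omega) one_pos
    hd2 (by rw [pow_one]; exact Nat.div_le_self _ _) ?_
    (tri (2 * i + 1) 2 3 * tri (2 * j + 1) 1 3)
    (pair_zero (by norm_num) (by norm_num) (by norm_num) (by norm_num)) ?_ ?_ ?_ ?_ ?_
    (by norm_num) (by norm_num)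
  · rw [pow_one]
    refine h2.le.trans (le_trans ?_ (Nat.pow_le_pow_left hd 2))
    rw [← pow_mul]
    exact Nat.pow_le_pow_right (by norm_num) (by omega)
  · intro P hP n
    rw [expand_one]
    have e1 := coeff_mul_le (tri (2 * i + 1) 2 3 * tri (2 * j + 1) 1 3) P
      (b / 2 ^ (2 * t + 4) - 1) (fun n => by have := hP n; omega) n
    have e2 : (tri (2 * i + 1) 2 3 * tri (2 * j + 1) 1 3).eval 1 ≤ 2 ^ (2 * t + 4) := by
      rw [eval_mul, tri_eval, tri_eval, show 2 * t + 4 = (t + 2) + (t + 2) by ring, pow_add]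
      have := hx i hi
      have := hx j hj
      apply Nat.mul_le_mul <;> simp only [tv, one_pow] <;> omega
    have e3 := Nat.mul_div_le b (2 ^ (2 * t + 4))
    have e4 : 0 < 2 ^ (2 * t + 4) := by positivity
    have e5 : 2 ^ (2 * t + 4) * (b / 2 ^ (2 * t + 4) - 1) + 2 ^ (2 * t + 4) =
        2 ^ (2 * t + 4) * (b / 2 ^ (2 * t + 4)) := by
      rw [← Nat.mul_succ]; congr 1; omega
    have e6 := Nat.mul_le_mul_right (b / 2 ^ (2 * t + 4) - 1) e2
    omega
  · rw [hr, eval_mul, eval_mul, tri_eval, tri_eval, tri_eval, tri_eval]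
    refine Nat.Coprime.mul_left (Nat.Coprime.mul_left ?_ ?_) (Nat.Coprime.mul_left ?_ ?_) <;>
      exact tv_coprime (odd_two_mul_add_one _) (by omega) (by omega)
  · intro p hp
    rw [hr, eval_mul, eval_mul, tri_eval, tri_eval, tri_eval, tri_eval]
    have f1 := (mem_filter.1 hi).2 p hp
    have f2 := (mem_filter.1 hj).2 p hp
    exact not_pow_dvd_mul hp (not_pow_dvd_mul hp f1.1 f2.2) (not_pow_dvd_mul hp f1.2 f2.1)
  · rw [hr, eval_mul, eval_mul, tri_eval, tri_eval, tri_eval, tri_eval]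
    intro h
    have h6 : ((i : ℤ) - j) * (2 * b * (b - 1) * (1 + b ^ 3)) = 0 := by
      have := congrArg (Nat.cast : ℕ → ℤ) h
      simp only [tv] at this
      push_cast at this
      linear_combination this
    rcases mul_eq_zero.1 h6 with h7 | h7
    · exact hij (by omega)
    · have : (0 : ℤ) < b - 1 := by omega
      exact absurd h7 (by positivity)
  · rw [hr, eval_mul, eval_mul, tri_eval, tri_eval, tri_eval, tri_eval]
    exact he

theorem exists_unif_powBase : ∃ K, ∀ b, 2 ≤ b → PowBase K b := by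
  choose! k hk using fun b (hb : 2 ≤ b) => exists_powBase hb
  refine ⟨max 768 ((range (2 ^ 96)).sup k), fun b hb => ?_⟩
  by_cases h : 2 ^ 96 ≤ b
  · exact (powBase_large h).mono (le_max_left _ _)
  · exact (hk b hb).mono ((le_sup (f := k) (mem_range.2 (not_le.1 h))).trans (le_max_right _ _))

end Pool.Agent.Lib.VPal
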