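import Pool.Agent.Lib.MP_200139_nt.Pal

set_option autoImplicit false

namespace Pool.Agent.Lib.VPal

open Finset Filter Topology

lemma coprime_of_dvd_pv {B l d m : ℕ} {A : Fin (l + 1) → ℕ} (hA : A ∈ fam l d)
    (h : m ∣ pv B l A) : m.Coprime B := Nat.Coprime.coprime_dvd_left h (pv_coprime hA)

lemma dvd_inner {B l d m t : ℕ} {A A' : Fin (l + 1) → ℕ} (hA : A ∈ fam l d)
    (h : m ∣ pv B l A) (h' : m ∣ pv B l A') {E : ℤ} (hE : (pv B l A : ℤ) - pv B l A' = B ^ t * E) :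
    (m : ℤ) ∣ E := by
  have h1 : (m : ℤ) ∣ B ^ t * E := by
    rw [← hE]
    exact dvd_sub (by exact_mod_cast h) (by exact_mod_cast h')
  have h2 : IsCoprime (m : ℤ) ((B : ℤ) ^ t) :=
    (Nat.isCoprime_iff_coprime.2 (coprime_of_dvd_pv hA h)).pow_right
  exact h2.dvd_of_dvd_mul_left h1

lemma card_dvd_le {B l d : ℕ} (hd : 2 ≤ d) (hdB : d ≤ B) (m t v : ℕ) (hl : 2 * l + 1 = 2 * t + v)
    (hm : B ^ v ≤ m) : ((fam l d).filter fun A => m ∣ pv B l A).card ≤ d ^ t := by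
  apply card_le_of_outer hd t _ (filter_subset _ _)
  intro A hA A' hA' h
  rw [mem_filter] at hA hA'
  obtain ⟨x, -, w, -, -, h3, h4⟩ := pv_diff hd hdB hA.1 hA'.1 t 0 v (by omega) h
  have h5 := dvd_inner hA.1 hA.2 hA'.2 h4
  have h6 := Int.eq_zero_of_abs_lt_dvd h5 (h3.trans_le (by
    rw [mul_zero, zero_add]; exact_mod_cast hm))
  rw [h6, mul_zero, sub_eq_zero] at h4
  exact pv_inj hd hdB hA.1 hA'.1 (by exact_mod_cast h4)

/-- The exceptional moduli. -/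
def IsBad (B d S v Z p : ℕ) : Prop :=
  ∃ x ∈ lay B d S, ∃ k ∈ Icc (-(Z : ℤ)) Z, k ≠ 0 ∧ (B : ℤ) ^ S ∣ k * p ^ 2 - x.1 ∧
    |k * p ^ 2 - B ^ (S + v) * x.2| < ((2 * B ^ (S + v) : ℕ) : ℤ)

lemma near_top {B S v : ℕ} (hB : 1 ≤ B) {x w : ℤ} (h1 : |x| < (B : ℤ) ^ S)
    (h2 : |w| < (B : ℤ) ^ v) : |x + B ^ S * w| < ((2 * B ^ (S + v) : ℕ) : ℤ) := by
  have hB' : (1 : ℤ) ≤ B := by exact_mod_cast hB
  have h3 := abs_add_le x (B ^ S * w)
  rw [abs_mul, abs_of_pos (by positivity : (0 : ℤ) < B ^ S)] at h3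
  have h4 : (B : ℤ) ^ S * |w| ≤ B ^ S * B ^ v := by gcongr
  have h5 : (B : ℤ) ^ S * 1 ≤ B ^ S * B ^ v := by gcongr; exact one_le_pow₀ hB'
  push_cast
  rw [pow_add]
  linarith

lemma card_good_le {B l d : ℕ} (hd : 2 ≤ d) (hdB : d ≤ B) (p t S v Z : ℕ)
    (hl : 2 * l + 1 = 2 * t + 2 * S + v) (hZ : B ^ (2 * S + v) ≤ Z * p ^ 2)
    (hg : ¬ IsBad B d S v Z p) :
    ((fam l d).filter fun A => p ^ 2 ∣ pv B l A).card ≤ d ^ t := by
  apply card_le_of_outer hd t _ (filter_subset _ _)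
  intro A hA A' hA' h
  rw [mem_filter] at hA hA'
  obtain ⟨x, hx, w, h1, h2, h3, h4⟩ := pv_diff hd hdB hA.1 hA'.1 t S v hl h
  obtain ⟨k, hk⟩ := dvd_inner hA.1 hA.2 hA'.2 h4
  push_cast at hk
  by_cases hk0 : k = 0
  · rw [hk, hk0, mul_zero, mul_zero, sub_eq_zero] at h4
    exact pv_inj hd hdB hA.1 hA'.1 (by exact_mod_cast h4)
  · exfalso
    apply hg
    refine ⟨x, hx, k, ?_, hk0, ?_, ?_⟩
    · rw [mem_Icc, ← abs_le]
      rw [hk, abs_mul, abs_of_nonneg (by positivity : (0 : ℤ) ≤ (p : ℤ) ^ 2)] at h3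
      have h5 : ((B : ℤ)) ^ (2 * S + v) ≤ Z * (p : ℤ) ^ 2 := by exact_mod_cast hZ
      by_contra hc
      push Not at hc
      nlinarith [sq_nonneg (p : ℤ)]
    · rw [mul_comm, ← hk]
      exact ⟨w + B ^ v * x.2, by rw [pow_add]; ring⟩
    · rw [mul_comm k, ← hk, add_sub_cancel_right]
      exact near_top (by omega) h1 h2

open Classical in
lemma card_bad_le {B d : ℕ} (hB : 2 ≤ B) (hdB : 2 * d ≤ B) (S v Z P Z' : ℕ) (hP : 0 < P)
    (hZ : 4 * B ^ v ≤ Z' * P) (C : Finset ℕ)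
    (hC : ∀ p ∈ C, P ≤ p ∧ p.Coprime B ∧ IsBad B d S v Z p) :
    C.card ≤ B ^ S * (2 * Z + 1) * (2 ^ B * (Z' + 1)) := by
  have hsub : C ⊆ (lay B d S ×ˢ Icc (-(Z : ℤ)) Z).biUnion fun y => C.filter fun p =>
      y.2 ≠ 0 ∧ (B : ℤ) ^ S ∣ y.2 * p ^ 2 - y.1.1 ∧
      |y.2 * p ^ 2 - B ^ (S + v) * y.1.2| < ((2 * B ^ (S + v) : ℕ) : ℤ) := by
    intro p hp
    obtain ⟨x, hx, k, hk, h⟩ := (hC p hp).2.2
    exact mem_biUnion.2 ⟨(x, k), mem_product.2 ⟨hx, hk⟩, mem_filter.2 ⟨hp, h⟩⟩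
  refine (card_le_card hsub).trans ((card_biUnion_le_card_mul _ _ (2 ^ B * (Z' + 1)) ?_).trans ?_)
  · intro y _
    by_cases hy : y.2 = 0
    · rw [filter_false_of_mem (fun p _ h => h.1 hy)]
      simp
    · apply count_sq B S P hB hP y.2 y.1.1 (B ^ (S + v) * y.1.2) hy (2 * B ^ (S + v)) Z'
      · rw [pow_add]
        calc 2 * (2 * (B ^ S * B ^ v)) = 4 * B ^ v * B ^ S := by ring
          _ ≤ Z' * P * B ^ S := by gcongr
          _ = _ := by ring
      · intro p hp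
        rw [mem_filter] at hp
        exact ⟨(hC p hp.1).1, (hC p hp.1).2.1, hp.2.2⟩
  · apply Nat.mul_le_mul_right
    rw [card_product, Int.card_Icc]
    apply Nat.mul_le_mul (card_lay B d S hdB)
    omega

lemma pow_le_mul_pow {B d : ℕ} (hB : 1 ≤ B) (hd : 1 ≤ d) (h : B ^ 15 ≤ d ^ 16) (a n c : ℕ)
    (hc : a ≤ c + 15 * (n / 16)) : B ^ a ≤ B ^ c * d ^ n := by
  calc B ^ a ≤ B ^ (c + 15 * (n / 16)) := Nat.pow_le_pow_right hB hc
    _ = B ^ c * (B ^ 15) ^ (n / 16) := by rw [pow_add, pow_mul]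
    _ ≤ B ^ c * (d ^ 16) ^ (n / 16) := by gcongr
    _ = B ^ c * d ^ (16 * (n / 16)) := by rw [pow_mul]
    _ ≤ B ^ c * d ^ n := Nat.mul_le_mul_left _ (Nat.pow_le_pow_right hd (Nat.mul_div_le n 16))

open Classical in
lemma tail_mid {B l d : ℕ} (hd : 2 ≤ d) (hdB : 2 * d ≤ B) (h : B ^ 15 ≤ d ^ 16) (u : ℕ)
    (hu : 1 ≤ u) (hul : u + u / 8 ≤ l) :
    ((fam l d).filter fun A => ∃ p, B ^ u ≤ p ∧ p < B ^ (u + 1) ∧ p ^ 2 ∣ pv B l A).card *
      B ^ (u / 20) ≤ 2 ^ B * B ^ 30 * d ^ l := by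
  have hB : 4 ≤ B := by omega
  set s := u / 8 with hs
  set k := u / 2 with hk
  set R := (Ico (B ^ u) (B ^ (u + 1))).filter fun p => p.Coprime B with hR
  set Z := B ^ (2 * s + 1) with hZ
  set bad := R.filter (IsBad B d (k + s) (2 * (u - k) + 1) Z) with hbad
  have hsub : ((fam l d).filter fun A => ∃ p, B ^ u ≤ p ∧ p < B ^ (u + 1) ∧ p ^ 2 ∣ pv B l A) ⊆
      (R.filter fun p => ¬ IsBad B d (k + s) (2 * (u - k) + 1) Z p).biUnion
        (fun p => (fam l d).filter fun A => p ^ 2 ∣ pv B l A) ∪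
      bad.biUnion (fun p => (fam l d).filter fun A => p ^ 2 ∣ pv B l A) := by
    intro A hA
    obtain ⟨hA, p, h1, h2, h3⟩ := mem_filter.1 hA
    have hpR : p ∈ R := mem_filter.2 ⟨mem_Ico.2 ⟨h1, h2⟩,
      coprime_of_dvd_pv hA ((dvd_pow_self p two_ne_zero).trans h3)⟩
    by_cases hb : IsBad B d (k + s) (2 * (u - k) + 1) Z p
    · exact mem_union_right _ (mem_biUnion.2 ⟨p, mem_filter.2 ⟨hpR, hb⟩, mem_filter.2 ⟨hA, h3⟩⟩)
    · exact mem_union_left _ (mem_biUnion.2 ⟨p, mem_filter.2 ⟨hpR, hb⟩, mem_filter.2 ⟨hA, h3⟩⟩)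
  have hsq : ∀ p ∈ R, B ^ (2 * u) ≤ p ^ 2 := by
    intro p hp
    rw [mul_comm, pow_mul]
    exact Nat.pow_le_pow_left (mem_Ico.1 (mem_filter.1 hp).1).1 2
  have h1 : ((R.filter fun p => ¬ IsBad B d (k + s) (2 * (u - k) + 1) Z p).biUnion
        (fun p => (fam l d).filter fun A => p ^ 2 ∣ pv B l A)).card ≤
        B ^ (u + 1) * d ^ (l - u - s) := by
    refine (card_biUnion_le_card_mul _ _ (d ^ (l - u - s)) ?_).trans ?_
    · intro p hp
      rw [mem_filter] at hp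
      apply card_good_le hd (by omega) p _ (k + s) (2 * (u - k) + 1) Z (by omega) _ hp.2
      rw [hZ, show 2 * (k + s) + (2 * (u - k) + 1) = (2 * s + 1) + 2 * u by omega, pow_add]
      exact Nat.mul_le_mul_left _ (hsq p hp.1)
    · apply Nat.mul_le_mul_right
      refine (card_le_card ((filter_subset _ _).trans (filter_subset _ _))).trans ?_
      rw [Nat.card_Ico]
      omega
  have h2 : bad.card ≤ B ^ (k + s) * (2 * Z + 1) * (2 ^ B * (4 * B ^ 2 + 1)) := by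
    apply card_bad_le (by omega) hdB (k + s) (2 * (u - k) + 1) Z (B ^ u) _ (by positivity)
    · rw [mul_assoc, ← pow_add]
      exact Nat.mul_le_mul_left _ (Nat.pow_le_pow_right (by omega) (by omega))
    · intro p hp
      obtain ⟨hp1, hp2⟩ := mem_filter.1 hp
      obtain ⟨hp3, hp4⟩ := mem_filter.1 hp1
      exact ⟨(mem_Ico.1 hp3).1, hp4, hp2⟩
  have h3 : (bad.biUnion (fun p => (fam l d).filter fun A => p ^ 2 ∣ pv B l A)).card ≤
      bad.card * d ^ (l - u + 1) := by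
    apply card_biUnion_le_card_mul
    intro p hp
    apply card_dvd_le hd (by omega) _ _ (2 * u - 1) (by omega)
    exact (Nat.pow_le_pow_right (by omega) (by omega)).trans (hsq p (mem_filter.1 hp).1)
  have h4 : bad.card ≤ 2 ^ B * B ^ (k + 3 * s + 6) := by
    refine h2.trans ?_
    have e1 : 2 * Z + 1 ≤ B * Z := by
      have : 1 ≤ Z := Nat.one_le_pow _ _ (by omega)
      nlinarith
    have e2 : 4 * B ^ 2 + 1 ≤ B ^ 4 := by
      have : 16 ≤ B ^ 2 := by nlinarith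
      nlinarith
    calc _ ≤ B ^ (k + s) * (B * Z) * (2 ^ B * B ^ 4) := by gcongr
      _ = _ := by rw [hZ]; ring
  have h5 : B ^ (u + 1) * d ^ (l - u - s) * B ^ (u / 20) ≤ B ^ 29 * d ^ l := by
    have := pow_le_mul_pow (by omega) (by omega) h (u + 1 + u / 20) (u + s) 29 (by omega)
    calc _ = B ^ (u + 1 + u / 20) * d ^ (l - u - s) := by ring
      _ ≤ B ^ 29 * d ^ (u + s) * d ^ (l - u - s) := by gcongr
      _ = _ := by rw [mul_assoc, ← pow_add]; congr 2; omega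
  have h6 : 2 ^ B * B ^ (k + 3 * s + 6) * d ^ (l - u + 1) * B ^ (u / 20) ≤
      2 ^ B * B ^ 29 * d ^ l := by
    have := pow_le_mul_pow (by omega) (by omega) h (k + 3 * s + 6 + u / 20) (u - 1) 29 (by omega)
    calc _ = 2 ^ B * B ^ (k + 3 * s + 6 + u / 20) * d ^ (l - u + 1) := by ring
      _ ≤ 2 ^ B * (B ^ 29 * d ^ (u - 1)) * d ^ (l - u + 1) := by gcongr
      _ = 2 ^ B * B ^ 29 * (d ^ (u - 1) * d ^ (l - u + 1)) := by ring
      _ = _ := by rw [← pow_add]; congr 2; omega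
  have h7 := (card_le_card hsub).trans (card_union_le _ _)
  have h8 : 1 ≤ 2 ^ B := Nat.one_le_two_pow
  calc _ ≤ (B ^ (u + 1) * d ^ (l - u - s) + 2 ^ B * B ^ (k + 3 * s + 6) * d ^ (l - u + 1)) *
        B ^ (u / 20) := by
        apply Nat.mul_le_mul_right
        refine h7.trans (Nat.add_le_add h1 (h3.trans (Nat.mul_le_mul_right _ h4)))
    _ ≤ 2 ^ B * (B ^ 29 * d ^ l) + 2 ^ B * B ^ 29 * d ^ l := by
        rw [add_mul]
        exact Nat.add_le_add (h5.trans (Nat.le_mul_of_pos_left _ h8)) h6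
    _ = 2 * (2 ^ B * B ^ 29 * d ^ l) := by ring
    _ ≤ B * (2 ^ B * B ^ 29 * d ^ l) := Nat.mul_le_mul_right _ (by omega)
    _ = _ := by ring

open Classical in
lemma tail_top {B l d : ℕ} (hd : 2 ≤ d) (hdB : 2 * d ≤ B) (h : B ^ 15 ≤ d ^ 16) (hl : 2 ≤ l) :
    ((fam l d).filter fun A => ∃ p, B ^ (8 * l / 9) ≤ p ∧ p ^ 2 ∣ pv B l A).card *
      B ^ (l / 10) ≤ 2 ^ B * B ^ 30 * d ^ l := by
  have hB : 4 ≤ B := by omega
  set u := 8 * l / 9 with hu
  set j := l - (u - 1) / 2 with hj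
  set v := 2 * ((u - 1) / 2) + 1 with hv
  set T := (fam l d).filter fun A => ∃ p, B ^ u ≤ p ∧ p ^ 2 ∣ pv B l A with hT
  have h1 : T.card = (T.image (pv B l)).card := by
    rw [card_image_of_injOn]
    intro A hA A' hA' hh
    exact pv_inj hd (by omega) (mem_filter.1 hA).1 (mem_filter.1 hA').1 hh
  set C : ℕ × ℤ × ℤ → Finset ℕ := fun y => (range (B ^ (2 * l + 1))).filter fun p =>
    B ^ u ≤ p ∧ p.Coprime B ∧ (B : ℤ) ^ j ∣ (y.1 : ℤ) * p ^ 2 - y.2.1 ∧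
      |(y.1 : ℤ) * p ^ 2 - B ^ (j + v) * y.2.2| < ((2 * B ^ (j + v) : ℕ) : ℤ) with hC
  have hsub : T.image (pv B l) ⊆ (Ioo 0 (B ^ (2 * l + 1 - 2 * u)) ×ˢ lay B d j).biUnion
      fun y => (C y).image fun p => y.1 * p ^ 2 := by
    intro n hn
    obtain ⟨A, hA, rfl⟩ := mem_image.1 hn
    obtain ⟨hA, p, h1, m, hm⟩ := mem_filter.1 hA
    obtain ⟨x, hx, w, k1, k2, -, k4⟩ := pv_decomp (B := B) hd (by omega) hA j v (by omega)
    have hlt := pv_lt (B := B) hd (by omega) hA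
    have hpos : 0 < pv B l A := lt_of_lt_of_le (by positivity) (pv_ge hA)
    have hm0 : 0 < m := Nat.pos_of_ne_zero (by rintro rfl; omega)
    have hmp : (m : ℤ) * p ^ 2 = pv B l A := by rw [hm]; push_cast; ring
    refine mem_biUnion.2 ⟨(m, x), mem_product.2 ⟨mem_Ioo.2 ⟨hm0, ?_⟩, hx⟩,
      mem_image.2 ⟨p, mem_filter.2 ⟨mem_range.2 ?_, h1, ?_, ?_, ?_⟩, by rw [hm, mul_comm]⟩⟩
    · by_contra hc
      push Not at hc
      have e1 : B ^ (2 * u) ≤ p ^ 2 := by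
        rw [mul_comm, pow_mul]; exact Nat.pow_le_pow_left h1 2
      have e2 : B ^ (2 * u) * B ^ (2 * l + 1 - 2 * u) ≤ p ^ 2 * m := Nat.mul_le_mul e1 hc
      rw [← pow_add, show 2 * u + (2 * l + 1 - 2 * u) = 2 * l + 1 by omega] at e2
      omega
    · refine lt_of_le_of_lt (Nat.le_of_dvd hpos ?_) hlt
      rw [hm]
      exact Dvd.dvd.mul_right (dvd_pow_self p two_ne_zero) m
    · apply coprime_of_dvd_pv hA
      rw [hm]
      exact Dvd.dvd.mul_right (dvd_pow_self p two_ne_zero) m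
    · simp only
      rw [hmp, k4]
      exact ⟨w + B ^ v * x.2, by rw [pow_add]; ring⟩
    · simp only
      rw [hmp, k4, add_sub_cancel_right]
      exact near_top (by omega) k1 k2
  have h2 : T.card ≤ B ^ (2 * l + 1 - 2 * u) * B ^ j * (2 ^ B * (4 + 1)) := by
    rw [h1]
    refine (card_le_card hsub).trans ((card_biUnion_le_card_mul _ _ (2 ^ B * (4 + 1)) ?_).trans ?_)
    · intro y hy
      refine card_image_le.trans ?_
      have hy1 := (mem_Ioo.1 (mem_product.1 hy).1).1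
      apply count_sq B j (B ^ u) (by omega) (by positivity) y.1 y.2.1 (B ^ (j + v) * y.2.2)
        (by exact_mod_cast hy1.ne') (2 * B ^ (j + v)) 4
      · rw [← pow_add, ← mul_assoc]
        exact Nat.mul_le_mul_left _ (Nat.pow_le_pow_right (by omega) (by omega))
      · intro p hp
        exact (mem_filter.1 hp).2
    · apply Nat.mul_le_mul_right
      rw [card_product, Nat.card_Ioo]
      exact Nat.mul_le_mul (by omega) (card_lay B d j hdB)
  have h3 := pow_le_mul_pow (by omega) (by omega) h (2 * l + 1 - 2 * u + j + l / 10) l 28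
    (by omega)
  calc _ ≤ B ^ (2 * l + 1 - 2 * u) * B ^ j * (2 ^ B * (4 + 1)) * B ^ (l / 10) := by gcongr
    _ = 2 ^ B * 5 * B ^ (2 * l + 1 - 2 * u + j + l / 10) := by ring
    _ ≤ 2 ^ B * B ^ 2 * (B ^ 28 * d ^ l) := by
        gcongr
        nlinarith
    _ = _ := by ring

lemma summable_half (c : ℕ) (hc : 0 < c) : Summable fun u : ℕ => (1 / 2 : ℝ) ^ (u / c) := by
  have hc' : (0 : ℝ) < c := by exact_mod_cast hc
  have h0 : (0 : ℝ) ≤ (1 / 2 : ℝ) ^ (1 / (c : ℝ)) := by positivity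
  have h1 : (1 / 2 : ℝ) ^ (1 / (c : ℝ)) < 1 :=
    Real.rpow_lt_one (by norm_num) (by norm_num) (by positivity)
  refine Summable.of_nonneg_of_le (fun _ => by positivity) (fun u => ?_)
    ((summable_geometric_of_lt_one h0 h1).mul_left 2)
  rw [← Real.rpow_natCast, ← Real.rpow_natCast, ← Real.rpow_mul (by norm_num)]
  have h2 : 1 / (c : ℝ) * u ≤ ((u / c : ℕ) : ℝ) + 1 := by
    rw [one_div, inv_mul_le_iff₀ hc']
    have := Nat.lt_mul_div_succ u hc
    exact_mod_cast this.le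
  have h3 := Real.rpow_le_rpow_of_exponent_ge (x := 1 / 2) (by norm_num) (by norm_num) h2
  rw [Real.rpow_add (by norm_num), Real.rpow_one] at h3
  linarith

lemma real_of_mul_pow {B a c n : ℕ} (hB : 2 ≤ B) (h : a * B ^ n ≤ c) :
    (a : ℝ) ≤ c * (1 / 2 : ℝ) ^ n := by
  have h1 : a * 2 ^ n ≤ c := le_trans (by gcongr) h
  have h2 : (a : ℝ) * 2 ^ n ≤ c := by exact_mod_cast h1
  rw [one_div, inv_pow, ← div_eq_mul_inv, le_div_iff₀ (by positivity)]
  exact h2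

open Classical in
theorem tail_small {B d : ℕ} (hd : 2 ≤ d) (hdB : 2 * d ≤ B) (h : B ^ 15 ≤ d ^ 16) {ε : ℝ}
    (hε : 0 < ε) : ∃ z : ℕ, ∀ᶠ l in atTop,
      (((fam l d).filter fun A => ∃ p, z ≤ p ∧ p ^ 2 ∣ pv B l A).card : ℝ) ≤
        ε * (fam l d).card := by
  have hB : 4 ≤ B := by omega
  set K : ℝ := ((2 ^ B * B ^ 30 * d : ℕ) : ℝ) with hK
  have hK0 : 0 < K := by
    rw [hK]
    have : 0 < d := by omega
    have : 0 < B := by omega
    positivity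
  obtain ⟨s, hs⟩ := summable_iff_vanishing_norm.1 (summable_half 20 (by norm_num)) (ε / (2 * K))
    (by positivity)
  obtain ⟨u0, hu0⟩ := s.bddAbove
  refine ⟨B ^ (u0 + 1), ?_⟩
  have hlim : Tendsto (fun l : ℕ => (1 / 2 : ℝ) ^ (l / 10)) atTop (𝓝 0) :=
    (summable_half 10 (by norm_num)).tendsto_atTop_zero
  filter_upwards [eventually_ge_atTop 2, hlim.eventually (ge_mem_nhds
    (show (0 : ℝ) < ε / (2 * K) by positivity))] with l hl hl2
  have hsub : ((fam l d).filter fun A => ∃ p, B ^ (u0 + 1) ≤ p ∧ p ^ 2 ∣ pv B l A) ⊆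
      (Ico (u0 + 1) (8 * l / 9)).biUnion (fun u => (fam l d).filter fun A =>
        ∃ p, B ^ u ≤ p ∧ p < B ^ (u + 1) ∧ p ^ 2 ∣ pv B l A) ∪
      (fam l d).filter fun A => ∃ p, B ^ (8 * l / 9) ≤ p ∧ p ^ 2 ∣ pv B l A := by
    intro A hA
    obtain ⟨hA, p, h1, h2⟩ := mem_filter.1 hA
    by_cases hp : B ^ (8 * l / 9) ≤ p
    · exact mem_union_right _ (mem_filter.2 ⟨hA, p, hp, h2⟩)
    · have hp0 : p ≠ 0 := by
        have : 0 < B ^ (u0 + 1) := by positivity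
        omega
      refine mem_union_left _ (mem_biUnion.2 ⟨Nat.log B p, mem_Ico.2 ⟨?_, ?_⟩,
        mem_filter.2 ⟨hA, p, Nat.pow_log_le_self B hp0, Nat.lt_pow_succ_log_self (by omega) p,
          h2⟩⟩)
      · exact Nat.le_log_of_pow_le (by omega) h1
      · exact Nat.log_lt_of_lt_pow hp0 (not_le.1 hp)
  have hF : ((2 ^ B * B ^ 30 * d ^ l : ℕ) : ℝ) = K * (fam l d).card := by
    rw [card_fam l d (by omega), hK, ← Nat.cast_mul]
    congr 1
    rw [mul_assoc _ d, ← pow_succ']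
    congr 2
    omega
  have hF0 : (0 : ℝ) ≤ (fam l d).card := Nat.cast_nonneg _
  have h1 := (card_le_card hsub).trans ((card_union_le _ _).trans
    (Nat.add_le_add_right card_biUnion_le _))
  have h2 := real_of_mul_pow (by omega) (tail_top hd hdB h hl)
  have h3 : ∀ u ∈ Ico (u0 + 1) (8 * l / 9), (((fam l d).filter fun A =>
      ∃ p, B ^ u ≤ p ∧ p < B ^ (u + 1) ∧ p ^ 2 ∣ pv B l A).card : ℝ) ≤
      K * (fam l d).card * (1 / 2 : ℝ) ^ (u / 20) := by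
    intro u hu
    rw [mem_Ico] at hu
    rw [← hF]
    exact real_of_mul_pow (by omega) (tail_mid hd hdB h u (by omega) (by omega))
  have h4 := sum_le_sum h3
  rw [← mul_sum] at h4
  have h5 := hs (Ico (u0 + 1) (8 * l / 9)) (by
    rw [disjoint_left]
    intro u hu hus
    have := hu0 hus
    rw [mem_Ico] at hu
    omega)
  rw [Real.norm_of_nonneg (sum_nonneg fun _ _ => by positivity)] at h5
  rw [hF] at h2
  have h6 : K * (fam l d).card * ∑ u ∈ Ico (u0 + 1) (8 * l / 9), (1 / 2 : ℝ) ^ (u / 20) ≤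
      K * (fam l d).card * (ε / (2 * K)) := by gcongr
  have h7 : K * (fam l d).card * (1 / 2 : ℝ) ^ (l / 10) ≤
      K * (fam l d).card * (ε / (2 * K)) := by gcongr
  have h8 : K * (fam l d).card * (ε / (2 * K)) = ε * (fam l d).card / 2 := by field_simp
  have h9 := (Nat.cast_le (α := ℝ)).2 h1
  push_cast at h9
  linarith

end Pool.Agent.Lib.VPal
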