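import Pool.Agent.Lib.MP_200139_nt.Equi
import Pool.Agent.Lib.MP_200139_nt.Tail
import Pool.Agent.Lib.MP_200139_nt.Rev

set_option autoImplicit false

namespace Pool.Agent.Lib.VPal

open Finset Filter Topology Polynomial

lemma fam_last {l d : ℕ} {A : Fin (l + 1) → ℕ} (hA : A ∈ fam l d) : A (Fin.last l) = 1 := by
  have := Fintype.mem_piFinset.1 hA (Fin.last l)
  simpa using this

lemma pv_odd {B l d : ℕ} {A : Fin (l + 1) → ℕ} (hA : A ∈ fam l d) : ¬ 2 ∣ pv B l A := by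
  intro h
  rcases Nat.even_or_odd B with hB | hB
  · have := Nat.dvd_gcd h hB.two_dvd
    rw [pv_coprime hA] at this
    omega
  · rw [pv_eq, Fin.sum_univ_castSucc, fam_last hA, one_mul] at h
    have h1 : 2 ∣ ∑ j : Fin l, A j.castSucc * cc B l j.castSucc := by
      apply dvd_sum
      intro j _
      rw [cc_eq _ _ _ (by simp)]
      exact Dvd.dvd.mul_left (Even.two_dvd (hB.pow.add_odd hB.pow)) _
    have h2 : cc B l (Fin.last l) = B ^ l := by
      unfold cc
      rw [← sum_singleton (fun i => B ^ i) l]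
      congr 1
      ext i
      simp only [mem_filter, mem_range, mem_singleton, mir, Fin.ext_iff, Fin.val_last]
      omega
    rw [h2] at h
    have h3 := (Nat.dvd_add_right h1).1 h
    exact (Nat.not_even_iff_odd.2 hB.pow) (even_iff_two_dvd.2 h3)

open Classical in
theorem sieve_main {B d K Q : ℕ} (hd : 2 ≤ d) (hK : 2 ≤ K) (hQ0 : 0 < Q)
    (hQ : Q.Coprime (2 * B)) (r : ℕ)
    (htail : ∀ ε : ℝ, 0 < ε → ∃ z : ℕ, ∀ᶠ l in atTop,
      (((fam l d).filter fun A => ∃ p, z ≤ p ∧ p ^ K ∣ pv B l A).card : ℝ) ≤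
        ε * (fam l d).card) :
    ∀ᶠ l in atTop, ∃ A ∈ fam l d, pv B l A ≡ r [MOD Q] ∧
      ∀ p, p.Prime → ¬ p ∣ Q → ¬ p ^ K ∣ pv B l A := by
  have hQr : (0 : ℝ) < Q := by exact_mod_cast hQ0
  obtain ⟨z, hz⟩ := htail (1 / (8 * Q)) (by positivity)
  set P := (range z).filter fun p => p.Prime ∧ ¬ p ∣ Q ∧ p.Coprime (2 * B) with hP
  have hco : ∀ p ∈ P, Q.Coprime (p ^ 2) := by
    intro p hp
    obtain ⟨-, h1, h2, -⟩ := mem_filter.1 hp
    exact (((Nat.Prime.coprime_iff_not_dvd h1).2 h2).symm).pow_right 2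
  set c : ℕ → ℕ := fun p => if h : Q.Coprime (p ^ 2) then Nat.chineseRemainder h r 0 else 0 with hc
  have hlim : Tendsto (fun l => ∑ p ∈ P, ((((fam l d).filter fun A =>
      (pv B l A : ZMod (Q * p ^ 2)) = (c p : ZMod (Q * p ^ 2))).card : ℝ) / (fam l d).card)) atTop
      (𝓝 (∑ p ∈ P, 1 / ((Q * p ^ 2 : ℕ) : ℝ))) := by
    apply tendsto_finset_sum
    intro p hp
    obtain ⟨-, h1, -, h3⟩ := mem_filter.1 hp
    exact equi (Nat.mul_pos hQ0 (pow_pos h1.pos 2)) (Nat.Coprime.mul_left hQ (h3.pow_left 2)) hd _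
  have hsum : ∑ p ∈ P, 1 / ((Q * p ^ 2 : ℕ) : ℝ) < 5 / (8 * Q) := by
    have h1 : P ⊆ Ioc 2 (z + 2) := by
      intro p hp
      obtain ⟨h0, h1, -, h3⟩ := mem_filter.1 hp
      have h4 := h1.two_le
      have h5 : p ≠ 2 := by
        rintro rfl
        have := Nat.Coprime.coprime_mul_right_right h3
        simp at this
      rw [mem_range] at h0
      rw [mem_Ioc]
      omega
    have h2 := sum_Ioc_inv_sq_le_sub (α := ℝ) two_ne_zero (show 2 ≤ z + 2 by omega)
    have h3 : ∑ p ∈ P, ((p : ℝ) ^ 2)⁻¹ ≤ ∑ p ∈ Ioc 2 (z + 2), ((p : ℝ) ^ 2)⁻¹ :=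
      sum_le_sum_of_subset_of_nonneg h1 fun _ _ _ => by positivity
    have h4 : (0 : ℝ) ≤ ((z + 2 : ℕ) : ℝ)⁻¹ := by positivity
    have h5 : ∑ p ∈ P, 1 / ((Q * p ^ 2 : ℕ) : ℝ) = (∑ p ∈ P, ((p : ℝ) ^ 2)⁻¹) / Q := by
      rw [sum_div]
      apply sum_congr rfl
      intro p _
      push_cast
      rw [one_div, mul_inv, div_eq_mul_inv, mul_comm]
    rw [h5, div_lt_div_iff₀ hQr (by positivity)]
    have h6 : ((2 : ℕ) : ℝ)⁻¹ = 1 / 2 := by norm_num
    nlinarith
  have hmain := equi hQ0 hQ hd (B := B) (r : ZMod Q)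
  filter_upwards [hz, hlim.eventually (gt_mem_nhds hsum), hmain.eventually (lt_mem_nhds
    (show 7 / (8 * (Q : ℝ)) < 1 / Q by rw [div_lt_div_iff₀ (by positivity) hQr]; linarith)),
    eventually_ge_atTop 1] with l h1 h2 h3 hl
  by_contra hcon
  push Not at hcon
  have hF : (0 : ℝ) < (fam l d).card := by
    rw [card_fam l d hl]
    have : 0 < d := by omega
    positivity
  have hsub : ((fam l d).filter fun A => (pv B l A : ZMod Q) = (r : ZMod Q)) ⊆
      (P.biUnion fun p => (fam l d).filter fun A =>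
        (pv B l A : ZMod (Q * p ^ 2)) = (c p : ZMod (Q * p ^ 2))) ∪
      (fam l d).filter fun A => ∃ p, z ≤ p ∧ p ^ K ∣ pv B l A := by
    intro A hA
    obtain ⟨hA, hr⟩ := mem_filter.1 hA
    rw [ZMod.natCast_eq_natCast_iff] at hr
    obtain ⟨p, hp, hpQ, hpK⟩ := hcon A hA hr
    by_cases hzp : z ≤ p
    · exact mem_union_right _ (mem_filter.2 ⟨hA, p, hzp, hpK⟩)
    · have hp1 : p ∣ pv B l A := (dvd_pow_self p (by omega)).trans hpK
      have hpP : p ∈ P := by
        refine mem_filter.2 ⟨mem_range.2 (by omega), hp, hpQ, Nat.Coprime.mul_right ?_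
          (coprime_of_dvd_pv hA hp1)⟩
        rw [Nat.coprime_primes hp Nat.prime_two]
        rintro rfl
        exact pv_odd hA hp1
      refine mem_union_left _ (mem_biUnion.2 ⟨p, hpP, mem_filter.2 ⟨hA, ?_⟩⟩)
      rw [ZMod.natCast_eq_natCast_iff]
      simp only [hc, dif_pos (hco p hpP)]
      exact Nat.chineseRemainder_modEq_unique _ hr
        ((Nat.modEq_zero_iff_dvd).2 ((pow_dvd_pow p hK).trans hpK))
  have h4 := (card_le_card hsub).trans ((card_union_le _ _).trans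
    (Nat.add_le_add_right card_biUnion_le _))
  have h5 := (Nat.cast_le (α := ℝ)).2 h4
  push_cast at h5
  rw [← sum_div, div_lt_iff₀ hF] at h2
  rw [lt_div_iff₀ hF] at h3
  have h6 : 7 / (8 * (Q : ℝ)) * (fam l d).card = 5 / (8 * (Q : ℝ)) * (fam l d).card +
      1 / (8 * (Q : ℝ)) * (fam l d).card + 1 / (8 * (Q : ℝ)) * (fam l d).card := by ring
  have h7 : 0 < 1 / (8 * (Q : ℝ)) * (fam l d).card := by positivity
  linarith

/-- The palindromic polynomial with first half `A`. -/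
noncomputable def palP (l : ℕ) (A : Fin (l + 1) → ℕ) : ℕ[X] :=
  ∑ i ∈ range (2 * l + 1), monomial i (A (mir l i))

lemma palP_coeff (l : ℕ) (A : Fin (l + 1) → ℕ) (n : ℕ) :
    (palP l A).coeff n = if n < 2 * l + 1 then A (mir l n) else 0 := by
  unfold palP
  simp only [finset_sum_coeff, coeff_monomial, sum_ite_eq', mem_range]

lemma palP_eval (B l : ℕ) (A : Fin (l + 1) → ℕ) : (palP l A).eval B = pv B l A := by
  unfold palP pv
  simp only [eval_finset_sum, eval_monomial]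

lemma mir_zero (l : ℕ) : mir l 0 = 0 := by
  apply Fin.ext
  show min 0 (2 * l - 0) = 0
  omega

lemma palP_zero {l d : ℕ} {A : Fin (l + 1) → ℕ} (hA : A ∈ fam l d) : (palP l A).coeff 0 = 1 := by
  rw [palP_coeff, if_pos (by omega), mir_zero, fam_zero hA]

lemma palP_lt {l d : ℕ} (hd : 2 ≤ d) {A : Fin (l + 1) → ℕ} (hA : A ∈ fam l d) (n : ℕ) :
    (palP l A).coeff n < d := by
  rw [palP_coeff]
  split_ifs
  · exact fam_lt hd hA _
  · omega

lemma palP_reverse {l d : ℕ} {A : Fin (l + 1) → ℕ} (hA : A ∈ fam l d) :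
    (palP l A).reverse = palP l A := by
  have hdeg : (palP l A).natDegree = 2 * l := by
    apply natDegree_eq_of_le_of_coeff_ne_zero
    · rw [natDegree_le_iff_coeff_eq_zero]
      intro n hn
      rw [palP_coeff, if_neg (by omega)]
    · rw [palP_coeff, if_pos (by omega), ← Nat.sub_zero (2 * l), mir_sub l 0 (by omega), mir_zero,
        fam_zero hA]
      exact one_ne_zero
  ext n
  rw [coeff_reverse, hdeg]
  by_cases hn : n ≤ 2 * l
  · rw [revAt_le hn, palP_coeff, palP_coeff, if_pos (by omega), if_pos (by omega), mir_sub l n hn]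
  · rw [revAt_eq_self_of_lt (by omega)]

theorem exists_sqf_pal {B d : ℕ} (hd : 2 ≤ d) (hdB : 2 * d ≤ B) (h : B ^ 15 ≤ d ^ 16) (M : ℕ)
    (hM : M ≠ 0) (N : ℕ) : ∃ P : ℕ[X], P.reverse = P ∧ (∀ i, P.coeff i < d) ∧ P.coeff 0 ≠ 0 ∧
      N < P.eval B ∧ Squarefree (P.eval B) ∧ (P.eval B).Coprime M := by
  classical
  set Q := ∏ p ∈ M.primeFactors.filter (fun p => p.Coprime (2 * B)), p with hQ
  have hQ0 : 0 < Q := prod_pos fun p hp => (Nat.prime_of_mem_primeFactors (mem_filter.1 hp).1).pos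
  have hQc : Q.Coprime (2 * B) := Nat.Coprime.prod_left fun p hp => (mem_filter.1 hp).2
  obtain ⟨l, ⟨A, hA, h1, h2⟩, hl⟩ := ((sieve_main hd le_rfl hQ0 hQc 1
    (fun ε hε => tail_small hd hdB h hε)).and (eventually_ge_atTop N)).exists
  have hc : (pv B l A).Coprime Q := by
    have := h1.gcd_eq
    rwa [Nat.gcd_one_left] at this
  refine ⟨palP l A, palP_reverse hA, palP_lt hd hA, by rw [palP_zero hA]; exact one_ne_zero,
    ?_, ?_, ?_⟩
  · rw [palP_eval]
    refine lt_of_lt_of_le ?_ (pv_ge hA)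
    exact lt_of_le_of_lt (by omega) (Nat.lt_pow_self (show 1 < B by omega))
  · rw [palP_eval, Nat.squarefree_iff_prime_squarefree]
    intro p hp hpp
    by_cases hpQ : p ∣ Q
    · have := Nat.dvd_gcd ((Dvd.intro _ rfl).trans hpp) hpQ
      rw [hc] at this
      exact hp.one_lt.ne' (Nat.dvd_one.1 this)
    · exact h2 p hp hpQ (by rwa [sq])
  · rw [palP_eval]
    apply Nat.Coprime.symm
    apply Nat.coprime_of_dvd
    intro p hp hpM hpp
    have h3 : p.Coprime (2 * B) := by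
      refine Nat.Coprime.mul_right ?_ (coprime_of_dvd_pv hA hpp)
      rw [Nat.coprime_primes hp Nat.prime_two]
      rintro rfl
      exact pv_odd hA hpp
    have h4 : p ∣ Q := dvd_prod_of_mem _ (mem_filter.2 ⟨Nat.mem_primeFactors.2 ⟨hp, hpM, hM⟩, h3⟩)
    have := Nat.dvd_gcd hpp h4
    rw [hc] at this
    exact hp.one_lt.ne' (Nat.dvd_one.1 this)

/-- A seed with small coefficients gives a good base. -/
theorem sqfBase_of_small_seed (b H : ℕ) (hH : 2 ≤ H) (hb : (2 * H) ^ 16 ≤ b) (f : ℕ[X])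
    (hf0 : f.coeff 0 ≠ 0) (hf1 : f.eval 1 ≤ H) (hs1 : Squarefree (f.eval b))
    (hs2 : Squarefree (f.reverse.eval b)) (hne : f.eval b ≠ f.reverse.eval b)
    (hv : sopf (f.eval b) = sopf (f.reverse.eval b)) : SqfBase b := by
  have h1 : 2 * H ≤ b := le_trans (Nat.le_self_pow (by norm_num) _) hb
  have hd : 2 ≤ b / H := (Nat.le_div_iff_mul_le (by omega)).2 h1
  have h2 : H * (b / H) ≤ b := Nat.mul_div_le b H
  have h3 : b ≤ 2 * H * (b / H) := by
    have := Nat.lt_mul_div_succ b (show 0 < H by omega)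
    nlinarith
  apply sqfBase_of_seed b (b / H) (by omega) f hf0 (le_trans (Nat.mul_le_mul_right _ hf1) h2)
    hs1 hs2 hne hv
  apply exists_sqf_pal hd (le_trans (Nat.mul_le_mul_right _ hH) h2) _ _
    (mul_ne_zero hs1.ne_zero hs2.ne_zero)
  apply Nat.le_of_mul_le_mul_left _ (show 0 < b by omega)
  calc b * b ^ 15 = b ^ 16 := by ring
    _ ≤ (2 * H * (b / H)) ^ 16 := Nat.pow_le_pow_left h3 16
    _ = (2 * H) ^ 16 * (b / H) ^ 16 := by rw [mul_pow]
    _ ≤ b * (b / H) ^ 16 := Nat.mul_le_mul_right _ hb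

end Pool.Agent.Lib.VPal
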