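import Pool.Agent.Lib.MP_200139_nt.Avg
import Pool.Agent.Lib.MP_200139_nt.SqPal

set_option autoImplicit false

namespace Pool.Agent.Lib.VPal

open Finset Polynomial

lemma indep_count {α : Type*} [DecidableEq α] (X : Finset α) (Cf : α → α → Prop) [DecidableRel Cf]
    (hs : ∀ a a', Cf a a' → Cf a' a) (hr : ∀ a ∈ X, Cf a a) (j : ℕ) (m : ℝ) (hm : 0 ≤ m)
    (h : ∀ A ⊆ X, A.card < j → m ≤ (X.filter fun e => ∀ a ∈ A, ¬ Cf a e).card) (i : ℕ)
    (hi : i ≤ j) : m ^ i ≤ i.factorial *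
      (((X.powersetCard i).filter fun A => ∀ a ∈ A, ∀ a' ∈ A, a ≠ a' → ¬ Cf a a').card : ℝ) := by
  induction i with
  | zero => simp [filter_singleton]
  | succ i ih =>
    have h1 := card_nsmul_le_card_nsmul (R := ℝ) (m := m) (n := i + 1)
      (s := (X.powersetCard i).filter fun A => ∀ a ∈ A, ∀ a' ∈ A, a ≠ a' → ¬ Cf a a')
      (t := (X.powersetCard (i + 1)).filter fun A => ∀ a ∈ A, ∀ a' ∈ A, a ≠ a' → ¬ Cf a a')
      (fun A B => A ⊆ B) (by
        intro A hA
        obtain ⟨hA, hA'⟩ := mem_filter.1 hA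
        obtain ⟨hAX, hAc⟩ := mem_powersetCard.1 hA
        refine (h A hAX (by omega)).trans ?_
        have hn : ∀ e ∈ X.filter (fun e => ∀ a ∈ A, ¬ Cf a e), e ∉ A := fun e he heA =>
          (mem_filter.1 he).2 e heA (hr e (hAX heA))
        rw [Nat.cast_le]
        apply card_le_card_of_injOn (fun e => insert e A)
        · intro e he
          obtain ⟨h1, h2⟩ := mem_filter.1 he
          refine (mem_bipartiteAbove _).2 ⟨mem_filter.2 ⟨mem_powersetCard.2
            ⟨insert_subset h1 hAX, by rw [card_insert_of_notMem (hn e he), hAc]⟩, ?_⟩,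
            subset_insert _ _⟩
          intro a ha a' ha' hne
          rcases mem_insert.1 ha with k | k <;> rcases mem_insert.1 ha' with k' | k'
          · exact absurd (k.trans k'.symm) hne
          · exact fun hc => h2 a' k' (k ▸ hs _ _ hc)
          · exact k' ▸ h2 a k
          · exact hA' a k a' k' hne
        · intro e he e' he' hh
          have : e ∈ insert e' A := by
            simp only at hh
            rw [← hh]
            exact mem_insert_self _ _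
          exact (mem_insert.1 this).resolve_right (hn e he)) (by
        intro B hB
        have h1 := (mem_powersetCard.1 (mem_filter.1 hB).1).2
        have h2 : (B.powersetCard i).card = i + 1 := by
          rw [card_powersetCard, h1, Nat.choose_succ_self_right]
        rw [← Nat.cast_succ, Nat.cast_le, Nat.succ_eq_add_one, ← h2]
        apply card_le_card
        intro A hA
        obtain ⟨hA, hAB⟩ := (mem_bipartiteBelow _).1 hA
        exact mem_powersetCard.2 ⟨hAB, (mem_powersetCard.1 (mem_filter.1 hA).1).2⟩)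
    rw [nsmul_eq_mul, nsmul_eq_mul] at h1
    have h2 := mul_le_mul_of_nonneg_right (ih (by omega)) hm
    have h3 := mul_le_mul_of_nonneg_left h1 (show (0 : ℝ) ≤ i.factorial by positivity)
    rw [pow_succ, Nat.factorial_succ]
    push_cast
    linarith

lemma exists_indep {α : Type*} [DecidableEq α] (X : Finset α) (Cf : α → α → Prop) [DecidableRel Cf]
    (hs : ∀ a a', Cf a a' → Cf a' a) (hr : ∀ a ∈ X, Cf a a) (j : ℕ) (m : ℝ) (hm : 0 ≤ m)
    (h : ∀ A ⊆ X, A.card < j → m ≤ (X.filter fun e => ∀ a ∈ A, ¬ Cf a e).card) :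
    ∃ T : Finset (Finset α), (∀ A ∈ T, (A ⊆ X ∧ A.card = j) ∧
      ∀ a ∈ A, ∀ a' ∈ A, a ≠ a' → ¬ Cf a a') ∧ m ^ j ≤ j.factorial * (T.card : ℝ) :=
  ⟨_, fun _ hA => ⟨mem_powersetCard.1 (mem_filter.1 hA).1, (mem_filter.1 hA).2⟩,
    indep_count X Cf hs hr j m hm h j le_rfl⟩

lemma colour {ι : Type*} (T : Finset ι) (red blue : ι → Finset ℕ) (Ω : ℕ)
    (hd : ∀ A ∈ T, Disjoint (red A) (blue A)) (hc : ∀ A ∈ T, (red A ∪ blue A).card ≤ Ω)
    (hT : 2 ^ Ω < T.card) : ∃ A ∈ T, ∃ B ∈ T, A ≠ B ∧ Disjoint (red A) (blue B) ∧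
      Disjoint (red B) (blue A) := by
  classical
  by_contra hcon
  push Not at hcon
  set P := T.biUnion fun A => red A ∪ blue A with hP
  have h1 := card_mul_le_card_mul (s := T) (t := P.powerset) (m := 2 ^ (P.card - Ω)) (n := 1)
    (fun A R => red A ⊆ R ∧ Disjoint (blue A) R) (by
      intro A hA
      have hsub : red A ∪ blue A ⊆ P := subset_biUnion_of_mem (fun A => red A ∪ blue A) hA
      refine le_trans (Nat.pow_le_pow_right (by norm_num) ?_)
        ((card_powerset (P \ (red A ∪ blue A))).ge.trans ?_)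
      · rw [card_sdiff_of_subset hsub]
        have := hc A hA
        omega
      · apply card_le_card_of_injOn (fun R => red A ∪ R)
        · intro R hR
          have hR' := mem_powerset.1 hR
          refine (mem_bipartiteAbove _).2 ⟨mem_powerset.2 (union_subset (subset_union_left.trans hsub)
            (hR'.trans sdiff_subset)), subset_union_left, disjoint_union_right.2
              ⟨(hd A hA).symm, ?_⟩⟩
          exact disjoint_of_subset_right hR' (disjoint_of_subset_left subset_union_right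
            disjoint_sdiff)
        · intro R hR R' hR' h
          have k : ∀ R ∈ (P \ (red A ∪ blue A)).powerset, (red A ∪ R) \ red A = R := by
            intro R hR
            rw [union_sdiff_cancel_left]
            exact disjoint_of_subset_right (mem_powerset.1 hR)
              (disjoint_of_subset_left subset_union_left disjoint_sdiff)
          simp only at h
          rw [← k R hR, h, k R' hR']) (by
      intro R _
      rw [card_le_one]
      intro A hA B hB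
      obtain ⟨hA, h1, h2⟩ := (mem_bipartiteBelow _).1 hA
      obtain ⟨hB, h3, h4⟩ := (mem_bipartiteBelow _).1 hB
      by_contra hne
      exact hcon A hA B hB hne (disjoint_of_subset_left h1 h4.symm)
        (disjoint_of_subset_left h3 h2.symm))
  rw [card_powerset, mul_one] at h1
  have h2 : 2 ^ P.card ≤ 2 ^ Ω * 2 ^ (P.card - Ω) := by
    rw [← pow_add]
    exact Nat.pow_le_pow_right (by norm_num) (by omega)
  exact absurd (Nat.le_of_mul_le_mul_right (h1.trans h2) (by positivity)) (not_le.2 hT)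

lemma exists_pair {ι : Type*} (T : Finset ι) (a a' : ι → ℕ) (Ω Z : ℕ)
    (h : ∀ A ∈ T, Squarefree (a A * a' A) ∧ (a A * a' A).primeFactors.card ≤ Ω ∧
      ∀ p, p.Prime → p ∣ a A * a' A → p ≤ Z) (hT : (2 * (Ω * Z) + 1) * 2 ^ Ω < T.card) :
    ∃ A ∈ T, ∃ B ∈ T, A ≠ B ∧ Squarefree (a A * a' B) ∧ Squarefree (a' A * a B) ∧
      sopf (a A * a' B) = sopf (a' A * a B) := by
  classical
  have hb : ∀ A ∈ T, ∀ n, n ∣ a A * a' A → sopf n ≤ Ω * Z := by
    intro A hA n hn
    obtain ⟨h1, h2, h3⟩ := h A hA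
    refine (sum_le_card_nsmul _ _ Z fun p hp => h3 p (Nat.prime_of_mem_primeFactors hp)
      ((Nat.dvd_of_mem_primeFactors hp).trans hn)).trans ?_
    exact Nat.mul_le_mul_right _
      ((card_le_card (Nat.primeFactors_mono hn h1.ne_zero)).trans h2)
  obtain ⟨y, -, hy⟩ := exists_lt_card_fiber_of_mul_lt_card_of_maps_to
    (t := range (2 * (Ω * Z) + 1)) (f := fun A => sopf (a A) + (Ω * Z - sopf (a' A)))
    (n := 2 ^ Ω) (s := T) (by
      intro A hA
      have := hb A hA _ (Dvd.intro _ rfl)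
      rw [mem_range]
      omega) (by rwa [card_range])
  obtain ⟨A, hA, B, hB, hne, h1, h2⟩ := colour _ (fun A => (a A).primeFactors)
    (fun A => (a' A).primeFactors) Ω (fun A hA =>
      (Nat.coprime_of_squarefree_mul (h A (mem_filter.1 hA).1).1).disjoint_primeFactors)
    (fun A hA => by
      have k := h A (mem_filter.1 hA).1
      rw [← Nat.primeFactors_mul (left_ne_zero_of_mul k.1.ne_zero)
        (right_ne_zero_of_mul k.1.ne_zero)]
      exact k.2.1) hy
  obtain ⟨hA, eA⟩ := mem_filter.1 hA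
  obtain ⟨hB, eB⟩ := mem_filter.1 hB
  have sA := (h A hA).1
  have sB := (h B hB).1
  have c1 : (a A).Coprime (a' B) := (Nat.disjoint_primeFactors
    (left_ne_zero_of_mul sA.ne_zero) (right_ne_zero_of_mul sB.ne_zero)).1 h1
  have c2 : (a' A).Coprime (a B) := ((Nat.disjoint_primeFactors
    (left_ne_zero_of_mul sB.ne_zero) (right_ne_zero_of_mul sA.ne_zero)).1 h2).symm
  refine ⟨A, hA, B, hB, hne, (Nat.squarefree_mul c1).2 ⟨sA.of_mul_left, sB.of_mul_right⟩,
    (Nat.squarefree_mul c2).2 ⟨sA.of_mul_right, sB.of_mul_left⟩, ?_⟩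
  have k1 := hb A hA _ (Dvd.intro_left _ rfl)
  have k2 := hb B hB _ (Dvd.intro_left _ rfl)
  rw [sopf_mul c1, sopf_mul c2]
  omega

lemma card_primeFactors_le {n l Ω : ℕ} (hl : 0 < l) (hn : n ≠ 0)
    (h : ∀ p, p.Prime → p ∣ n → 2 ^ l ≤ p) (hΩ : n ≤ 2 ^ (l * Ω)) : n.primeFactors.card ≤ Ω := by
  have h1 := pow_card_le_prod n.primeFactors (fun p => p) (2 ^ l) fun p hp =>
    h p (Nat.prime_of_mem_primeFactors hp) (Nat.dvd_of_mem_primeFactors hp)
  have h2 := (h1.trans (Nat.le_of_dvd (Nat.pos_of_ne_zero hn) n.prod_primeFactors_dvd)).trans hΩ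
  rw [← pow_mul, Nat.pow_le_pow_iff_right (by norm_num)] at h2
  exact Nat.le_of_mul_le_mul_left h2 hl

lemma wt_swap (e : ℕ × ℕ) : wt e.swap = wt e := mul_comm _ _

lemma swap_mem_EE {Y S : Finset ℕ} {b : ℕ} {e : ℕ × ℕ} (h : e ∈ EE Y S b) : e.swap ∈ EE Y S b := by
  obtain ⟨⟨h1, h2⟩, h3, h4, h5⟩ := mem_EE.1 h
  exact mem_EE.2 ⟨⟨h2, h1⟩, h3.symm, h5, h4⟩

lemma sum_union_le' {α : Type*} [DecidableEq α] (A B : Finset α) (f : α → ℝ) (hf : ∀ a, 0 ≤ f a) :
    ∑ a ∈ A ∪ B, f a ≤ ∑ a ∈ A, f a + ∑ a ∈ B, f a := by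
  have h1 := sum_union_inter (s₁ := A) (s₂ := B) (f := f)
  have h2 : 0 ≤ ∑ a ∈ A ∩ B, f a := sum_nonneg fun a _ => hf a
  linarith

/-- The product of the number and its reversal. -/
def MM (b : ℕ) (e : ℕ × ℕ) : ℕ := NN b e * NN b e.swap

lemma prune {Y S : Finset ℕ} {b G : ℕ} {θ a : ℝ} (hθ : 0 < θ) (hθ1 : θ ≤ 1)
    (hw : ∀ e ∈ EE Y S b, wt e ≤ θ) (hG : 8 * G * θ ≤ a / 4)
    (hk : kap Y S b + eta Y S b ≤ θ * a / 8) (X0 : Finset (ℕ × ℕ)) (h0 : X0 ⊆ EE Y S b)
    (ha : a ≤ ∑ e ∈ X0, wt e) : ∃ X ⊆ X0, (∀ e ∈ X, (NN b e).Coprime (NN b e.swap)) ∧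
      ∀ A ⊆ X, A.card < G →
        a / 2 ≤ ∑ e ∈ X.filter (fun e => ∀ x ∈ A, ¬ ¬ (MM b x).Coprime (MM b e)), wt e := by
  classical
  set dg : ℕ × ℕ → ℝ := fun e => ∑ e' ∈ nb Y S b e, wt e' with hdg
  have dg0 : ∀ e, 0 ≤ dg e := fun e => sum_nonneg fun _ _ => wt_nonneg _
  set X := X0.filter fun e => e.swap ∉ nb Y S b e ∧ dg e ≤ θ ∧ dg e.swap ≤ θ with hX
  have k0 : 0 ≤ kap Y S b := sum_nonneg fun e _ => mul_nonneg (wt_nonneg e) (dg0 e)
  have e0 : 0 ≤ eta Y S b := sum_nonneg fun e _ => wt_nonneg e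
  have h1 : θ * ∑ e ∈ X0.filter (fun e => ¬ (e.swap ∉ nb Y S b e ∧ dg e ≤ θ ∧ dg e.swap ≤ θ)),
      wt e ≤ eta Y S b + 2 * kap Y S b := by
    have k1 : ∑ e ∈ EE Y S b, wt e * dg e.swap ≤ kap Y S b :=
      sum_le_of_inj _ _ Prod.swap _ _ (fun e he => swap_mem_EE he) Prod.swap_injective.injOn
        (fun e _ => by rw [wt_swap]) fun e _ => mul_nonneg (wt_nonneg e) (dg0 e)
    have k2 : ∑ e ∈ EE Y S b, ((if e.swap ∈ nb Y S b e then wt e else 0) + wt e * dg e +
        wt e * dg e.swap) ≤ eta Y S b + 2 * kap Y S b := by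
      rw [sum_add_distrib, sum_add_distrib, ← sum_filter]
      change eta Y S b + kap Y S b + _ ≤ _
      linarith
    refine le_trans ?_ k2
    rw [mul_sum]
    have k3 : ∀ e, 0 ≤ (if e.swap ∈ nb Y S b e then wt e else 0) := fun e => by
      split_ifs
      · exact wt_nonneg e
      · exact le_rfl
    refine (sum_le_sum fun e he => ?_).trans (sum_le_sum_of_subset_of_nonneg
      ((filter_subset _ _).trans h0) fun e _ _ => add_nonneg (add_nonneg (k3 e)
        (mul_nonneg (wt_nonneg e) (dg0 _))) (mul_nonneg (wt_nonneg e) (dg0 _)))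
    have f1 := wt_nonneg e
    have f2 := mul_nonneg f1 (dg0 e)
    have f3 := mul_nonneg f1 (dg0 e.swap)
    have f4 := (mem_filter.1 he).2
    by_cases c1 : e.swap ∈ nb Y S b e
    · rw [if_pos c1]; nlinarith
    · rw [if_neg c1]
      by_cases c2 : dg e ≤ θ
      · have c3 : θ < dg e.swap := by
          by_contra c3
          exact f4 ⟨c1, c2, not_lt.1 c3⟩
        nlinarith
      · push Not at c2
        nlinarith
  have h2 := sum_filter_add_sum_filter_not X0
    (fun e => e.swap ∉ nb Y S b e ∧ dg e ≤ θ ∧ dg e.swap ≤ θ) wt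
  have h3 : 3 * a / 4 ≤ ∑ e ∈ X, wt e := by
    have : ∑ e ∈ X0.filter (fun e => ¬ (e.swap ∉ nb Y S b e ∧ dg e ≤ θ ∧ dg e.swap ≤ θ)),
        wt e ≤ a / 4 := le_of_mul_le_mul_left (by linarith) hθ
    linarith
  have hXE : ∀ e ∈ X, e ∈ EE Y S b := fun e he => h0 (mem_filter.1 he).1
  refine ⟨X, filter_subset _ _, fun e he => ?_, fun A hA hc => ?_⟩
  · by_contra hc
    refine (mem_filter.1 he).2.1 (mem_filter.2 ⟨swap_mem_EE (hXE e he), fun h => ?_, hc⟩)
    exact (mem_EE.1 (hXE e he)).2.1 (congrArg Prod.snd h)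
  have h4 := sum_filter_add_sum_filter_not X
    (fun e => ∀ x ∈ A, ¬ ¬ (MM b x).Coprime (MM b e)) wt
  have h5 : ∑ e ∈ X.filter (fun e => ¬ ∀ x ∈ A, ¬ ¬ (MM b x).Coprime (MM b e)), wt e ≤
      A.card * (8 * θ) := by
    refine (sum_le_cover _ A (fun x e => ¬ (MM b x).Coprime (MM b e)) _
      (fun e _ => wt_nonneg e) ?_).trans ?_
    · intro e he
      have := (mem_filter.1 he).2
      push Not at this
      exact this
    rw [← nsmul_eq_mul]
    apply sum_le_card_nsmul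
    intro x hx
    have hxE := hXE x (hA hx)
    obtain ⟨-, -, d1, d2⟩ := mem_filter.1 (hA hx)
    set Z := ({x} ∪ nb Y S b x) ∪ ({x.swap} ∪ nb Y S b x.swap) with hZ
    have z1 : ∑ e ∈ Z, wt e ≤ 4 * θ := by
      have f1 := sum_union_le' ({x} ∪ nb Y S b x) ({x.swap} ∪ nb Y S b x.swap) wt wt_nonneg
      have f2 := sum_union_le' {x} (nb Y S b x) wt wt_nonneg
      have f3 := sum_union_le' {x.swap} (nb Y S b x.swap) wt wt_nonneg
      rw [sum_singleton] at f2 f3
      have f4 := hw x hxE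
      have f5 := wt_swap x
      simp only [hdg] at d1 d2
      linarith
    have z2 : ∑ e ∈ Z.image Prod.swap, wt e ≤ 4 * θ := by
      rw [sum_image Prod.swap_injective.injOn]
      simpa only [wt_swap] using z1
    have z3 : ∀ e ∈ EE Y S b, ¬ (MM b x).Coprime (NN b e) → e ∈ Z := by
      intro e he hc
      simp only [hZ, mem_union, mem_singleton, nb, mem_filter, he, true_and]
      by_contra hn
      push Not at hn
      exact hc (Nat.Coprime.mul_left (hn.1.2 hn.1.1) (hn.2.2 hn.2.1))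
    refine (sum_le_sum_of_subset_of_nonneg (t := Z ∪ Z.image Prod.swap) ?_
      fun e _ _ => wt_nonneg e).trans ((sum_union_le' _ _ wt wt_nonneg).trans (by linarith))
    intro e he
    obtain ⟨he, hc⟩ := mem_filter.1 he
    have heE := hXE e (mem_filter.1 he).1
    by_cases c1 : (MM b x).Coprime (NN b e)
    · exact mem_union_right _ (mem_image.2 ⟨e.swap,
        z3 _ (swap_mem_EE heE) fun c2 => hc (Nat.Coprime.mul_right c1 c2), rfl⟩)
    · exact mem_union_left _ (z3 e heE c1)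
  have h6 : (A.card : ℝ) * (8 * θ) ≤ G * (8 * θ) := by
    have : (A.card : ℝ) ≤ G := by exact_mod_cast hc.le
    gcongr
  linarith

theorem select {Y S : Finset ℕ} {b T E G l Ω R H : ℕ} (hT : 2 ≤ T) (hE : 1 ≤ E) (hl : 0 < l)
    (hG : G = 5 * E + 2) (hY : ∀ y ∈ Y, y.Prime ∧ T < y ∧ y ≤ T ^ E)
    (hS : ∀ n ∈ S, Squarefree n ∧ (∀ p, p.Prime → p ∣ n → 2 ^ l ≤ p ∧ p ≤ (T ^ E) ^ 4) ∧
      n ≤ (T ^ E) ^ R ∧ ∃ p, p.Prime ∧ p ∣ n ∧ (T ^ E) ^ 2 < p)
    (hΩ : ((T ^ E) ^ R) ^ (2 * G) ≤ 2 ^ (l * Ω)) (hTl : 64 * E * G ≤ T ^ 2)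
    (hsize : (2 * (Ω * (T ^ E) ^ 4) + 1) * 2 ^ Ω * (G.factorial * (4 * E) ^ G) < T ^ (4 * E + 2))
    (hH : (2 ^ G * T ^ G) ^ 2 ≤ H) (hb : (2 * H) ^ 16 ≤ b) (hmu : 1 / 2 ≤ mu Y S b)
    (hk : kap Y S b + eta Y S b ≤ 1 / (1024 * (E : ℝ) ^ 2 * G)) : SqfBase b := by
  classical
  have hEr : (1 : ℝ) ≤ E := by exact_mod_cast hE
  have hG1 : 1 ≤ G := by omega
  have hGr : (1 : ℝ) ≤ G := by exact_mod_cast hG1
  have hTr : (2 : ℝ) ≤ T := by exact_mod_cast hT
  have hYE : ∀ e ∈ EE Y S b, (e.1.Prime ∧ T < e.1 ∧ e.1 ≤ T ^ E) ∧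
      e.2.Prime ∧ T < e.2 ∧ e.2 ≤ T ^ E := fun e he =>
    ⟨hY _ (mem_EE.1 he).1.1, hY _ (mem_EE.1 he).1.2⟩
  obtain ⟨c, hc, hcw⟩ := exists_le_sum_fiber_of_maps_to_of_nsmul_le_sum (s := EE Y S b)
    (t := Icc 1 E) (f := fun e => Nat.clog T (max e.1 e.2)) (w := wt) (b := 1 / (2 * (E : ℝ))) (by
      intro e he
      obtain ⟨⟨-, h1, h2⟩, -, h3, h4⟩ := hYE e he
      exact mem_Icc.2 ⟨Nat.clog_pos hT (lt_max_of_lt_left (by omega)),
        Nat.clog_le_of_le_pow (max_le h2 h4)⟩) ⟨1, mem_Icc.2 ⟨le_rfl, hE⟩⟩ (by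
      rw [Nat.card_Icc, Nat.add_sub_cancel, nsmul_eq_mul]
      refine le_trans (le_of_eq ?_) hmu
      field_simp)
  rw [mem_Icc] at hc
  obtain ⟨X, hX, hXc, hXa⟩ := prune (G := G) (θ := 1 / (64 * (E : ℝ) * G)) (by positivity)
    (by rw [div_le_one (by positivity)]; nlinarith) (by
      intro e he
      obtain ⟨⟨-, h1, -⟩, -, h3, -⟩ := hYE e he
      rw [wt, one_div_mul_one_div]
      apply one_div_le_one_div_of_le (by positivity)
      exact_mod_cast hTl.trans (by rw [sq]; exact Nat.mul_le_mul h1.le h3.le))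
    (le_of_eq (by field_simp; ring)) (hk.trans (le_of_eq (by field_simp; ring))) _
    (filter_subset _ _) hcw
  have hXE : ∀ e ∈ X, e ∈ EE Y S b := fun e he => (mem_filter.1 (hX he)).1
  have hXT : ∀ e ∈ X, e.1 ≤ T ^ c ∧ e.2 ≤ T ^ c ∧ T ^ c ≤ e.1 * e.2 := by
    intro e he
    obtain ⟨h0, rfl⟩ := mem_filter.1 (hX he)
    obtain ⟨⟨-, h1, -⟩, -, h3, -⟩ := hYE e h0
    have k1 := Nat.le_pow_clog hT (max e.1 e.2)
    have k2 := Nat.pow_pred_clog_lt_self hT (show 1 < max e.1 e.2 from lt_max_of_lt_left (by omega))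
    refine ⟨(le_max_left _ _).trans k1, (le_max_right _ _).trans k1, ?_⟩
    rw [← Nat.succ_pred_eq_of_pos hc.1, pow_succ]
    rcases le_total e.1 e.2 with h | h
    · rw [max_eq_right h] at k2 ⊢
      rw [mul_comm]
      exact Nat.mul_le_mul h1.le k2.le
    · rw [max_eq_left h] at k2 ⊢
      exact Nat.mul_le_mul k2.le h3.le
  have hXs : ∀ e ∈ X, Squarefree (MM b e) := fun e he =>
    (Nat.squarefree_mul (hXc e he)).2
      ⟨(hS _ (mem_EE.1 (hXE e he)).2.2.1).1, (hS _ (mem_EE.1 (hXE e he)).2.2.2).1⟩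
  set j := G / c with hj
  have hjG : j ≤ G := Nat.div_le_self _ _
  have hcj : c * j ≤ G := Nat.mul_div_le G c
  have hcj' : 4 * E + 2 ≤ c * j := by
    have := Nat.lt_mul_div_succ G (show 0 < c from hc.1)
    rw [mul_add, mul_one, ← hj] at this
    omega
  obtain ⟨TT, hTT, hcount⟩ := exists_indep X (fun x e => ¬ (MM b x).Coprime (MM b e))
    (fun _ _ h h' => h h'.symm) (by
      intro e he h
      obtain ⟨p, hp, hd, -⟩ := (hS _ (mem_EE.1 (hXE e he)).2.2.1).2.2.2
      exact hp.one_lt.ne' (Nat.eq_one_of_dvd_coprimes h (hd.mul_right _) (hd.mul_right _)))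
    j ((T : ℝ) ^ c / (4 * E)) (by positivity) (by
      intro A hA hAc
      have h1 := (hXa A hA (lt_of_lt_of_le hAc hjG)).trans (sum_le_card_nsmul _ _
        (1 / (T : ℝ) ^ c) fun e he => by
          rw [wt, one_div_mul_one_div]
          apply one_div_le_one_div_of_le (by positivity)
          exact_mod_cast (hXT e (mem_filter.1 he).1).2.2)
      rw [nsmul_eq_mul, mul_one_div, le_div_iff₀ (by positivity)] at h1
      refine le_trans (le_of_eq ?_) h1
      field_simp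
      ring)
  obtain ⟨A, hA, B, hB, hne, s1, s2, s3⟩ := exists_pair
    TT (fun A => ∏ e ∈ A, NN b e) (fun A => ∏ e ∈ A, NN b e.swap)
    Ω ((T ^ E) ^ 4) (by
      intro A hA
      obtain ⟨⟨hAX, hAc⟩, hA'⟩ := hTT A hA
      rw [← prod_mul_distrib]
      have k1 := squarefree_prod A (MM b) (fun e he => hXs e (hAX he))
        fun e he e' he' h => not_not.1 (hA' e he e' he' h)
      have k2 : ∀ p, p.Prime → p ∣ ∏ e ∈ A, MM b e → 2 ^ l ≤ p ∧ p ≤ (T ^ E) ^ 4 := by
        intro p hp hd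
        obtain ⟨e, he, hd⟩ := (Prime.dvd_finsetProd_iff hp.prime _).1 hd
        rcases (Nat.Prime.dvd_mul hp).1 hd with h | h
        · exact (hS _ (mem_EE.1 (hXE e (hAX he))).2.2.1).2.1 p hp h
        · exact (hS _ (mem_EE.1 (hXE e (hAX he))).2.2.2).2.1 p hp h
      refine ⟨k1, card_primeFactors_le hl k1.ne_zero (fun p hp hd => (k2 p hp hd).1)
        (le_trans ?_ hΩ), fun p hp hd => (k2 p hp hd).2⟩
      refine (prod_le_pow_card _ _ (((T ^ E) ^ R) ^ 2) fun e he => ?_).trans ?_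
      · rw [sq]
        exact Nat.mul_le_mul (hS _ (mem_EE.1 (hXE e (hAX he))).2.2.1).2.2.1
          (hS _ (mem_EE.1 (hXE e (hAX he))).2.2.2).2.2.1
      · rw [← pow_mul _ 2, hAc]
        exact Nat.pow_le_pow_right (by positivity) (by omega)) (by
      rw [div_pow, div_le_iff₀ (by positivity), ← pow_mul] at hcount
      have k1 : T ^ (c * j) ≤ j.factorial * TT.card * (4 * E) ^ j := by exact_mod_cast hcount
      have k2 := (hsize.trans_le (Nat.pow_le_pow_right (by omega) hcj')).trans_le k1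
      rw [mul_right_comm j.factorial, mul_comm (j.factorial * _)] at k2
      exact Nat.lt_of_mul_lt_mul_right (k2.trans_le (Nat.mul_le_mul_left _ (Nat.mul_le_mul
        (Nat.factorial_le hjG) (Nat.pow_le_pow_right (by omega) hjG)))))
  obtain ⟨⟨hAX, hAc⟩, hA'⟩ := hTT A hA
  obtain ⟨⟨hBX, hBc⟩, hB'⟩ := hTT B hB
  have hp1 : ∀ e ∈ X, e.1 ≠ 0 ∧ e.2 ≠ 0 := fun e he =>
    ⟨(hYE e (hXE e he)).1.1.ne_zero, (hYE e (hXE e he)).2.1.ne_zero⟩
  have ev1 : ((∏ e ∈ A, lin e.1 e.2) * ∏ e ∈ B, lin e.2 e.1).eval b =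
      (∏ e ∈ A, NN b e) * ∏ e ∈ B, NN b e.swap := by
    simp only [eval_mul, eval_prod, lin_eval]
    rfl
  have ev2 : ((∏ e ∈ A, lin e.1 e.2) * ∏ e ∈ B, lin e.2 e.1).reverse.eval b =
      (∏ e ∈ A, NN b e.swap) * ∏ e ∈ B, NN b e := by
    rw [reverse_mul_of_domain, reverse_prod, reverse_prod,
      prod_congr rfl fun e he => lin_reverse (hp1 e (hAX he)).1,
      prod_congr rfl fun e he => lin_reverse (hp1 e (hBX he)).2]
    simp only [eval_mul, eval_prod, lin_eval]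
    rfl
  have hbd : ∀ A ⊆ X, A.card = j → ∏ e ∈ A, (e.1 + e.2) ≤ 2 ^ G * T ^ G := by
    intro A hA hAc
    refine (prod_le_pow_card _ _ (2 * T ^ c) fun e he => ?_).trans ?_
    · have := hXT e (hA he)
      omega
    · rw [hAc, mul_pow, ← pow_mul]
      exact Nat.mul_le_mul (Nat.pow_le_pow_right (by norm_num) hjG)
        (Nat.pow_le_pow_right (by omega) hcj)
  refine sqfBase_of_small_seed b H ?_ hb ((∏ e ∈ A, lin e.1 e.2) * ∏ e ∈ B, lin e.2 e.1) ?_ ?_
    (ev1 ▸ s1) (ev2 ▸ s2) ?_ (by rw [ev1, ev2]; exact s3)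
  · refine le_trans ?_ hH
    calc 2 ≤ 2 ^ G := Nat.le_self_pow (by omega) 2
      _ ≤ 2 ^ G * T ^ G := Nat.le_mul_of_pos_right _ (by positivity)
      _ ≤ _ := Nat.le_self_pow two_ne_zero _
  · rw [coeff_zero_eq_eval_zero]
    simp only [eval_mul, eval_prod, lin_eval, mul_zero, zero_add]
    exact mul_ne_zero (prod_ne_zero_iff.2 fun e he => (hp1 e (hAX he)).2)
      (prod_ne_zero_iff.2 fun e he => (hp1 e (hBX he)).1)
  · refine le_trans ?_ hH
    simp only [eval_mul, eval_prod, lin_eval, mul_one]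
    rw [sq]
    exact Nat.mul_le_mul (hbd A hAX hAc) (by simpa only [add_comm] using hbd B hBX hBc)
  · rw [ev1, ev2]
    intro h
    obtain ⟨e', he'B, he'A⟩ : ∃ e', e' ∈ B ∧ e' ∉ A := by
      by_contra hn
      push Not at hn
      exact hne (eq_of_subset_of_card_le hn (by omega)).symm
    obtain ⟨p, hp, hd, hpl⟩ := (hS _ (mem_EE.1 (hXE e' (hBX he'B))).2.2.1).2.2.2
    have k1 : p ∣ (∏ e ∈ A, NN b e) * ∏ e ∈ B, NN b e.swap :=
      h ▸ (hd.trans (dvd_prod_of_mem _ he'B)).mul_left _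
    rcases (Nat.Prime.dvd_mul hp).1 k1 with k | k
    · obtain ⟨e, he, k⟩ := (Prime.dvd_finsetProd_iff hp.prime _).1 k
      exact absurd (common_le (fun y hy => ⟨(hY y hy).1, (hY y hy).2.2⟩) (hXE e (hAX he))
        (hXE e' (hBX he'B)) (fun hh => he'A (hh ▸ he)) k hd) (not_le.2 hpl)
    · obtain ⟨e, he, k⟩ := (Prime.dvd_finsetProd_iff hp.prime _).1 k
      by_cases hh : e' = e
      · subst hh
        exact hp.one_lt.ne' (Nat.eq_one_of_dvd_coprimes (hXc e' (hBX he)) hd k)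
      · exact hp.one_lt.ne' (Nat.eq_one_of_dvd_coprimes (not_not.1 (hB' e' he'B e he hh))
          (hd.mul_right _) (k.mul_left _))

end Pool.Agent.Lib.VPal
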