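import Pool.Agent.Lib.MP_200139_nt.Harm

set_option autoImplicit false

namespace Pool.Agent.Lib.VPal

open Finset

lemma sum_inv_sq_le {w : ℕ} (hw : 0 < w) (P : Finset ℕ) (hP : ∀ p ∈ P, w < p) :
    ∑ p ∈ P, (1 / (p : ℝ) ^ 2) ≤ 1 / (w : ℝ) := by
  obtain ⟨n, hn⟩ := P.bddAbove
  have h1 : P ⊆ Ioc w (max w n) := fun p hp =>
    mem_Ioc.2 ⟨hP p hp, (hn hp).trans (le_max_right _ _)⟩
  have h2 := sum_Ioc_inv_sq_le_sub (α := ℝ) hw.ne' (le_max_left w n)
  have h3 : (0 : ℝ) ≤ ((max w n : ℕ) : ℝ)⁻¹ := by positivity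
  simp only [one_div]
  exact (sum_le_sum_of_subset_of_nonneg h1 fun _ _ _ => by positivity).trans (by linarith)

lemma sum_le_cover {α β : Type*} (A : Finset α) (Q : Finset β) (P : β → α → Prop)
    [∀ q a, Decidable (P q a)] (f : α → ℝ) (hf : ∀ a ∈ A, 0 ≤ f a)
    (h : ∀ a ∈ A, ∃ q ∈ Q, P q a) : ∑ a ∈ A, f a ≤ ∑ q ∈ Q, ∑ a ∈ A.filter (P q), f a := by
  simp only [sum_filter]
  rw [sum_comm]
  apply sum_le_sum
  intro a ha
  obtain ⟨q, hq, hP⟩ := h a ha
  refine le_trans ?_ (single_le_sum (f := fun q => if P q a then f a else 0) (fun q _ => ?_) hq)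
  · simp [hP]
  · split_ifs
    · exact hf a ha
    · exact le_rfl

lemma lt_of_coprime_factorial {w n p : ℕ} (h : n.Coprime w.factorial) (hp : p.Prime) (hd : p ∣ n) :
    w < p := by
  by_contra hc
  exact hp.one_lt.ne' (Nat.eq_one_of_dvd_coprimes h hd (hp.dvd_factorial.2 (not_lt.1 hc)))

lemma coprime_factorial {w p : ℕ} (hp : p.Prime) (h : w < p) : p.Coprime w.factorial :=
  (Nat.Prime.coprime_iff_not_dvd hp).2 fun hd => absurd (hp.dvd_factorial.1 hd) (not_le.2 h)

lemma base_class {w X : ℕ} (hw : 4 ≤ w) (hX : 8 * (w.factorial : ℝ) + 8 ≤ Real.log X)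
    (c : ZMod w.factorial) (hc : IsUnit c) :
    Real.log X / (2 * w.factorial) ≤ ∑ m ∈ ((Icc 1 X).filter fun m => Squarefree m ∧
      m.Coprime w.factorial).filter (fun m : ℕ => (m : ZMod w.factorial) = c), (1 / m : ℝ) := by
  classical
  revert c
  set W := w.factorial with hW
  intro c hc
  have hW0 : 0 < W := w.factorial_pos
  have hWr : (1 : ℝ) ≤ W := by exact_mod_cast hW0
  have : NeZero W := ⟨hW0.ne'⟩
  have hX0 : 0 < X := by
    rcases Nat.eq_zero_or_pos X with rfl | h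
    · simp only [Nat.cast_zero, Real.log_zero] at hX; linarith
    · exact h
  set A := (Icc 1 X).filter (fun m : ℕ => (m : ZMod W) = c) with hA
  have hco : ∀ m ∈ A, m.Coprime W := fun m hm =>
    (ZMod.isUnit_iff_coprime m W).1 ((mem_filter.1 hm).2 ▸ hc)
  have h1 : (Real.log X - W - 1) / W ≤ ∑ m ∈ A, (1 / m : ℝ) := by
    refine le_trans ?_ ((class_sum_ge W (X / W) c).trans (sum_le_sum_of_subset_of_nonneg
      (filter_subset_filter _ (Icc_subset_Icc_right (Nat.mul_div_le X W)))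
      fun _ _ _ => by positivity))
    have e1 : (X : ℝ) ≤ W * (((X / W : ℕ) : ℝ) + 1) := by
      exact_mod_cast (Nat.lt_mul_div_succ X hW0).le
    have e2 := Real.log_le_log (by exact_mod_cast hX0) e1
    rw [Real.log_mul (by positivity) (by positivity)] at e2
    have e3 := Real.log_le_self (show (0 : ℝ) ≤ W by positivity)
    gcongr
    linarith
  have hl : 0 ≤ Real.log X := by linarith
  have h2 : ∑ m ∈ A.filter (fun m => ¬ Squarefree m), (1 / m : ℝ) ≤
      (1 / 4) * (1 + (1 + Real.log X) / W) := by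
    refine (sum_le_cover _ (PS w X) (fun p m => p ^ 2 ∣ m) _ (fun _ _ => by positivity) ?_).trans ?_
    · intro m hm
      obtain ⟨hm, hs⟩ := mem_filter.1 hm
      rw [Nat.squarefree_iff_prime_squarefree] at hs
      push Not at hs
      obtain ⟨p, hp, hd⟩ := hs
      have hm' := mem_Icc.1 (mem_filter.1 hm).1
      have hd1 : p ∣ m := (Dvd.intro _ rfl).trans hd
      exact ⟨p, mem_PS.2 ⟨⟨lt_of_coprime_factorial (hco m hm) hp hd1,
        (Nat.le_of_dvd hm'.1 hd1).trans hm'.2⟩, hp⟩, by rwa [sq]⟩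
    · refine (sum_le_sum (g := fun p : ℕ => 1 / (p : ℝ) ^ 2 * (1 + (1 + Real.log X) / W)) ?_).trans ?_
      · intro p hp
        obtain ⟨⟨hp1, -⟩, hp⟩ := mem_PS.1 hp
        refine (spaced_sum _ (p ^ 2 * W) (p ^ 2) X (Nat.mul_pos (pow_pos hp.pos 2) hW0)
          (pow_pos hp.pos 2) ?_ ?_).trans (le_of_eq ?_)
        · intro m hm
          obtain ⟨hm, hd⟩ := mem_filter.1 hm
          have hm' := mem_Icc.1 (mem_filter.1 (mem_filter.1 hm).1).1
          exact ⟨Nat.le_of_dvd hm'.1 hd, hm'.2⟩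
        · intro m hm m' hm'
          obtain ⟨hm, hd⟩ := mem_filter.1 hm
          obtain ⟨hm', hd'⟩ := mem_filter.1 hm'
          rw [← Nat.modEq_and_modEq_iff_modEq_mul ((coprime_factorial hp hp1).pow_left 2)]
          refine ⟨((Nat.modEq_zero_iff_dvd).2 hd).trans ((Nat.modEq_zero_iff_dvd).2 hd').symm, ?_⟩
          rw [← ZMod.natCast_eq_natCast_iff, (mem_filter.1 (mem_filter.1 hm).1).2,
            (mem_filter.1 (mem_filter.1 hm').1).2]
        · have : (0 : ℝ) < p := by exact_mod_cast hp.pos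
          push_cast
          field_simp
      · rw [← sum_mul]
        have e1 := sum_inv_sq_le (show 0 < w by omega) (PS w X) fun p hp => (mem_PS.1 hp).1.1
        have e2 : (1 : ℝ) / w ≤ 1 / 4 := by
          have : (4 : ℝ) ≤ w := by exact_mod_cast hw
          gcongr
        gcongr
        exact e1.trans e2
  have h3 := sum_filter_add_sum_filter_not A (fun m => Squarefree m) (fun m : ℕ => (1 / m : ℝ))
  have h4 : A.filter (fun m => Squarefree m) = ((Icc 1 X).filter fun m => Squarefree m ∧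
      m.Coprime W).filter (fun m : ℕ => (m : ZMod W) = c) := by
    ext m
    constructor
    · intro hm
      obtain ⟨hm, hs⟩ := mem_filter.1 hm
      exact mem_filter.2 ⟨mem_filter.2 ⟨(mem_filter.1 hm).1, hs, hco m hm⟩, (mem_filter.1 hm).2⟩
    · intro hm
      obtain ⟨hm, hs⟩ := mem_filter.1 hm
      exact mem_filter.2 ⟨mem_filter.2 ⟨(mem_filter.1 hm).1, hs⟩, (mem_filter.1 hm).2.1⟩
  rw [← h4]
  have h5 : Real.log X / (2 * W) ≤
      (Real.log X - W - 1) / W - (1 / 4) * (1 + (1 + Real.log X) / W) := by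
    rw [← sub_nonneg]
    have : (Real.log X - W - 1) / W - (1 / 4) * (1 + (1 + Real.log X) / W) - Real.log X / (2 * W) =
        (Real.log X - 5 * W - 5) / (4 * W) := by field_simp; ring
    rw [this]
    apply div_nonneg <;> linarith
  linarith

theorem exists_smooth {w t r : ℕ} (hw : 4 ≤ w) (ht : 7 ≤ t) (hr : 1 ≤ r)
    (hX : 8 * (w.factorial : ℝ) + 8 ≤ Real.log ((16 ^ t) ^ r : ℕ)) (i : ℕ) (hi : i ≤ r) :
    ∃ S : Finset ℕ, (∀ n ∈ S, Squarefree n ∧ n.Coprime w.factorial ∧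
      (∀ p, p.Prime → p ∣ n → p ≤ (16 ^ t) ^ (r + i)) ∧ (16 ^ t) ^ (r * i) ≤ n ∧
      n ≤ (16 ^ t) ^ (r + 2 * r * i) ∧ (i ≠ 0 → ∃ p, p.Prime ∧ p ∣ n ∧ (16 ^ t) ^ r < p)) ∧
      ∀ c : ZMod w.factorial, IsUnit c →
        (1 / (12 * r : ℝ)) ^ i * (Real.log ((16 ^ t) ^ r : ℕ) / (2 * w.factorial)) ≤
          ∑ n ∈ S.filter (fun n : ℕ => (n : ZMod w.factorial) = c), (1 / n : ℝ) := by
  classical
  set V := 16 ^ t with hV
  have hV1 : 1 ≤ V := Nat.one_le_pow _ _ (by norm_num)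
  have hwV : w ≤ V ^ r := by
    have h1 : (w : ℝ) ≤ w.factorial := by exact_mod_cast Nat.self_le_factorial w
    have h2 := Real.log_le_self (show (0 : ℝ) ≤ (V ^ r : ℕ) by positivity)
    have h3 : (0 : ℝ) ≤ w := by positivity
    exact_mod_cast (show (w : ℝ) ≤ (V ^ r : ℕ) by linarith)
  induction i with
  | zero =>
    refine ⟨(Icc 1 (V ^ r)).filter fun m => Squarefree m ∧ m.Coprime w.factorial, ?_, ?_⟩
    · intro n hn
      obtain ⟨h1, h2, h3⟩ := mem_filter.1 hn
      rw [mem_Icc] at h1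
      exact ⟨h2, h3, fun p _ hp => (Nat.le_of_dvd h1.1 hp).trans h1.2, by simpa using h1.1,
        by simpa using h1.2, fun h => absurd rfl h⟩
    · intro c hc
      rw [pow_zero, one_mul]
      exact base_class hw hX c hc
  | succ i ih =>
    obtain ⟨S, hS, hsum⟩ := ih (by omega)
    set P := PS (V ^ (r + i)) (V ^ (r + i + 1)) with hP
    have hPw : ∀ p ∈ P, p.Coprime w.factorial := by
      intro p hp
      obtain ⟨⟨h1, -⟩, h2⟩ := mem_PS.1 hp
      exact coprime_factorial h2 (lt_of_le_of_lt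
        (hwV.trans (Nat.pow_le_pow_right hV1 (by omega))) h1)
    have hnd : ∀ p ∈ P, ∀ n ∈ S, ¬ p ∣ n := by
      intro p hp n hn hd
      obtain ⟨⟨h1, -⟩, h2⟩ := mem_PS.1 hp
      exact absurd ((hS n hn).2.2.1 p h2 hd) (not_le.2 h1)
    refine ⟨(P ×ˢ S).image fun x => x.1 * x.2, ?_, ?_⟩
    · intro m hm
      obtain ⟨⟨p, n⟩, hx, rfl⟩ := mem_image.1 hm
      obtain ⟨hp, hn⟩ := mem_product.1 hx
      obtain ⟨⟨h1, h2⟩, h3⟩ := mem_PS.1 hp
      obtain ⟨k1, k2, k3, k4, k5, -⟩ := hS n hn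
      simp only at *
      refine ⟨?_, Nat.Coprime.mul_left (hPw p hp) k2, ?_, ?_, ?_, fun _ => ⟨p, h3, Dvd.intro _ rfl,
        lt_of_le_of_lt (Nat.pow_le_pow_right hV1 (by omega)) h1⟩⟩
      · rw [Nat.squarefree_mul ((Nat.Prime.coprime_iff_not_dvd h3).2 (hnd p hp n hn))]
        exact ⟨h3.squarefree, k1⟩
      · intro q hq hd
        rcases (Nat.Prime.dvd_mul hq).1 hd with h | h
        · exact (Nat.le_of_dvd h3.pos h).trans h2
        · exact (k3 q hq h).trans (Nat.pow_le_pow_right hV1 (by omega))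
      · rw [mul_add, mul_one, add_comm, pow_add]
        exact Nat.mul_le_mul ((Nat.pow_le_pow_right hV1 (by omega)).trans h1.le) k4
      · rw [show r + 2 * r * (i + 1) = 2 * r + (r + 2 * r * i) by ring, pow_add]
        exact Nat.mul_le_mul (h2.trans (Nat.pow_le_pow_right hV1 (by omega))) k5
    · intro c hc
      have hinj : Set.InjOn (fun x : ℕ × ℕ => x.1 * x.2) (P ×ˢ S : Finset (ℕ × ℕ)) := by
        rintro ⟨p, n⟩ hx ⟨p', n'⟩ hx' h
        obtain ⟨hp, hn⟩ := mem_product.1 hx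
        obtain ⟨hp', hn'⟩ := mem_product.1 hx'
        simp only at h hp hn hp' hn'
        have h3 := (mem_PS.1 hp).2
        have h4 : p = p' := by
          rcases (Nat.Prime.dvd_mul h3).1 (Dvd.intro _ h) with k | k
          · exact (Nat.prime_dvd_prime_iff_eq h3 (mem_PS.1 hp').2).1 k
          · exact absurd k (hnd p hp n' hn')
        subst h4
        rw [Nat.eq_of_mul_eq_mul_left h3.pos h]
      rw [sum_filter, sum_image hinj, sum_product]
      have h1 : 1 / (12 * r : ℝ) ≤ rs (V ^ (r + i)) (V ^ (r + i + 1)) := by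
        refine le_trans ?_ (rs_pow ht (show 1 ≤ r + i by omega) 1)
        have : ((r + i : ℕ) : ℝ) + 1 ≤ 2 * r := by exact_mod_cast (by omega)
        have : (0 : ℝ) < ((r + i : ℕ) : ℝ) + 1 := by positivity
        rw [Nat.cast_one]
        apply one_div_le_one_div_of_le (by positivity)
        linarith
      have hl : 0 ≤ Real.log (V ^ r : ℕ) := Real.log_natCast_nonneg _
      rw [pow_succ', mul_assoc]
      refine (mul_le_mul_of_nonneg_right h1 (by positivity)).trans ?_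
      rw [rs, sum_mul]
      apply sum_le_sum
      intro p hp
      obtain ⟨u, hu⟩ := (ZMod.isUnit_iff_coprime p _).2 (hPw p hp)
      refine (mul_le_mul_of_nonneg_left (hsum (u⁻¹ * c) ((Units.isUnit _).mul hc))
        (by positivity)).trans (le_of_eq ?_)
      rw [sum_filter, mul_sum]
      apply sum_congr rfl
      intro n _
      push_cast
      simp only [← hu, Units.eq_inv_mul_iff_mul_eq]
      split_ifs
      · rw [one_div_mul_one_div]
      · exact mul_zero _

lemma rs_ge {t : ℕ} (ht : 7 ≤ t) (E : ℕ) (hE : 1 ≤ E) :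
    (Real.log (E + 1) - 1) / 6 ≤ rs (16 ^ t) ((16 ^ t) ^ E) := by
  have h1 : (∑ i ∈ Icc 1 E, (1 / i : ℝ) - 1) / 6 ≤ rs (16 ^ t) ((16 ^ t) ^ E) := by
    induction E, hE using Nat.le_induction with
    | base => simp [rs_nonneg]
    | succ E hE ih =>
      have hV : 1 ≤ 16 ^ t := Nat.one_le_pow _ _ (by norm_num)
      rw [rs_add (Nat.le_self_pow (by omega) _) (Nat.pow_le_pow_right hV (Nat.le_succ E)),
        sum_Icc_succ_top (by omega)]
      have h2 := rs_pow ht hE 1
      have h3 : ((1 : ℕ) : ℝ) / (6 * ((E : ℝ) + (1 : ℕ))) = 1 / ((E + 1 : ℕ) : ℝ) / 6 := by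
        push_cast
        field_simp
      linarith
  have h2 := le_harm E
  linarith

end Pool.Agent.Lib.VPal
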